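import Pool.Agent.L7h61.CH.Sign
import Pool.Agent.H622R3.SM.T_FARKAS

set_option autoImplicit false

/-!
# Chebyshev systems: certificates of infeasibility
-/

namespace Pool.Agent.L7h61.CH

open Matrix

variable {ν N : ℕ}

section

variable {κ : Type} [Preorder κ] {a : κ → Fin (ν + 1) → ℝ} {V : Fin N → Fin (ν + 1) → ℝ}
  {pos : κ → Fin N} {c : κ → ℝ}

/-- The coefficients of the relation between `ν + 2` rows. -/
noncomputable def Kc (a : κ → Fin (ν + 1) → ℝ) (f : Fin (ν + 2) → κ) (i : Fin (ν + 2)) : ℝ :=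
  (-1) ^ (i : ℕ) * dt a (f ∘ i.succAbove)

theorem Cheb.K_sign (H : Cheb a V pos c) (s : ℝ)
    (hs : ∀ f : Fin (ν + 1) → Fin N, StrictMono f → 0 < s * dt V f)
    (f : Fin (ν + 2) → κ) (hf : StrictMono (pos ∘ f))
    (i : Fin (ν + 2)) : ∃ r : ℝ, 0 < r ∧
      s * (Kc a f i * (∏ j, c (f j)) * c (f 0)) = ((-1) ^ (i : ℕ) * c (f i) * c (f 0)) * r := by
  refine ⟨(∏ j, c (f (i.succAbove j))) * (∏ j, c (f (i.succAbove j))) *
    (s * dt V (pos ∘ (f ∘ i.succAbove))), ?_, ?_⟩
  · refine mul_pos (mul_self_pos.2 (Finset.prod_ne_zero_iff.2 fun j _ => H.hc _)) ?_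
    exact hs _ (hf.comp (Fin.strictMono_succAbove i))
  · unfold Kc
    rw [H.dt_eq, Fin.prod_univ_succAbove _ i]
    simp only [Function.comp_def]
    ring

/-- **Certificate.** An alternating chain of length `ν + 2`, and a point which is tight on it
except for one constraint, which is violated. -/
theorem Cheb.cert (H : Cheb a V pos c) (b : κ → ℝ) (f : Fin (ν + 2) → κ)
    (hf : StrictMono (pos ∘ f)) (halt : ∀ i : Fin (ν + 2), 0 < (-1) ^ (i : ℕ) * c (f i) * c (f 0))
    (i0 : Fin (ν + 2)) (x : Fin (ν + 1) → ℝ) (hx : ∀ i, i ≠ i0 → sl a b x (f i) = 0)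
    (hx0 : sl a b x (f i0) < 0) (y : Fin (ν + 1) → ℝ) (hy : ∀ i, 0 ≤ sl a b y (f i)) : False := by
  obtain ⟨s, hs⟩ := H.hV
  have hK : ∀ i, 0 < s * (Kc a f i * (∏ j, c (f j)) * c (f 0)) := by
    intro i
    obtain ⟨r, hr, h⟩ := H.K_sign s hs f hf i
    rw [h]
    exact mul_pos (halt i) hr
  have h1 := sl_sum a b f x
  have h2 := sl_sum a b f y
  rw [Finset.sum_eq_single i0 (fun i _ hi => by rw [hx i hi]; ring) (fun h => absurd (Finset.mem_univ _) h)]
    at h1
  have h3 : ∑ i : Fin (ν + 2), (s * (Kc a f i * (∏ j, c (f j)) * c (f 0))) * sl a b y (f i) =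
      (s * (Kc a f i0 * (∏ j, c (f j)) * c (f 0))) * sl a b x (f i0) := by
    have h4 : ∑ i : Fin (ν + 2), (s * (Kc a f i * (∏ j, c (f j)) * c (f 0))) * sl a b y (f i) =
        (s * ((∏ j, c (f j)) * c (f 0))) *
          ∑ i : Fin (ν + 2), (-1) ^ (i : ℕ) * sl a b y (f i) * dt a (f ∘ i.succAbove) := by
      rw [Finset.mul_sum]
      refine Finset.sum_congr rfl fun i _ => ?_
      unfold Kc
      ring
    rw [h4, h2, ← h1]
    unfold Kc
    ring
  have h5 : 0 ≤ ∑ i : Fin (ν + 2), (s * (Kc a f i * (∏ j, c (f j)) * c (f 0))) * sl a b y (f i) :=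
    Finset.sum_nonneg fun i _ => mul_nonneg (hK i).le (hy i)
  rw [h3] at h5
  have h6 := mul_neg_of_pos_of_neg (hK i0) hx0
  linarith

end

variable {m : ℕ} {a : Fin m → Fin (ν + 1) → ℝ} {V : Fin N → Fin (ν + 1) → ℝ}
  {pos : Fin m → Fin N} {c : Fin m → ℝ}

/-- A certificate of infeasibility. -/
def IsCert (a : Fin m → Fin (ν + 1) → ℝ) (b : Fin m → ℝ) (y : Fin m → ℝ) : Prop :=
  (∀ i, 0 ≤ y i) ∧ (∀ j, ∑ i, y i * a i j = 0) ∧ 0 < ∑ i, y i * b i

/-- A certificate with few nonzero entries. -/
theorem exists_min_cert (b : Fin m → ℝ) (h : ∃ y, IsCert a b y) :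
    ∃ y, IsCert a b y ∧ ∀ z : Fin m → ℝ, (∀ j, ∑ i, z i * a i j = 0) →
      (∀ i, y i = 0 → z i = 0) → ∃ t : ℝ, ∀ i, z i = t * y i := by
  classical
  let supp : (Fin m → ℝ) → Finset (Fin m) := fun y => Finset.univ.filter fun i => y i ≠ 0
  have hex : ∃ k, ∃ y, IsCert a b y ∧ (supp y).card = k := by
    obtain ⟨y, hy⟩ := h
    exact ⟨_, y, hy, rfl⟩
  obtain ⟨y, hy, hcard⟩ := Nat.find_spec hex
  have hmin : ∀ y', IsCert a b y' → (supp y).card ≤ (supp y').card := by
    intro y' hy'
    rw [hcard]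
    exact Nat.find_min' hex ⟨y', hy', rfl⟩
  refine ⟨y, hy, ?_⟩
  have hA : ∀ z : Fin m → ℝ, (∀ j, ∑ i, z i * a i j = 0) → (∀ i, y i = 0 → z i = 0) →
      0 ≤ ∑ i, z i * b i → ∀ i, 0 ≤ z i := by
    intro z hz hzs hzb
    by_contra hcon
    push Not at hcon
    obtain ⟨i1, hi1⟩ := hcon
    set F := Finset.univ.filter fun i => z i < 0 with hF
    have hFne : F.Nonempty := ⟨i1, by rw [hF, Finset.mem_filter]; exact ⟨Finset.mem_univ _, hi1⟩⟩
    obtain ⟨p, hpF, hpmin⟩ := Finset.exists_min_image F (fun i => y i / (- z i)) hFne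
    have hzp : z p < 0 := (Finset.mem_filter.1 hpF).2
    have hyp : 0 < y p := by
      rcases lt_or_eq_of_le (hy.1 p) with h1 | h1
      · exact h1
      · exact absurd (hzs p h1.symm) (ne_of_lt hzp)
    set t := y p / (- z p) with ht
    have ht0 : 0 < t := div_pos hyp (by linarith)
    have hcert : IsCert a b (fun i => y i + t * z i) := by
      refine ⟨fun i => ?_, fun j => ?_, ?_⟩
      · rcases lt_or_ge (z i) 0 with h1 | h1
        · have h2 := hpmin i (Finset.mem_filter.2 ⟨Finset.mem_univ _, h1⟩)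
          have h3 : t ≤ y i / (- z i) := h2
          rw [le_div_iff₀ (by linarith)] at h3
          show 0 ≤ y i + t * z i
          linarith
        · exact add_nonneg (hy.1 i) (mul_nonneg ht0.le h1)
      · have h1 := hy.2.1 j
        have h2 := hz j
        have h3 : ∑ i, (y i + t * z i) * a i j = ∑ i, y i * a i j + t * ∑ i, z i * a i j := by
          rw [Finset.mul_sum, ← Finset.sum_add_distrib]
          exact Finset.sum_congr rfl fun i _ => by ring
        rw [h3, h1, h2]
        ring
      · have h3 : ∑ i, (y i + t * z i) * b i = ∑ i, y i * b i + t * ∑ i, z i * b i := by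
          rw [Finset.mul_sum, ← Finset.sum_add_distrib]
          exact Finset.sum_congr rfl fun i _ => by ring
        rw [h3]
        have := hy.2.2
        have h4 := mul_nonneg ht0.le hzb
        linarith
    have h5 := hmin _ hcert
    have h6 : supp (fun i => y i + t * z i) ⊂ supp y := by
      refine Finset.ssubset_iff_subset_ne.2 ⟨?_, ?_⟩
      · intro i hi
        simp only [supp, Finset.mem_filter, Finset.mem_univ, true_and] at hi ⊢
        intro h0
        apply hi
        rw [h0, hzs i h0]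
        ring
      · intro h0
        have h7 : p ∈ supp y := by
          simp only [supp, Finset.mem_filter, Finset.mem_univ, true_and]
          exact ne_of_gt hyp
        rw [← h0] at h7
        simp only [supp, Finset.mem_filter, Finset.mem_univ, true_and] at h7
        apply h7
        rw [ht]
        have : z p ≠ 0 := ne_of_lt hzp
        field_simp
        ring
    have h7 := Finset.card_lt_card h6
    omega
  intro z hz hzs
  have hyb := hy.2.2
  set t := (∑ i, z i * b i) / (∑ i, y i * b i) with ht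
  have hwk : ∀ s : ℝ, ∀ j, ∑ i, (s * (z i - t * y i)) * a i j = 0 := by
    intro s j
    have h3 : ∑ i, (s * (z i - t * y i)) * a i j =
        s * (∑ i, z i * a i j - t * ∑ i, y i * a i j) := by
      rw [Finset.mul_sum, ← Finset.sum_sub_distrib, Finset.mul_sum]
      exact Finset.sum_congr rfl fun i _ => by ring
    rw [h3, hz j, hy.2.1 j]
    ring
  have hwb : ∀ s : ℝ, ∑ i, (s * (z i - t * y i)) * b i = 0 := by
    intro s
    have h3 : ∑ i, (s * (z i - t * y i)) * b i =
        s * (∑ i, z i * b i - t * ∑ i, y i * b i) := by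
      rw [Finset.mul_sum, ← Finset.sum_sub_distrib, Finset.mul_sum]
      exact Finset.sum_congr rfl fun i _ => by ring
    rw [h3, ht, div_mul_cancel₀ _ (ne_of_gt hyb)]
    ring
  have hws : ∀ s : ℝ, ∀ i, y i = 0 → s * (z i - t * y i) = 0 := by
    intro s i h0
    rw [h0, hzs i h0]
    ring
  refine ⟨t, fun i => ?_⟩
  have h1 := hA (fun i => 1 * (z i - t * y i)) (hwk 1) (hws 1) (hwb 1).ge i
  have h2 := hA (fun i => (-1) * (z i - t * y i)) (hwk (-1)) (hws (-1)) (hwb (-1)).ge i
  have h1' : 0 ≤ 1 * (z i - t * y i) := h1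
  have h2' : 0 ≤ (-1) * (z i - t * y i) := h2
  linarith

/-- Vectors of a Chebyshev system in few positions are linearly independent. -/
theorem Cheb.indep (H : Cheb a V pos c) (y : Fin m → ℝ) (hy : ∀ j, ∑ i, y i * a i j = 0)
    (S : Finset (Fin m)) (hS : ∀ i, y i ≠ 0 → i ∈ S)
    (hinj : ∀ i j, y i ≠ 0 → y j ≠ 0 → pos i = pos j → i = j)
    (hcard : (S.image pos).card ≤ ν + 1) : ∀ i, y i = 0 := by
  classical
  obtain ⟨P, hPS, hPc⟩ := Finset.exists_superset_card_eq hcard (by
    rw [Fintype.card_fin]; exact H.hN)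
  set g := P.orderEmbOfFin hPc with hg
  have hdet : dt V g ≠ 0 := by
    obtain ⟨s, hs⟩ := H.hV
    have h := hs g g.strictMono
    exact fun h0 => by rw [h0, mul_zero] at h; exact lt_irrefl _ h
  set w : Fin N → ℝ := fun p => ∑ i, if pos i = p then y i * c i else 0 with hw
  have hw0 : ∀ p, p ∉ P → w p = 0 := by
    intro p hp
    refine Finset.sum_eq_zero fun i _ => ?_
    split_ifs with h1
    · by_cases h2 : y i = 0
      · rw [h2, zero_mul]
      · exact absurd (hPS (Finset.mem_image.2 ⟨i, hS i h2, h1⟩)) hp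
    · rfl
  have hsum : ∀ j, ∑ p, w p * V p j = 0 := by
    intro j
    rw [← hy j]
    simp only [hw, Finset.sum_mul]
    rw [Finset.sum_comm]
    refine Finset.sum_congr rfl fun i _ => ?_
    rw [Finset.sum_eq_single (pos i)]
    · rw [if_pos rfl, H.ha i]
      simp
      ring
    · intro p _ hp
      rw [if_neg (Ne.symm hp), zero_mul]
    · intro h; exact absurd (Finset.mem_univ _) h
  have hvec : (fun r => w (g r)) ᵥ* (Matrix.of fun r j => V (g r) j) = 0 := by
    funext j
    show ∑ r, w (g r) * V (g r) j = 0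
    rw [← hsum j]
    have h1 : ∑ p, w p * V p j = ∑ p ∈ P, w p * V p j := by
      symm
      refine Finset.sum_subset (Finset.subset_univ _) fun p _ hp => ?_
      rw [hw0 p hp, zero_mul]
    rw [h1]
    have h2 : P = Finset.univ.map g.toEmbedding := by
      rw [hg, Finset.map_orderEmbOfFin_univ]
    rw [h2, Finset.sum_map]
    rfl
  have hzero := Matrix.eq_zero_of_vecMul_eq_zero hdet hvec
  intro i
  by_contra hi
  have h1 : pos i ∈ P := hPS (Finset.mem_image.2 ⟨i, hS i hi, rfl⟩)
  have h2 : pos i ∈ Set.range g := by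
    rw [hg, Finset.range_orderEmbOfFin]; exact h1
  obtain ⟨r, hr⟩ := h2
  have h3 : w (g r) = 0 := congrFun hzero r
  rw [hr] at h3
  have h4 : w (pos i) = y i * c i := by
    rw [hw]
    refine (Finset.sum_eq_single i ?_ (fun h => absurd (Finset.mem_univ _) h)).trans (if_pos rfl)
    intro j _ hj
    split_ifs with h5
    · by_cases h6 : y j = 0
      · rw [h6, zero_mul]
      · exact absurd (hinj j i h6 hi h5) hj
    · rfl
  rw [h4] at h3
  exact (mul_ne_zero hi (H.hc i)) h3

/-- There is no violated pair of parallel rows. -/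
def NoViol (pos : Fin m → Fin N) (c b : Fin m → ℝ) : Prop :=
  ∀ i j, pos i = pos j → 0 < c i → c j < 0 → b i / c i ≤ b j / c j

/-- **The certificates of infeasibility.** -/
theorem Cheb.infeasible (H : Cheb a V pos c) (b : Fin m → ℝ)
    (hinf : ¬ ∃ x : Fin (ν + 1) → ℝ, ∀ i, 0 ≤ sl a b x i) (hv : NoViol pos c b) :
    ∃ f : Fin (ν + 2) → Fin m, StrictMono (pos ∘ f) ∧
      ∀ i : Fin (ν + 2), 0 < (-1) ^ (i : ℕ) * c (f i) * c (f 0) := by
  classical
  have hF : ¬ Pool.Agent.H558R2.Feas ((a, b) : Pool.Agent.H558R2.Inp m (ν + 1)) := by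
    rintro ⟨x, hx⟩
    exact hinf ⟨x, fun i => sub_nonneg.2 (hx i)⟩
  obtain ⟨y0, hy0⟩ := (Pool.Agent.H622R3.SM.t_FARKAS m (ν + 1) (a, b)).1 hF
  obtain ⟨y, ⟨hy1, hy2, hy3⟩, hmin⟩ := exists_min_cert (a := a) b ⟨y0, hy0⟩
  by_cases hpar : ∃ i j, i ≠ j ∧ y i ≠ 0 ∧ y j ≠ 0 ∧ pos i = pos j
  · exfalso
    obtain ⟨i, j, hij, hi, hj, hp⟩ := hpar
    have hci := H.hc i
    have hcj := H.hc j
    set z : Fin m → ℝ := fun l => (if l = j then 1 / c j else 0) - (if l = i then 1 / c i else 0)
      with hz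
    have hsum : ∀ w : Fin m → ℝ, ∑ l, z l * w l = w j / c j - w i / c i := by
      intro w
      simp only [hz, sub_mul, Finset.sum_sub_distrib, ite_mul, zero_mul, Finset.sum_ite_eq',
        Finset.mem_univ, if_true]
      ring
    obtain ⟨t, ht⟩ := hmin z (fun e => by
      rw [hsum, H.ha i, H.ha j, hp]
      simp
      field_simp
      ring) (fun l hl => by
      rw [hz]
      have h1 : l ≠ j := fun h => hj (h ▸ hl)
      have h2 : l ≠ i := fun h => hi (h ▸ hl)
      simp [h1, h2])
    have hzj : 1 / c j = t * y j := by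
      rw [← ht j, hz]; simp [hij.symm]
    have hzi : - (1 / c i) = t * y i := by
      rw [← ht i, hz]; simp [hij]
    have hyi : 0 < y i := lt_of_le_of_ne (hy1 i) (Ne.symm hi)
    have hyj : 0 < y j := lt_of_le_of_ne (hy1 j) (Ne.symm hj)
    have hzb : b j / c j - b i / c i = t * ∑ l, y l * b l := by
      rw [← hsum b, Finset.mul_sum]
      refine Finset.sum_congr rfl fun l _ => ?_
      rw [ht l]; ring
    rcases lt_trichotomy t 0 with h | h | h
    · have h1 : c j < 0 := by
        have : 1 / c j < 0 := by rw [hzj]; exact mul_neg_of_neg_of_pos h hyj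
        exact one_div_neg.1 this
      have h2 : 0 < c i := by
        have : 0 < 1 / c i := by
          have := mul_neg_of_neg_of_pos h hyi
          linarith
        exact one_div_pos.1 this
      have h3 := hv i j hp h2 h1
      have h4 := mul_neg_of_neg_of_pos h hy3
      linarith
    · rw [h, zero_mul] at hzj
      exact (one_div_ne_zero hcj) hzj
    · have h1 : 0 < c j := by
        have : 0 < 1 / c j := by rw [hzj]; exact mul_pos h hyj
        exact one_div_pos.1 this
      have h2 : c i < 0 := by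
        have : 1 / c i < 0 := by
          have := mul_pos h hyi
          linarith
        exact one_div_neg.1 this
      have h3 := hv j i hp.symm h1 h2
      have h4 := mul_pos h hy3
      linarith
  · have hinj : ∀ i j, y i ≠ 0 → y j ≠ 0 → pos i = pos j → i = j := by
      intro i j hi hj hp
      by_contra hij
      exact hpar ⟨i, j, hij, hi, hj, hp⟩
    set S := Finset.univ.filter fun i => y i ≠ 0 with hS
    have hSm : ∀ i, y i ≠ 0 → i ∈ S := fun i hi => Finset.mem_filter.2 ⟨Finset.mem_univ _, hi⟩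
    have hSm' : ∀ i, i ∈ S → y i ≠ 0 := fun i hi => (Finset.mem_filter.1 hi).2
    have hcard : ν + 2 ≤ S.card := by
      by_contra hc
      have h1 : (S.image pos).card ≤ ν + 1 := Finset.card_image_le.trans (by omega)
      have h2 := H.indep y hy2 S hSm hinj h1
      rw [Finset.sum_eq_zero (fun i _ => by rw [h2 i, zero_mul])] at hy3
      exact lt_irrefl _ hy3
    obtain ⟨S', hS'S, hS'c⟩ := Finset.exists_subset_card_eq hcard
    set f := S'.orderEmbOfFin hS'c with hf
    have hfS : ∀ i, y (f i) ≠ 0 := fun i => hSm' _ (hS'S (S'.orderEmbOfFin_mem hS'c i))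
    have hfm : StrictMono (pos ∘ f) := by
      intro i j hij
      refine lt_of_le_of_ne (H.mono (f.monotone hij.le)) fun h => ?_
      have := hinj _ _ (hfS i) (hfS j) h
      exact absurd (f.injective this) hij.ne
    refine ⟨f, hfm, ?_⟩
    set z : Fin m → ℝ := fun l => ∑ i, if f i = l then Kc a f i else 0 with hz
    have hzf : ∀ i, z (f i) = Kc a f i := by
      intro i
      rw [hz]
      refine (Finset.sum_eq_single i ?_ (fun h => absurd (Finset.mem_univ _) h)).trans (if_pos rfl)
      intro j _ hj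
      rw [if_neg fun h => hj (f.injective h)]
    obtain ⟨t, ht⟩ := hmin z (fun e => by
      have h1 : ∑ l, z l * a l e = ∑ i, Kc a f i * a (f i) e := by
        simp only [hz, Finset.sum_mul]
        rw [Finset.sum_comm]
        refine Finset.sum_congr rfl fun i _ => ?_
        rw [Finset.sum_eq_single (f i)]
        · rw [if_pos rfl]
        · intro p _ hp
          rw [if_neg (Ne.symm hp), zero_mul]
        · intro h; exact absurd (Finset.mem_univ _) h
      rw [h1, ← rel a f e]
      refine Finset.sum_congr rfl fun i _ => ?_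
      unfold Kc
      ring) (fun l hl => by
      rw [hz]
      refine Finset.sum_eq_zero fun i _ => ?_
      split_ifs with h1
      · exact absurd (h1 ▸ hl) (hfS i)
      · rfl)
    have hKt : ∀ i, Kc a f i = t * y (f i) := fun i => by rw [← hzf i, ht]
    have hyf : ∀ i, 0 < y (f i) := fun i => lt_of_le_of_ne (hy1 _) (Ne.symm (hfS i))
    obtain ⟨s, hs⟩ := H.hV
    obtain ⟨r0, hr0, h0⟩ := H.K_sign s hs f hfm 0
    have hc0 : 0 < c (f 0) * c (f 0) := mul_self_pos.2 (H.hc _)
    intro i
    obtain ⟨r, hr, h1⟩ := H.K_sign s hs f hfm i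
    rw [hKt] at h0 h1
    have h2 : 0 < s * (t * y (f 0) * (∏ j, c (f j)) * c (f 0)) := by
      rw [h0]
      simp only [Fin.val_zero, pow_zero, one_mul]
      exact mul_pos hc0 hr0
    have h3 : 0 < s * (t * (∏ j, c (f j)) * c (f 0)) := by
      have h4 : s * (t * y (f 0) * (∏ j, c (f j)) * c (f 0)) =
          y (f 0) * (s * (t * (∏ j, c (f j)) * c (f 0))) := by ring
      rw [h4] at h2
      exact (pos_iff_pos_of_mul_pos h2).1 (hyf 0)
    have h5 : 0 < ((-1) ^ (i : ℕ) * c (f i) * c (f 0)) * r := by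
      rw [← h1]
      have h6 : s * (t * y (f i) * (∏ j, c (f j)) * c (f 0)) =
          y (f i) * (s * (t * (∏ j, c (f j)) * c (f 0))) := by ring
      rw [h6]
      exact mul_pos (hyf i) h3
    exact (pos_iff_pos_of_mul_pos h5).2 hr

end Pool.Agent.L7h61.CH
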