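import Pool.Agent.L7h61.CH.Step

set_option autoImplicit false

/-!
# Chebyshev systems: the answer of the algorithm is correct
-/

namespace Pool.Agent.L7h61.CH

open Matrix
open Pool.Agent.NPC Pool.Agent.H558R2 Pool.Agent.H622R3.SM Pool.Agent.W920.FC

variable {m ν N : ℕ} (hm : 0 < m) {A : Fin m → Fin (ν + 1) → ℝ} {b : Fin m → ℝ}
  {V : Fin N → Fin (ν + 1) → ℝ} {pos : ℕ → Fin N} {c : ℕ → ℝ} {L L' : Tab}

theorem inf_iff : Inf (aN hm A) (bN hm b) m ↔ ¬ ∃ x : Fin (ν + 1) → ℝ, ∀ i, b i ≤ A i ⬝ᵥ x := by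
  unfold Inf
  refine not_congr (exists_congr fun x => ?_)
  constructor
  · intro h i
    have h1 := h i i.2
    unfold sl aN bN at h1
    rw [ex_of_lt hm i.2] at h1
    exact sub_nonneg.1 h1
  · intro h i hi
    have h1 := h ⟨i, hi⟩
    unfold sl aN bN
    rw [ex_of_lt hm hi]
    exact sub_nonneg.2 h1

theorem core_aux (H : Cheb (aN hm A) V pos c) (hpar : ParOK pos m (ν + 1) L)
    (hL : Tr A b L (K0 m (ν + 1))) (hL' : Tr A b L' (K1 m (ν + 1) L))
    (hν : ν = 0 → ∀ i j, pos i = pos j) :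
    fin m (ν + 1) L (sts A b L L' (itN m (ν + 1))) = true ↔
      ∃ x : Fin (ν + 1) → ℝ, ∀ i, b i ≤ A i ⬝ᵥ x := by
  rw [← not_iff_not, ← inf_iff hm, Bool.not_eq_true]
  unfold fin
  by_cases h1 : viol m (ν + 1) L = true
  · have h2 := inf_of_viol hm H hL hpar h1
    rw [h1]
    simp [h2]
  · have h1' : viol m (ν + 1) L = false := by simpa using h1
    have hv := nv_of_viol hm H hL hpar h1'
    rw [h1', Bool.not_false, Bool.true_and]
    by_cases h2 : (Qs m (ν + 1) L).length ≤ ν + 1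
    · have h3 := feas_of_few hm H hpar hv h2
      simp [h2, h3]
    · have hQ : ν + 1 < (Qs m (ν + 1) L).length := not_le.1 h2
      have hν0 : 0 < ν := by
        by_contra h3
        have h4 : ν = 0 := by omega
        have h5 := hν h4
        have h6 : 1 < (Qs m (ν + 1) L).length := by omega
        have hnd := Qs_nodup m (ν + 1) L
        have h7 := Qs_inj hpar (List.getElem_mem (by omega : 0 < (Qs m (ν + 1) L).length))
          (List.getElem_mem h6) (h5 _ _)
        have h8 := (List.Nodup.getElem_inj_iff hnd).1 h7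
        exact absurd h8 (by norm_num)
      have h3 := sts_end hm H hpar hL hL' hQ hv hν0
      rw [← h3]
      simp [h2]

include hm in
/-- **The answer is correct.** -/
theorem core {pos : Fin m → Fin N} {c : Fin m → ℝ} (H : Cheb A V pos c)
    (hL : Tr A b L (K0 m (ν + 1))) (hL' : Tr A b L' (K1 m (ν + 1) L)) :
    fin m (ν + 1) L (sts A b L L' (itN m (ν + 1))) = true ↔
      ∃ x : Fin (ν + 1) → ℝ, ∀ i, b i ≤ A i ⬝ᵥ x := by
  have H' : Cheb (aN hm A) V (fun i => pos (ex m hm i)) (fun i => c (ex m hm i)) :=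
    ⟨H.hN, H.hV, fun i j h => H.mono (ex_mono hm h), fun i => H.hc _, fun i => H.ha _⟩
  rcases Nat.eq_zero_or_pos ν with h0 | h0
  · subst h0
    have hne : ∀ i, aN hm A i 0 ≠ 0 := by
      intro i
      obtain ⟨e, he⟩ := V_ne H'.hN H'.hV (pos (ex m hm i))
      have h1 : e = 0 := Fin.fin_one_eq_zero e
      rw [h1] at he
      rw [H'.ha i]
      exact mul_ne_zero (H'.hc i) he
    have H'' : Cheb (N := 1) (aN hm A) (fun _ _ => 1) (fun _ => 0) (fun i => aN hm A i 0) := by
      refine ⟨le_rfl, ⟨1, fun f _ => ?_⟩, fun _ _ _ => le_rfl, hne, fun i => ?_⟩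
      · unfold dt
        rw [Matrix.det_fin_one]
        simp
      · funext e
        have h1 : e = 0 := Fin.fin_one_eq_zero e
        rw [h1]
        simp
    refine core_aux hm H'' (fun i hi j hj => ⟨fun _ => rfl, fun h => ?_⟩) hL hL' fun _ _ _ => rfl
    exact par_of_eq hm H'' hL hi hj h
  · exact core_aux hm H' (parOK hm H' hL h0) hL hL' (fun h => absurd h h0.ne')

end Pool.Agent.L7h61.CH
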