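import Pool.Agent.W920.FC.Stm

set_option autoImplicit false

/-!
# Linear feasibility for Chebyshev systems: the algorithm

All tests are signs of minors of `[A | -b]`. A minor is described by its key, the list of its rows
and columns.

1. Equality of the classes of parallel rows (`par`), violated pairs of opposite parallel rows
   (`viol`), the strongest constraint in every direction (`best`).
2. The relative signs of the factors of the rows (`rls`).
3. The exchange algorithm (`upd`). Its state consists of the number `k` of the next constraint, a
   list `T` of at most `n - 1` constraints of alternating directions, the last touch, and a bit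
   which says that the system is infeasible.
-/

namespace Pool.Agent.L7h61.CH

open Pool.Agent.NPC Pool.Agent.H558R2 Pool.Agent.H622R3.SM Pool.Agent.W920.FC

/-- Rows and columns of a minor; the column number `n` is the right-hand side. -/
abbrev Key : Type := List (ℕ × ℕ)

/-- The bits which describe the columns of the bordered minor. -/
def enc (m n : ℕ) (R : Key) : List Outcome :=
  (List.range m).flatMap fun r => (List.range (m + (n + n))).map fun k =>
    some (if k < m then decide (k = r) && R.all (fun x => decide (x.1 ≠ r))
      else R.any (fun x => decide (x.1 = r) && decide (m + n + x.2 = k)))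

/-- The query for the sign of a minor. -/
def mq (m n : ℕ) (R : Key) : Qry := (minorProg m n (enc m n R) 0, [11])

/-- A table of signs. -/
abbrev Tab : Type := List (Key × Outcome)

/-- The sign with the key `R`. -/
def sg (L : Tab) (R : Key) : Outcome :=
  (((L.filter fun x => decide (x.1 = R)).head?).map fun x => x.2).getD none

/-- Asking for the signs of some minors. -/
def ask (m n : ℕ) (ks : List Key) : TT Tab :=
  bnd (batch (ks.map (mq m n))) fun o => ret (ks.zipIdx.map fun p => (p.1, o.getD p.2 none))

/-- The product of the signs is negative. -/
def ng (x y : Outcome) : Bool := decide (x ≠ none) && (decide (y ≠ none) && decide (x ≠ y))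

/-- The product of the signs is positive. -/
def ps (x y : Outcome) : Bool := decide (x ≠ none) && decide (x = y)

/-! ### Phase 1 -/

/-- The keys of phase 1. -/
def K0 (m n : ℕ) : List Key :=
  (List.range m).flatMap fun i => (List.range n).flatMap fun c => [(i, c)] ::
    (List.range m).flatMap fun j => (List.range (n + 1)).map fun c' => [(i, c), (j, c')]

/-- The first column with a nonzero entry in the row `i`. -/
def col (n : ℕ) (L : Tab) (i : ℕ) : ℕ :=
  (((List.range n).filter fun c => decide (sg L [(i, c)] ≠ none)).head?).getD 0

/-- The rows `i`, `j` are parallel. -/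
def par (n : ℕ) (L : Tab) (i j : ℕ) : Bool :=
  decide (i = j) || (List.range n).all fun c => (List.range n).all fun c' =>
    decide (sg L [(i, c), (j, c')] = none)

/-- The parallel rows `i`, `j` have opposite directions. -/
def opd (n : ℕ) (L : Tab) (i j : ℕ) : Bool := ng (sg L [(i, col n L i)]) (sg L [(j, col n L i)])

/-- The parallel rows `i`, `j` have the same direction. -/
def smd (n : ℕ) (L : Tab) (i j : ℕ) : Bool := ps (sg L [(i, col n L i)]) (sg L [(j, col n L i)])

/-- The constraint `j` is violated where the parallel constraint `i` is tight. -/
def cmp (n : ℕ) (L : Tab) (i j : ℕ) : Bool :=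
  ng (sg L [(i, col n L i)]) (sg L [(i, col n L i), (j, n)])

/-- There is a violated pair of opposite parallel constraints. -/
def viol (m n : ℕ) (L : Tab) : Bool :=
  (List.range m).any fun i => (List.range m).any fun j =>
    decide (i ≠ j) && (par n L i j && (opd n L i j && cmp n L i j))

/-- The first rows of the classes of parallel rows. -/
def Qs (m n : ℕ) (L : Tab) : List ℕ :=
  (List.range m).filter fun i => (List.range m).all fun j => decide (i ≤ j) || !(par n L j i)

/-- The strongest constraint of the direction of `k`. -/
def best (m n : ℕ) (L : Tab) (k : ℕ) : ℕ :=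
  (((List.range m).filter fun j => decide (j = k ∨ (par n L k j = true ∧ smd n L k j = true)) &&
    (List.range m).all fun l => !(decide (l ≠ j) && (par n L j l && (smd n L j l && cmp n L j l)))).head?).getD k

/-! ### Phase 2 -/

/-- The key of the determinant of the rows `p`, `T`. -/
def dK (p : ℕ) (T : List ℕ) : Key := (p :: T).zipIdx

/-- The key of the determinant of the rows `q`, `p`, `T` with the right-hand side. -/
def vK (n q p : ℕ) (T : List ℕ) : Key := (q, n) :: dK p T

/-- Rows of different classes, not parallel to the rows `0`, `i`. -/
def Rs (m n : ℕ) (L : Tab) (i : ℕ) : List ℕ :=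
  (((Qs m n L).filter fun r => decide (r ≠ 0) && !(par n L r i)).zipIdx.filter
    fun x => decide (x.2 + 1 < n)).map fun x => x.1

/-- The keys of phase 2. -/
def K1 (m n : ℕ) (L : Tab) : List Key :=
  (List.range m).flatMap fun i => [dK i (Rs m n L i), dK 0 (Rs m n L i)]

/-- The factors of the rows `0` and `i` have the same sign. -/
def rls (m n : ℕ) (L L' : Tab) (i : ℕ) : Bool :=
  decide (ps (sg L' (dK i (Rs m n L i))) (sg L' (dK 0 (Rs m n L i))) =
    decide (((Rs m n L i).filter fun r => decide (r < i)).length % 2 = 0))

/-! ### Phase 3 -/

/-- The keys of a step. -/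
def K2 (m n : ℕ) (T : List ℕ) : List Key :=
  (List.range m).flatMap fun p => dK p T :: (List.range m).map fun q => vK n q p T

/-- The state: the next constraint, the touches, the last touch, infeasibility. -/
abbrev St : Type := ℕ × (List ℕ × (List ℕ × Bool))

/-- The last element. -/
def lastT (T : List ℕ) : ℕ := T.getD (T.length - 1) 0

/-- The constraint `k` is not parallel to the last element of `T`, and has the opposite type. -/
def opq (m n : ℕ) (L L' : Tab) (T : List ℕ) (k : ℕ) : Bool :=
  !(par n L (lastT T) k) && decide (rls m n L L' (lastT T) ≠ rls m n L L' k)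

/-- The constraint `q` is violated at the vertex of `p`, `T`. -/
def neg (n : ℕ) (M : Tab) (T : List ℕ) (p q : ℕ) : Bool := ng (sg M (vK n q p T)) (sg M (dK p T))

/-- Moving on the line of `T` towards `k`, the constraint `p` is reached first, before `k`. -/
def blk (m n : ℕ) (M : Tab) (T : List ℕ) (k p : ℕ) : Bool :=
  decide (p < k) && (!(decide (p ∈ T)) && (ng (sg M (dK p T)) (sg M (dK k T)) &&
    (neg n M T p k && (List.range m).all fun q =>
      decide (k ≤ q) || (decide (q ∈ p :: T) || !(neg n M T p q)))))

/-- Replacing the predecessor of `p` by `p`. -/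
def repl (T : List ℕ) (p : ℕ) : List ℕ :=
  T.zipIdx.map fun x =>
    if x.2 + 1 = (T.filter fun t => decide (t < p)).length then p else x.1

/-- The exchange step. -/
def down (m n : ℕ) (M : Tab) (k : ℕ) (T : List ℕ) : St :=
  ((((List.range m).filter fun p => blk m n M T k p).head?).map fun p =>
    if (T.filter fun t => decide (t < p)).length = 0 then (k, (T, (([] : List ℕ), true)))
    else (k, (repl T p, (([] : List ℕ), false)))).getD (k + 1, (T, ([k], false)))

/-- One step of the exchange algorithm. -/
def upd (m n : ℕ) (L L' M : Tab) (s : St) : St :=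
  if s.2.2.2 = true ∨ m ≤ s.1 then s
  else if s.2.1.length + 1 < n then
    if s.2.1 = [] ∨ opq m n L L' s.2.1 s.1 = true then
      (s.1 + 1, (s.2.1 ++ [best m n L s.1], ([], false)))
    else (s.1 + 1, (s.2.1, ([], false)))
  else if s.2.2.1 = [] then
    if opq m n L L' s.2.1 s.1 = true then down m n M s.1 s.2.1
    else (s.1 + 1, (s.2.1, ([], false)))
  else if neg n M s.2.1 (s.2.2.1.getD 0 0) s.1 = true then
    if rls m n L L' (s.2.2.1.getD 0 0) = rls m n L L' s.1 then (s.1, (s.2.1, ([], false)))
    else (s.1, (s.2.1, (s.2.2.1, true)))
  else (s.1 + 1, (s.2.1, (s.2.2.1, false)))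

/-- One step, with its queries. -/
def stp (m n : ℕ) (L L' : Tab) (s : St) : TT St :=
  bnd (ask m n (K2 m n s.2.1)) fun M => ret (upd m n L L' M s)

/-- The number of steps. -/
def itN (m n : ℕ) : ℕ := m * n + (m + m) + 2

/-- The answer. -/
def fin (m n : ℕ) (L : Tab) (s : St) : Bool :=
  !(viol m n L) && (decide ((Qs m n L).length ≤ n) || !s.2.2.2)

/-- The initial state. -/
def s0 : St := (0, ([], ([], false)))

/-- The computation. -/
def TA (m n : ℕ) : TT Bool :=
  bnd (ask m n (K0 m n)) fun L => bnd (ask m n (K1 m n L)) fun L' =>
    bnd (iter (stp m n L L') (itN m n) s0) fun s => ret (fin m n L s)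

/-- The algorithm. -/
def alg : Alg := algOf TA

end Pool.Agent.L7h61.CH
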