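import Pool.Agent.L7h61.CH.Defs
import Pool.Agent.H622R3.SM.T_PM
import Pool.Agent.W920.FC.T_OUT
import Pool.Agent.W920.FC.T_PT
import Pool.Agent.W920.FC.T_PTITER
import Pool.Agent.H671R2.PolyAuto

set_option autoImplicit false

/-!
# Chebyshev systems: the control is computed in polynomial time
-/

namespace Pool.Agent.L7h61.CH

open Pool.Agent.NPC Pool.Agent.H558R2 Pool.Agent.H622R3.SM Pool.Agent.W920.FC

section

variable {α : Type} [TEnc α]

attribute [local fun_prop] TPM.pInstr Poly.range_length

theorem pCols {U V : α → List Unit} (hU : Poly U) (hV : Poly V) :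
    Poly (fun a => List.range ((U a).length + ((V a).length + (V a).length))) := by
  have h1 : Poly (fun a => List.range (U a ++ (V a ++ V a)).length) := by fun_prop
  exact h1.congr fun a => by simp only [List.length_append]

theorem pEnc {U V : α → List Unit} {R : α → Key} (hU : Poly U) (hV : Poly V) (hR : Poly R) :
    Poly (fun a => enc (U a).length (V a).length (R a)) := by
  unfold enc
  have h := pCols hU hV
  obtain ⟨C, hC⟩ : ∃ C : α → List ℕ,
      C = fun a => List.range ((U a).length + ((V a).length + (V a).length)) := ⟨_, rfl⟩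
  rw [← hC] at h
  have e : ∀ a, List.range ((U a).length + ((V a).length + (V a).length)) = C a :=
    fun a => by rw [hC]
  simp only [e]
  fun_prop

theorem pMq {U V : α → List Unit} {R : α → Key} (hU : Poly U) (hV : Poly V) (hR : Poly R) :
    Poly (fun a => mq (U a).length (V a).length (R a)) := by
  unfold mq
  exact Pool.Agent.NPC.Poly.pair (TPM.pMinorProg hU hV (pEnc hU hV hR)
    (Pool.Agent.NPC.Poly.const 0)) (Pool.Agent.NPC.Poly.const _)

theorem pSg {L : α → Tab} {R : α → Key} (hL : Poly L) (hR : Poly R) :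
    Poly (fun a => sg (L a) (R a)) := by
  unfold sg
  fun_prop

theorem pNg {x y : α → Outcome} (hx : Poly x) (hy : Poly y) :
    Poly (fun a => ng (x a) (y a)) := by
  unfold ng
  fun_prop

theorem pPs {x y : α → Outcome} (hx : Poly x) (hy : Poly y) :
    Poly (fun a => ps (x a) (y a)) := by
  unfold ps
  fun_prop

theorem pK0 {U V : α → List Unit} (hU : Poly U) (hV : Poly V) :
    Poly (fun a => K0 (U a).length (V a).length) := by
  unfold K0
  have h1 : Poly (fun a => List.range ((V a).length + 1)) := by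
    have h2 : Poly (fun a => List.range (() :: V a).length) := by fun_prop
    exact h2.congr fun a => by simp only [List.length_cons]
  obtain ⟨C, hC⟩ : ∃ C : α → List ℕ, C = fun a => List.range ((V a).length + 1) := ⟨_, rfl⟩
  rw [← hC] at h1
  have e : ∀ a, List.range ((V a).length + 1) = C a := fun a => by rw [hC]
  simp only [e]
  fun_prop

attribute [local fun_prop] pSg pNg pPs

theorem pCol {V : α → List Unit} {L : α → Tab} {i : α → ℕ} (hV : Poly V) (hL : Poly L)
    (hi : Poly i) : Poly (fun a => col (V a).length (L a) (i a)) := by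
  unfold col
  fun_prop

theorem pPar {V : α → List Unit} {L : α → Tab} {i j : α → ℕ} (hV : Poly V) (hL : Poly L)
    (hi : Poly i) (hj : Poly j) : Poly (fun a => par (V a).length (L a) (i a) (j a)) := by
  unfold par
  fun_prop

theorem pOpd {V : α → List Unit} {L : α → Tab} {i j : α → ℕ} (hV : Poly V) (hL : Poly L)
    (hi : Poly i) (hj : Poly j) : Poly (fun a => opd (V a).length (L a) (i a) (j a)) := by
  have h := pCol hV hL hi
  unfold opd
  fun_prop

theorem pSmd {V : α → List Unit} {L : α → Tab} {i j : α → ℕ} (hV : Poly V) (hL : Poly L)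
    (hi : Poly i) (hj : Poly j) : Poly (fun a => smd (V a).length (L a) (i a) (j a)) := by
  have h := pCol hV hL hi
  unfold smd
  fun_prop

theorem pCmp {V : α → List Unit} {L : α → Tab} {i j : α → ℕ} (hV : Poly V) (hL : Poly L)
    (hi : Poly i) (hj : Poly j) : Poly (fun a => cmp (V a).length (L a) (i a) (j a)) := by
  have h := pCol hV hL hi
  unfold cmp
  fun_prop

attribute [local fun_prop] pPar pOpd pSmd pCmp

theorem pViol {U V : α → List Unit} {L : α → Tab} (hU : Poly U) (hV : Poly V) (hL : Poly L) :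
    Poly (fun a => viol (U a).length (V a).length (L a)) := by
  unfold viol
  fun_prop

theorem pQs {U V : α → List Unit} {L : α → Tab} (hU : Poly U) (hV : Poly V) (hL : Poly L) :
    Poly (fun a => Qs (U a).length (V a).length (L a)) := by
  unfold Qs
  fun_prop

theorem pBest {U V : α → List Unit} {L : α → Tab} {k : α → ℕ} (hU : Poly U) (hV : Poly V)
    (hL : Poly L) (hk : Poly k) : Poly (fun a => best (U a).length (V a).length (L a) (k a)) := by
  unfold best
  fun_prop

theorem pDK {p : α → ℕ} {T : α → List ℕ} (hp : Poly p) (hT : Poly T) :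
    Poly (fun a => dK (p a) (T a)) := by
  unfold dK
  fun_prop

theorem pVK {n q p : α → ℕ} {T : α → List ℕ} (hn : Poly n) (hq : Poly q) (hp : Poly p)
    (hT : Poly T) : Poly (fun a => vK (n a) (q a) (p a) (T a)) := by
  unfold vK dK
  fun_prop

attribute [local fun_prop] pDK pVK

theorem pRs {U V : α → List Unit} {L : α → Tab} {i : α → ℕ} (hU : Poly U) (hV : Poly V)
    (hL : Poly L) (hi : Poly i) : Poly (fun a => Rs (U a).length (V a).length (L a) (i a)) := by
  have h := pQs hU hV hL
  unfold Rs
  fun_prop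

theorem pK1 {U V : α → List Unit} {L : α → Tab} (hU : Poly U) (hV : Poly V)
    (hL : Poly L) : Poly (fun a => K1 (U a).length (V a).length (L a)) := by
  unfold K1
  refine Poly.flatMap (Poly.range_length hU) ?_
  have h := pRs (α := α × ℕ) (U := fun p => U p.1) (V := fun p => V p.1) (L := fun p => L p.1)
    (i := fun p => p.2) (by fun_prop) (by fun_prop) (by fun_prop) (by fun_prop)
  fun_prop

theorem pRls {U V : α → List Unit} {L L' : α → Tab} {i : α → ℕ} (hU : Poly U) (hV : Poly V)
    (hL : Poly L) (hL' : Poly L') (hi : Poly i) :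
    Poly (fun a => rls (U a).length (V a).length (L a) (L' a) (i a)) := by
  have h := pRs hU hV hL hi
  unfold rls
  fun_prop

theorem pK2 {U V : α → List Unit} {T : α → List ℕ} (hU : Poly U) (hV : Poly V)
    (hT : Poly T) : Poly (fun a => K2 (U a).length (V a).length (T a)) := by
  unfold K2
  fun_prop

theorem pLast {T : α → List ℕ} (hT : Poly T) : Poly (fun a => lastT (T a)) := by
  unfold lastT
  fun_prop

theorem pOpq {U V : α → List Unit} {L L' : α → Tab} {T : α → List ℕ} {k : α → ℕ} (hU : Poly U)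
    (hV : Poly V) (hL : Poly L) (hL' : Poly L') (hT : Poly T) (hk : Poly k) :
    Poly (fun a => opq (U a).length (V a).length (L a) (L' a) (T a) (k a)) := by
  have h1 := pLast hT
  have h2 := pRls hU hV hL hL' h1
  have h3 := pRls hU hV hL hL' hk
  unfold opq
  fun_prop

theorem pNeg {n p q : α → ℕ} {M : α → Tab} {T : α → List ℕ} (hn : Poly n) (hM : Poly M)
    (hT : Poly T) (hp : Poly p) (hq : Poly q) :
    Poly (fun a => neg (n a) (M a) (T a) (p a) (q a)) := by
  unfold neg
  fun_prop

attribute [local fun_prop] pNeg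

theorem pBlk {U V : α → List Unit} {M : α → Tab} {T : α → List ℕ} {k p : α → ℕ} (hU : Poly U)
    (hV : Poly V) (hM : Poly M) (hT : Poly T) (hk : Poly k) (hp : Poly p) :
    Poly (fun a => blk (U a).length (V a).length (M a) (T a) (k a) (p a)) := by
  unfold blk
  fun_prop

theorem pRepl {T : α → List ℕ} {p : α → ℕ} (hT : Poly T) (hp : Poly p) :
    Poly (fun a => repl (T a) (p a)) := by
  unfold repl
  fun_prop

attribute [local fun_prop] pBlk pRepl

theorem pDown {U V : α → List Unit} {M : α → Tab} {T : α → List ℕ} {k : α → ℕ} (hU : Poly U)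
    (hV : Poly V) (hM : Poly M) (hT : Poly T) (hk : Poly k) :
    Poly (fun a => down (U a).length (V a).length (M a) (k a) (T a)) := by
  unfold down
  fun_prop

theorem pUpd {U V : α → List Unit} {L L' M : α → Tab} {s : α → St} (hU : Poly U) (hV : Poly V)
    (hL : Poly L) (hL' : Poly L') (hM : Poly M) (hs : Poly s) :
    Poly (fun a => upd (U a).length (V a).length (L a) (L' a) (M a) (s a)) := by
  have h1 := pOpq (T := fun a => (s a).2.1) (k := fun a => (s a).1) hU hV hL hL' (by fun_prop)
    (by fun_prop)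
  have h2 := pDown (T := fun a => (s a).2.1) (k := fun a => (s a).1) hU hV hM (by fun_prop)
    (by fun_prop)
  have h3 := pRls (i := fun a => (s a).2.2.1.getD 0 0) hU hV hL hL' (by fun_prop)
  have h4 := pRls (i := fun a => (s a).1) hU hV hL hL' (by fun_prop)
  have h5 := pBest (k := fun a => (s a).1) hU hV hL (by fun_prop)
  unfold upd
  fun_prop

theorem pFin {U V : α → List Unit} {L : α → Tab} {s : α → St} (hU : Poly U) (hV : Poly V)
    (hL : Poly L) (hs : Poly s) : Poly (fun a => fin (U a).length (V a).length (L a) (s a)) := by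
  have h1 := pViol hU hV hL
  have h2 := pQs hU hV hL
  unfold fin
  fun_prop

end

/-- A bound for the states. -/
def Bnd (m n : ℕ) (s : St) : Prop :=
  s.1 ≤ m ∧ s.2.1.length ≤ n ∧ (∀ t ∈ s.2.1, t ≤ m) ∧ s.2.2.1.length ≤ 1 ∧ ∀ t ∈ s.2.2.1, t ≤ m

theorem head_filter_lt {m : ℕ} {p : ℕ → Bool} {x : ℕ}
    (h : ((List.range m).filter p).head? = some x) : x < m := by
  have h1 := List.mem_of_mem_head? h
  exact List.mem_range.1 (List.mem_filter.1 h1).1

theorem best_le {m n : ℕ} (L : Tab) (k : ℕ) (hk : k ≤ m) : best m n L k ≤ m := by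
  unfold best
  cases h : ((List.range m).filter fun j =>
    decide (j = k ∨ (par n L k j = true ∧ smd n L k j = true)) &&
    (List.range m).all fun l => !(decide (l ≠ j) && (par n L j l && (smd n L j l && cmp n L j l)))).head?
    with
  | none => exact hk
  | some x => exact (head_filter_lt h).le

theorem repl_length (T : List ℕ) (p : ℕ) : (repl T p).length = T.length := by
  unfold repl
  simp

theorem repl_mem {T : List ℕ} {p t : ℕ} (h : t ∈ repl T p) : t = p ∨ t ∈ T := by
  unfold repl at h
  rw [List.mem_map] at h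
  obtain ⟨x, hx, hx2⟩ := h
  split_ifs at hx2 with h1
  · exact Or.inl hx2.symm
  · right
    rw [← hx2]
    exact List.fst_mem_of_mem_zipIdx hx

theorem down_bnd {m n : ℕ} (M : Tab) (k : ℕ) (T : List ℕ) (hk : k < m) (h1 : T.length ≤ n)
    (h2 : ∀ t ∈ T, t ≤ m) : Bnd m n (down m n M k T) := by
  unfold down
  cases h : ((List.range m).filter fun p => blk m n M T k p).head? with
  | none => exact ⟨hk, h1, h2, le_rfl, by simp; omega⟩
  | some p =>
    have hp := head_filter_lt h
    simp only [Option.map_some, Option.getD_some]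
    split_ifs with h3
    · exact ⟨hk.le, h1, h2, by simp, by simp⟩
    · refine ⟨hk.le, (repl_length T p).le.trans h1, fun t ht => ?_, by simp, by simp⟩
      rcases repl_mem ht with h4 | h4
      · rw [h4]; exact hp.le
      · exact h2 t h4

theorem upd_bnd {m n : ℕ} (L L' M : Tab) (s : St) (h : Bnd m n s) :
    Bnd m n (upd m n L L' M s) := by
  unfold upd
  obtain ⟨h1, h2, h3, h4, h5⟩ := h
  split_ifs with c1 c2 c3 c4 c5 c6 c7
  · exact ⟨h1, h2, h3, h4, h5⟩
  · push Not at c1
    refine ⟨c1.2, by simp only [List.length_append, List.length_singleton]; omega, fun t ht => ?_,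
      by simp, by simp⟩
    rcases List.mem_append.1 ht with h6 | h6
    · exact h3 t h6
    · rw [List.mem_singleton] at h6
      rw [h6]
      exact best_le L _ h1
  · push Not at c1
    exact ⟨c1.2, h2, h3, by simp, by simp⟩
  · push Not at c1
    exact down_bnd M _ _ c1.2 h2 h3
  · push Not at c1
    exact ⟨c1.2, h2, h3, by simp, by simp⟩
  · exact ⟨h1, h2, h3, by simp, by simp⟩
  · exact ⟨h1, h2, h3, h4, h5⟩
  · push Not at c1
    exact ⟨c1.2, h2, h3, h4, h5⟩

theorem sz_of_bnd {m n : ℕ} (s : St) (h : Bnd m n s) :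
    sz s ≤ (4 * m + 1) + (n * (4 * m + 2) + 1) + (4 * m + 3) + 6 := by
  obtain ⟨h1, h2, h3, h4, h5⟩ := h
  have hnat : ∀ t ≤ m, sz t ≤ 4 * m + 1 := by
    intro t ht
    have e1 := sz_nat_le t
    have e2 : t.size ≤ t := Nat.size_le.2 Nat.lt_two_pow_self
    omega
  have e1 := hnat _ h1
  have e2 := sz_le_length_mul s.2.1 (4 * m + 1) (fun t ht => hnat t (h3 t ht))
  have e3 := sz_le_length_mul s.2.2.1 (4 * m + 1) (fun t ht => hnat t (h5 t ht))
  have e4 := sz_bool_le s.2.2.2
  have e5 : sz s = sz s.1 + (sz s.2.1 + (sz s.2.2.1 + sz s.2.2.2 + 1) + 1) + 1 := by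
    obtain ⟨s1, s2, s3, s4⟩ := s
    simp
  have e6 : s.2.1.length * (4 * m + 2) ≤ n * (4 * m + 2) := Nat.mul_le_mul_right _ h2
  have e7 : s.2.2.1.length * (4 * m + 2) ≤ 1 * (4 * m + 2) := Nat.mul_le_mul_right _ h4
  have e8 : s.2.1.length * (4 * m + 1 + 1) = s.2.1.length * (4 * m + 2) := rfl
  have e9 : s.2.2.1.length * (4 * m + 1 + 1) = s.2.2.1.length * (4 * m + 2) := rfl
  omega

section

variable {α : Type} [TEnc α]

theorem ptAsk (hPT : S_PT) {U V : α → List Unit} {ks : α → List Key} (hU : Poly U) (hV : Poly V)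
    (hk : Poly ks) : PT (fun a => ask (U a).length (V a).length (ks a)) := by
  obtain ⟨pt1, pt2, pt3⟩ := hPT
  have h1 : Poly (fun a => (ks a).map (mq (U a).length (V a).length)) := by
    refine Pool.Agent.NPC.Poly.map (F := fun a R => mq (U a).length (V a).length R) hk ?_
    exact pMq (U := fun p : α × Key => U p.1) (V := fun p => V p.1) (R := fun p => p.2)
      (by fun_prop) (by fun_prop) (by fun_prop)
  have h2 : Poly (fun p : α × List Outcome =>
      ((ks p.1).zipIdx.map fun x => (x.1, p.2.getD x.2 none) : Tab)) := by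
    fun_prop
  exact pt2 α (List Outcome) Tab _ (fun a o => ret ((ks a).zipIdx.map fun x => (x.1, o.getD x.2 none)))
    (pt3 α _ h1) (pt1 (α × List Outcome) Tab _ h2)

theorem ptStp (hPT : S_PT) {U V : α → List Unit} {L L' : α → Tab} {s : α → St} (hU : Poly U)
    (hV : Poly V) (hL : Poly L) (hL' : Poly L') (hs : Poly s) :
    PT (fun a => stp (U a).length (V a).length (L a) (L' a) (s a)) := by
  obtain ⟨pt1, pt2, pt3⟩ := id hPT
  refine pt2 α Tab St _ (fun a M => ret (upd (U a).length (V a).length (L a) (L' a) M (s a)))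
    (ptAsk hPT hU hV (pK2 hU hV (by fun_prop))) (pt1 (α × Tab) St _ ?_)
  exact pUpd (U := fun p : α × Tab => U p.1) (V := fun p => V p.1) (L := fun p => L p.1)
    (L' := fun p => L' p.1) (M := fun p => p.2) (s := fun p => s p.1) (by fun_prop) (by fun_prop)
    (by fun_prop) (by fun_prop) (by fun_prop) (by fun_prop)

end

theorem shrAsk (hO : S_OUT) (m n : ℕ) (ks : List Key) : Shr (ask m n ks) := by
  obtain ⟨-, -, -, shr1, shr2, shr3, shr4⟩ := hO
  unfold ask
  exact shr2 _ _ _ _ (shr3 _) fun o => shr1 _ _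

theorem out_iter (hO : S_OUT) (m n : ℕ) (L L' : Tab) :
    ∀ (i : ℕ) (s : St), Out (iter (stp m n L L') i s0) s → Bnd m n s := by
  obtain ⟨o1, o2, o3, -⟩ := hO
  intro i
  induction i with
  | zero =>
    intro s h
    have hs : s = s0 := o1 _ _ _ h
    rw [hs]
    exact ⟨by simp [s0], by simp [s0], by simp [s0], by simp [s0], by simp [s0]⟩
  | succ i ih =>
    intro s h
    obtain ⟨b, hb1, hb2⟩ := o3 _ _ _ _ _ h
    have i1 := ih b hb1
    unfold stp at hb2
    obtain ⟨M, hM, h3⟩ := o2 _ _ _ _ _ hb2
    have h5 := o1 _ _ _ h3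
    rw [h5]
    exact upd_bnd L L' M b i1

/-- The input of the iteration. -/
abbrev In3 : Type := (List Unit × List Unit) × (Tab × Tab)

/-- Phase 3. -/
def run3 (a : In3) : TT Bool :=
  bnd (iter (stp a.1.1.length a.1.2.length a.2.1 a.2.2)
      (itN a.1.1.length a.1.2.length) s0) fun s => ret (fin a.1.1.length a.1.2.length a.2.1 s)

theorem ptComp {α β γ : Type} [TEnc α] [TEnc β] [TEnc γ] {T : β → TT γ} (h : PT T) {f : α → β}
    (hf : Poly f) : PT (fun a => T (f a)) := by
  unfold Pool.Agent.W920.FC.PT at h ⊢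
  exact h.comp (Pool.Agent.NPC.Poly.pair (hf.comp (Pool.Agent.NPC.Poly.fst Pool.Agent.NPC.Poly.id))
    (Pool.Agent.NPC.Poly.snd Pool.Agent.NPC.Poly.id))

theorem ptTA (hO : S_OUT) (hPT : S_PT) (hIT : S_PTITER) :
    PT (fun p : List Unit × List Unit => TA p.1.length p.2.length) := by
  obtain ⟨pt1, pt2, pt3⟩ := id hPT
  obtain ⟨-, -, -, shr1, shr2, shr3, shr4⟩ := id hO
  have hstp : PT (fun p : In3 × St => stp p.1.1.1.length p.1.1.2.length p.1.2.1 p.1.2.2 p.2) :=
    ptStp (U := fun p : In3 × St => p.1.1.1) (V := fun p => p.1.1.2) (L := fun p => p.1.2.1)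
      (L' := fun p => p.1.2.2) (s := fun p => p.2) hPT (by fun_prop) (by fun_prop) (by fun_prop)
      (by fun_prop) (by fun_prop)
  have hun : UPoly (fun a : In3 => itN a.1.1.length a.1.2.length) := by
    have hU : UPoly (fun a : In3 => a.1.1.length) := UPoly.length (by fun_prop)
    have hV : UPoly (fun a : In3 => a.1.2.length) := UPoly.length (by fun_prop)
    exact UPoly.add (UPoly.add (UPoly.mul hU hV) (UPoly.add hU hU)) (UPoly.const 2)
  have hiter : PT (fun a : In3 => iter (stp a.1.1.length a.1.2.length a.2.1 a.2.2)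
      (itN a.1.1.length a.1.2.length) s0) := by
    refine hIT In3 St (fun a s => stp a.1.1.length a.1.2.length a.2.1 a.2.2 s)
      (fun a => itN a.1.1.length a.1.2.length) (fun _ => s0) hstp hun
      (Pool.Agent.NPC.Poly.const _) ?_
      ⟨(4 * Polynomial.X + 1) + (Polynomial.X * (4 * Polynomial.X + 2) + 1) +
        (4 * Polynomial.X + 3) + 6, ?_⟩
    · intro a s
      exact shr2 _ _ _ _ (shrAsk hO _ _ _) fun b => shr1 _ _
    · intro a i s hi hout
      have h1 := out_iter hO _ _ _ _ i s hout
      have h2 := sz_of_bnd s h1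
      have e1 := length_lt_sz a.1.1
      have e2 := length_lt_sz a.1.2
      have e3 : sz a = (sz a.1.1 + sz a.1.2 + 1) + (sz a.2.1 + sz a.2.2 + 1) + 1 := by
        obtain ⟨⟨a1, a2⟩, a3, a4⟩ := a
        simp
      have e4 : a.1.1.length ≤ sz a := by omega
      have e5 : a.1.2.length ≤ sz a := by omega
      refine h2.trans ?_
      simp only [Polynomial.eval_add, Polynomial.eval_mul, Polynomial.eval_ofNat,
        Polynomial.eval_X, Polynomial.eval_one]
      gcongr
  have h3 : PT run3 :=
    pt2 In3 St Bool _ (fun a s => ret (fin a.1.1.length a.1.2.length a.2.1 s)) hiter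
      (pt1 (In3 × St) Bool _ (pFin (U := fun p : In3 × St => p.1.1.1) (V := fun p => p.1.1.2)
        (L := fun p => p.1.2.1) (s := fun p => p.2) (by fun_prop) (by fun_prop) (by fun_prop)
        (by fun_prop)))
  have h4 : PT (fun p : ((List Unit × List Unit) × Tab) × Tab => run3 (p.1.1, (p.1.2, p.2))) :=
    ptComp h3 (f := fun p : ((List Unit × List Unit) × Tab) × Tab => (p.1.1, (p.1.2, p.2)))
      (by fun_prop)
  have h5 : PT (fun p : (List Unit × List Unit) × Tab =>
      bnd (ask p.1.1.length p.1.2.length (K1 p.1.1.length p.1.2.length p.2)) fun L' =>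
        run3 (p.1, (p.2, L'))) :=
    pt2 ((List Unit × List Unit) × Tab) Tab Bool _ (fun p L' => run3 (p.1, (p.2, L')))
      (ptAsk (U := fun p : (List Unit × List Unit) × Tab => p.1.1) (V := fun p => p.1.2) hPT
        (by fun_prop) (by fun_prop) (pK1 (U := fun p : (List Unit × List Unit) × Tab => p.1.1)
          (V := fun p => p.1.2) (L := fun p => p.2) (by fun_prop) (by fun_prop) (by fun_prop))) h4
  exact pt2 (List Unit × List Unit) Tab Bool _
    (fun p L => bnd (ask p.1.length p.2.length (K1 p.1.length p.2.length L)) fun L' =>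
        run3 (p, (L, L')))
    (ptAsk (U := fun p : List Unit × List Unit => p.1) (V := fun p => p.2) hPT (by fun_prop)
      (by fun_prop) (pK0 (U := fun p : List Unit × List Unit => p.1) (V := fun p => p.2)
        (by fun_prop) (by fun_prop))) h5

end Pool.Agent.L7h61.CH
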