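import Pool.Agent.L7h61.CH.Core
import Pool.Agent.L7h61.CH.Ptime
import Pool.Agent.W920.FC.T_OUT
import Pool.Agent.W920.FC.T_PT
import Pool.Agent.W920.FC.T_PTITER
import Pool.Agent.W920.FC.T_RUN

set_option autoImplicit false

/-!
# Chebyshev systems: the main theorem
-/

namespace Pool.Agent.L7h61.CH

open Matrix
open Pool.Agent.NPC Pool.Agent.H558R2 Pool.Agent.H622R3.SM

/-- The algorithm `α` decides linear feasibility for the instances in the class `C` in strongly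
polynomial time. -/
def DecidesOn (C : ∀ m n : ℕ, Matrix (Fin m) (Fin n) ℝ → (Fin m → ℝ) → Prop) (α : Alg) : Prop :=
  ∃ p : Polynomial ℕ, ∀ m n : ℕ, 1 ≤ m → 1 ≤ n →
    ∀ (A : Matrix (Fin m) (Fin n) ℝ) (b : Fin m → ℝ), C m n A b → ∃ ans nums steps,
      run ∅ (α m n) (p.eval (m + n)) [] (start A b) = some (ans, nums, steps) ∧
      (ans = true ↔ ∃ x : Fin n → ℝ, b ≤ A.mulVec x) ∧ steps ≤ p.eval (m + n) ∧
      ∀ (A' : Matrix (Fin m) (Fin n) ℚ) (b' : Fin m → ℚ), (∀ i j, ((A' i j : ℚ) : ℝ) = A i j) →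
        (∀ i, ((b' i : ℚ) : ℝ) = b i) →
        ∀ v ∈ nums, ∃ q : ℚ, (q : ℝ) = v ∧ bitLength q ≤ p.eval (inputLength A' b')

/-- The class. -/
def ChebClass (m n : ℕ) (A : Matrix (Fin m) (Fin n) ℝ) : Prop :=
  ∃ (N : ℕ) (V : Matrix (Fin N) (Fin n) ℝ) (s : ℝ) (pos : Fin m → Fin N) (c : Fin m → ℝ),
    n ≤ N ∧ (∀ f : Fin n → Fin N, StrictMono f → 0 < s * (V.submatrix f id).det) ∧
    Monotone pos ∧ (∀ i, c i ≠ 0) ∧ ∀ i j, A i j = c i * V (pos i) j

/-- The bound for the cost. -/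
noncomputable def costP : Polynomial ℕ :=
  (Polynomial.X * (Polynomial.X * (Polynomial.X * (Polynomial.X + 1) + 1)) + Polynomial.X * 2 +
    (Polynomial.X * Polynomial.X + (Polynomial.X + Polynomial.X) + 2) *
      (Polynomial.X * (Polynomial.X + 1))) * (12 * Polynomial.X ^ 4 + 1)

theorem cost_le (m n : ℕ) : cost m n ≤ costP.eval (m + n) := by
  unfold cost itN costP
  have h1 : m ≤ m + n := Nat.le_add_right _ _
  have h2 : n ≤ m + n := Nat.le_add_left _ _
  simp only [Polynomial.eval_add, Polynomial.eval_mul, Polynomial.eval_X, Polynomial.eval_one,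
    Polynomial.eval_pow, Polynomial.eval_ofNat]
  gcongr

/-- **The main theorem.** -/
theorem main : PolyControl alg ∧ OracleFree alg ∧ DecidesOn (fun m n A _ => ChebClass m n A) alg := by
  obtain ⟨hBND, hBATCH, hITER, hMONO⟩ := Pool.Agent.W920.FC.t_TT
  obtain ⟨hOUT, hCTRL⟩ := Pool.Agent.W920.FC.t_OUT
  refine ⟨hCTRL TA (ptTA hOUT Pool.Agent.W920.FC.t_PT Pool.Agent.W920.FC.t_PTITER), ?_, ?_⟩
  · intro m n h w
    unfold alg Pool.Agent.W920.FC.algOf
    cases TA m n h <;> simp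
  · refine ⟨costP + 1 + 30 * Polynomial.X ^ 2, ?_⟩
    intro m n hm hn A b hC
    obtain ⟨ν, rfl⟩ : ∃ ν, n = ν + 1 := ⟨n - 1, by omega⟩
    obtain ⟨N, V, s, pos, c, hN, hV, hmono, hc, hA⟩ := hC
    have H : Cheb A V pos c := ⟨hN, ⟨s, hV⟩, hmono, hc, fun i => by
      funext j
      rw [hA i j]
      simp⟩
    have hr := ta_run (n := ν + 1) hBND hBATCH hITER hMONO t_EQ t_ORD t_SMALL t_LEN hm A b
    have hcore := core hm H (tr_tt A b (K0 m (ν + 1)))
      (tr_tt A b (K1 m (ν + 1) (tt A b (K0 m (ν + 1)))))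
    have hfuel : cost m (ν + 1) + 1 ≤ (costP + 1 + 30 * Polynomial.X ^ 2).eval (m + (ν + 1)) := by
      have := cost_le m (ν + 1)
      simp only [Polynomial.eval_add, Polynomial.eval_one]
      omega
    obtain ⟨nums, steps, hrun, hsteps, hG⟩ :=
      Pool.Agent.W920.FC.t_RUN TA m (ν + 1) _ _ _ _ hr ∅ _ hfuel
    refine ⟨_, nums, steps, hrun, ?_, by omega, ?_⟩
    · rw [hcore]
      rfl
    · intro A' b' hA' hb' v hv
      obtain ⟨q, hq1, hq2⟩ := hG v hv A' b' hA' hb'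
      refine ⟨q, hq1, hq2.trans ?_⟩
      simp only [Polynomial.eval_add, Polynomial.eval_mul, Polynomial.eval_pow,
        Polynomial.eval_X, Polynomial.eval_ofNat]
      omega

end Pool.Agent.L7h61.CH
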