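import Mathlib

set_option autoImplicit false

/-!
# Chebyshev systems of linear inequalities: linear algebra
-/

namespace Pool.Agent.L7h61.CH

open Matrix

variable {ν : ℕ} {ι : Type}

/-- The determinant of the rows `s`. -/
noncomputable def dt (a : ι → Fin (ν + 1) → ℝ) (s : Fin (ν + 1) → ι) : ℝ :=
  (Matrix.of fun i j => a (s i) j).det

/-- The determinant of the rows `f`, with the right-hand side as first column. -/
noncomputable def bd (a : ι → Fin (ν + 1) → ℝ) (b : ι → ℝ) (f : Fin (ν + 2) → ι) : ℝ :=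
  (Matrix.of fun i => (Fin.cons (b (f i)) (a (f i)) : Fin (ν + 2) → ℝ)).det

/-- The slack of the constraint `i` at `x`. -/
noncomputable def sl (a : ι → Fin (ν + 1) → ℝ) (b : ι → ℝ) (x : Fin (ν + 1) → ℝ) (i : ι) : ℝ :=
  a i ⬝ᵥ x - b i

theorem bd_eq (a : ι → Fin (ν + 1) → ℝ) (b : ι → ℝ) (f : Fin (ν + 2) → ι) :
    bd a b f = ∑ i : Fin (ν + 2), (-1) ^ (i : ℕ) * b (f i) * dt a (f ∘ i.succAbove) := by
  unfold bd
  rw [Matrix.det_succ_column_zero]
  refine Finset.sum_congr rfl fun i _ => ?_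
  rfl

theorem rel (a : ι → Fin (ν + 1) → ℝ) (f : Fin (ν + 2) → ι) (e : Fin (ν + 1)) :
    ∑ i : Fin (ν + 2), (-1) ^ (i : ℕ) * a (f i) e * dt a (f ∘ i.succAbove) = 0 := by
  rw [← bd_eq a (fun i => a i e) f]
  unfold bd
  exact Matrix.det_zero_of_column_eq (i := 0) (j := e.succ) (Fin.succ_ne_zero e).symm fun k => rfl

/-- The weighted sum of the slacks does not depend on `x`. -/
theorem sl_sum (a : ι → Fin (ν + 1) → ℝ) (b : ι → ℝ) (f : Fin (ν + 2) → ι)
    (x : Fin (ν + 1) → ℝ) :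
    ∑ i : Fin (ν + 2), (-1) ^ (i : ℕ) * sl a b x (f i) * dt a (f ∘ i.succAbove) = - bd a b f := by
  have h : ∑ i : Fin (ν + 2), (-1) ^ (i : ℕ) * (a (f i) ⬝ᵥ x) * dt a (f ∘ i.succAbove) = 0 := by
    simp only [dotProduct, Finset.mul_sum, Finset.sum_mul]
    rw [Finset.sum_comm]
    refine Finset.sum_eq_zero fun e _ => ?_
    have := rel a f e
    have h2 : ∑ i : Fin (ν + 2), (-1) ^ (i : ℕ) * (a (f i) e * x e) * dt a (f ∘ i.succAbove) =
        x e * ∑ i : Fin (ν + 2), (-1) ^ (i : ℕ) * a (f i) e * dt a (f ∘ i.succAbove) := by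
      rw [Finset.mul_sum]
      refine Finset.sum_congr rfl fun i _ => ?_
      ring
    rw [h2, this, mul_zero]
  rw [bd_eq]
  have h3 : ∀ i : Fin (ν + 2), (-1) ^ (i : ℕ) * sl a b x (f i) * dt a (f ∘ i.succAbove) =
      (-1) ^ (i : ℕ) * (a (f i) ⬝ᵥ x) * dt a (f ∘ i.succAbove) -
        (-1) ^ (i : ℕ) * b (f i) * dt a (f ∘ i.succAbove) := by
    intro i
    unfold sl
    ring
  rw [Finset.sum_congr rfl fun i _ => h3 i, Finset.sum_sub_distrib, h, zero_sub]

theorem cons_comp_zero (q : ι) (s : Fin (ν + 1) → ι) :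
    (Fin.cons q s : Fin (ν + 2) → ι) ∘ (0 : Fin (ν + 2)).succAbove = s := by
  funext i
  simp

/-- The slack of `q` at a point which is tight on `s`. -/
theorem sl_cons (a : ι → Fin (ν + 1) → ℝ) (b : ι → ℝ) (q : ι) (s : Fin (ν + 1) → ι)
    (x : Fin (ν + 1) → ℝ) (hx : ∀ j, sl a b x (s j) = 0) :
    sl a b x q * dt a s = - bd a b (Fin.cons q s) := by
  rw [← sl_sum a b (Fin.cons q s) x, Fin.sum_univ_succ, Finset.sum_eq_zero]
  · simp
  · intro i _
    simp [hx]

/-- On the line which is tight on `T`. -/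
theorem line (a : ι → Fin (ν + 1) → ℝ) (p k : ι) (T : Fin ν → ι)
    (d : Fin (ν + 1) → ℝ) (hd : ∀ j, a (T j) ⬝ᵥ d = 0) :
    (a p ⬝ᵥ d) * dt a (Fin.cons k T) = (a k ⬝ᵥ d) * dt a (Fin.cons p T) := by
  have h := sl_sum a (fun _ => 0) (Fin.cons p (Fin.cons k T) : Fin (ν + 2) → ι) d
  have h0 : bd a (fun _ => 0) (Fin.cons p (Fin.cons k T) : Fin (ν + 2) → ι) = 0 := by
    rw [bd_eq]
    simp
  rw [h0, neg_zero, Fin.sum_univ_succ, Fin.sum_univ_succ, Finset.sum_eq_zero, cons_comp_zero] at h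
  · have e : (Fin.cons p (Fin.cons k T) : Fin (ν + 2) → ι) ∘ (Fin.succ 0 : Fin (ν + 2)).succAbove =
        Fin.cons p T := by
      funext i
      refine Fin.cases ?_ (fun j => ?_) i
      · simp
      · simp
    rw [e] at h
    simp [sl] at h
    linarith
  · intro i _
    simp [sl, hd]

/-- The direction which is orthogonal to the rows `T`. -/
theorem exists_dir (a : ι → Fin (ν + 1) → ℝ) (T : Fin ν → ι) :
    ∃ d : Fin (ν + 1) → ℝ, (∀ j, a (T j) ⬝ᵥ d = 0) ∧ ∀ p, a p ⬝ᵥ d = dt a (Fin.cons p T) := by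
  have key : ∃ d : Fin (ν + 1) → ℝ, ∀ v : Fin (ν + 1) → ℝ,
      v ⬝ᵥ d = (Matrix.of (Fin.cons v (fun i => a (T i)) : Fin (ν + 1) → Fin (ν + 1) → ℝ)).det := by
    refine ⟨fun j => (-1) ^ (j : ℕ) * (Matrix.of fun (i : Fin ν) (l : Fin ν) =>
      a (T i) (j.succAbove l)).det, fun v => ?_⟩
    rw [Matrix.det_succ_row_zero]
    unfold dotProduct
    refine Finset.sum_congr rfl fun j _ => ?_
    have : (Matrix.of (Fin.cons v (fun i => a (T i)) : Fin (ν + 1) → Fin (ν + 1) → ℝ)).submatrix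
        Fin.succ j.succAbove = (Matrix.of fun (i : Fin ν) (l : Fin ν) => a (T i) (j.succAbove l)) := by
      ext i l
      simp
    rw [this]
    simp
    ring
  obtain ⟨d, hd⟩ := key
  refine ⟨d, fun j => ?_, fun p => ?_⟩
  · rw [hd]
    exact Matrix.det_zero_of_row_eq (i := 0) (j := j.succ) (Fin.succ_ne_zero j).symm (by
      funext l
      simp)
  · rw [hd]
    unfold dt
    congr 1
    ext i l
    refine Fin.cases ?_ (fun j => ?_) i <;> simp

/-- Solving the equations of the rows `s`. -/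
theorem exists_sol (a : ι → Fin (ν + 1) → ℝ) (s : Fin (ν + 1) → ι) (hs : dt a s ≠ 0)
    (y : Fin (ν + 1) → ℝ) : ∃ x : Fin (ν + 1) → ℝ, ∀ j, a (s j) ⬝ᵥ x = y j := by
  have hu : IsUnit (Matrix.of fun i j => a (s i) j).det := isUnit_iff_ne_zero.2 hs
  refine ⟨(Matrix.of fun i j => a (s i) j)⁻¹ *ᵥ y, fun j => ?_⟩
  have h : (Matrix.of fun i j => a (s i) j) *ᵥ ((Matrix.of fun i j => a (s i) j)⁻¹ *ᵥ y) = y := by
    rw [Matrix.mulVec_mulVec, Matrix.mul_nonsing_inv _ hu, Matrix.one_mulVec]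
  exact congrFun h j

/-- The vertex of the rows `s`. -/
theorem exists_vertex (a : ι → Fin (ν + 1) → ℝ) (b : ι → ℝ) (s : Fin (ν + 1) → ι)
    (hs : dt a s ≠ 0) : ∃ x : Fin (ν + 1) → ℝ, ∀ j, sl a b x (s j) = 0 := by
  obtain ⟨x, hx⟩ := exists_sol a s hs (fun j => b (s j))
  exact ⟨x, fun j => by unfold sl; rw [hx]; ring⟩

/-- The vertex is unique. -/
theorem vertex_unique (a : ι → Fin (ν + 1) → ℝ) (b : ι → ℝ) (s : Fin (ν + 1) → ι)
    (hs : dt a s ≠ 0) (x y : Fin (ν + 1) → ℝ) (hx : ∀ j, sl a b x (s j) = 0)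
    (hy : ∀ j, sl a b y (s j) = 0) (q : ι) : sl a b x q = sl a b y q := by
  have h1 := sl_cons a b q s x hx
  have h2 := sl_cons a b q s y hy
  exact mul_right_cancel₀ hs (h1.trans h2.symm)

/-- Moving on a line. -/
theorem sl_move (a : ι → Fin (ν + 1) → ℝ) (b : ι → ℝ) (x d : Fin (ν + 1) → ℝ) (t : ℝ) (q : ι) :
    sl a b (x + t • d) q = sl a b x q + t * (a q ⬝ᵥ d) := by
  unfold sl
  rw [dotProduct_add, dotProduct_smul, smul_eq_mul]
  ring

/-- **The blocking lemma.** Moving on the line which is tight on `T`, starting from a point which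
satisfies the constraints in `P` and violates `k`: either the point which is tight on `k` satisfies
the constraints in `P`, or some of these constraints is reached before. -/
theorem blocking (a : ι → Fin (ν + 1) → ℝ) (b : ι → ℝ) (P : Finset ι) (T : Fin ν → ι) (k : ι)
    (hk : dt a (Fin.cons k T) ≠ 0) (x : Fin (ν + 1) → ℝ) (hT : ∀ j, sl a b x (T j) = 0)
    (hP : ∀ q ∈ P, 0 ≤ sl a b x q) (hxk : sl a b x k < 0) :
    (∃ y : Fin (ν + 1) → ℝ, (∀ j, sl a b y (T j) = 0) ∧ sl a b y k = 0 ∧ ∀ q ∈ P, 0 ≤ sl a b y q) ∨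
    ∃ p ∈ P, dt a (Fin.cons p T) * dt a (Fin.cons k T) < 0 ∧ ∃ z : Fin (ν + 1) → ℝ,
      (∀ j, sl a b z (T j) = 0) ∧ sl a b z p = 0 ∧ (∀ q ∈ P, 0 ≤ sl a b z q) ∧
      sl a b z k < 0 := by
  classical
  obtain ⟨d, hd0, hd⟩ := exists_dir a T
  -- direction with `a k ⬝ᵥ e = 1`
  set D := dt a (Fin.cons k T) with hD
  set e : Fin (ν + 1) → ℝ := D⁻¹ • d with he
  have he0 : ∀ j, a (T j) ⬝ᵥ e = 0 := fun j => by rw [he, dotProduct_smul, hd0, smul_zero]
  have hek : a k ⬝ᵥ e = 1 := by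
    rw [he, dotProduct_smul, hd, smul_eq_mul, ← hD, inv_mul_cancel₀ hk]
  set y := x + (- sl a b x k) • e with hy
  have hyk : sl a b y k = 0 := by rw [hy, sl_move, hek]; ring
  have hyT : ∀ j, sl a b y (T j) = 0 := fun j => by rw [hy, sl_move, he0, hT]; ring
  by_cases hall : ∀ q ∈ P, 0 ≤ sl a b y q
  · exact Or.inl ⟨y, hyT, hyk, hall⟩
  · right
    push Not at hall
    obtain ⟨q0, hq0, hq0'⟩ := hall
    -- the violated constraints and the parameter where they are reached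
    set F := P.filter fun q => sl a b y q < 0 with hF
    have hFne : F.Nonempty := ⟨q0, by rw [hF, Finset.mem_filter]; exact ⟨hq0, hq0'⟩⟩
    have hneg : ∀ q ∈ F, a q ⬝ᵥ e < 0 := by
      intro q hq
      rw [hF, Finset.mem_filter] at hq
      have h1 := hP q hq.1
      have h2 := hq.2
      rw [hy, sl_move] at h2
      nlinarith
    obtain ⟨p, hpF, hpmin⟩ := Finset.exists_min_image F (fun q => sl a b x q / (-(a q ⬝ᵥ e))) hFne
    have hpP : p ∈ P := (Finset.mem_filter.1 hpF).1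
    have hpy : sl a b y p < 0 := (Finset.mem_filter.1 hpF).2
    have hpn := hneg p hpF
    set t := sl a b x p / (-(a p ⬝ᵥ e)) with ht
    have ht0 : 0 ≤ t := div_nonneg (hP p hpP) (by linarith)
    have ht1 : t < - sl a b x k := by
      rw [ht, div_lt_iff₀ (by linarith)]
      rw [hy, sl_move] at hpy
      nlinarith
    refine ⟨p, hpP, ?_, x + t • e, fun j => ?_, ?_, fun q hq => ?_, ?_⟩
    · have h1 : a p ⬝ᵥ e = D⁻¹ * dt a (Fin.cons p T) := by
        rw [he, dotProduct_smul, hd, smul_eq_mul]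
      rw [h1] at hpn
      have h2 : dt a (Fin.cons p T) * D = (D⁻¹ * dt a (Fin.cons p T)) * (D * D) := by
        field_simp
      rw [h2]
      exact mul_neg_of_neg_of_pos hpn (mul_self_pos.2 hk)
    · rw [sl_move, he0, hT]; ring
    · rw [sl_move, ht]
      have : a p ⬝ᵥ e ≠ 0 := ne_of_lt hpn
      field_simp
      ring
    · rw [sl_move]
      by_cases hqF : q ∈ F
      · have h1 := hpmin q hqF
        have h2 := hneg q hqF
        have h3 : t ≤ sl a b x q / (-(a q ⬝ᵥ e)) := h1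
        rw [le_div_iff₀ (by linarith)] at h3
        linarith
      · have h1 : 0 ≤ sl a b y q := by
          by_contra hh
          exact hqF (Finset.mem_filter.2 ⟨hq, lt_of_not_ge hh⟩)
        rw [hy, sl_move] at h1
        have h2 := hP q hq
        rcases le_or_gt 0 (a q ⬝ᵥ e) with h3 | h3
        · positivity
        · nlinarith
    · rw [sl_move, hek]
      linarith

end Pool.Agent.L7h61.CH
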