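import Pool.Agent.L7h61.CH.Cert

set_option autoImplicit false

/-!
# Chebyshev systems: chains of constraints of alternating types
-/

namespace Pool.Agent.L7h61.CH

open Matrix

variable {ν N : ℕ}

/-- The rows as a function on the first numbers. -/
def tf (ν : ℕ) (T : List ℕ) (j : Fin ν) : ℕ := T.getD j 0

/-- Strictly increasing positions. -/
def SPl (pos : ℕ → Fin N) (W : List ℕ) : Prop :=
  ∀ i j, i < j → j < W.length → pos (W.getD i 0) < pos (W.getD j 0)

/-- Alternating types. -/
def AltR (c : ℕ → ℝ) (r : ℝ) (W : List ℕ) : Prop :=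
  ∀ i < W.length, 0 < (-1 : ℝ) ^ i * c (W.getD i 0) * r

theorem getD_app (W : List ℕ) (k i : ℕ) (hi : i < W.length) : (W ++ [k]).getD i 0 = W.getD i 0 :=
  List.getD_append _ _ _ _ hi

theorem getD_app_last (W : List ℕ) (k : ℕ) : (W ++ [k]).getD W.length 0 = k := by
  rw [List.getD_append_right _ _ _ _ le_rfl]
  simp

theorem SPl.app {pos : ℕ → Fin N} {W : List ℕ} (h : SPl pos W) (k : ℕ)
    (hk : ∀ i < W.length, pos (W.getD i 0) < pos k) : SPl pos (W ++ [k]) := by
  intro i j hij hj
  rw [List.length_append, List.length_singleton] at hj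
  rcases Nat.lt_succ_iff_lt_or_eq.1 hj with h1 | h1
  · rw [getD_app _ _ _ h1, getD_app _ _ _ (hij.trans h1)]
    exact h i j hij h1
  · subst h1
    rw [getD_app_last, getD_app _ _ _ hij]
    exact hk i hij

theorem SPl.of_app {pos : ℕ → Fin N} {W : List ℕ} {k : ℕ} (h : SPl pos (W ++ [k])) :
    SPl pos W ∧ ∀ i < W.length, pos (W.getD i 0) < pos k := by
  refine ⟨fun i j hij hj => ?_, fun i hi => ?_⟩
  · have := h i j hij (by rw [List.length_append, List.length_singleton]; omega)
    rwa [getD_app _ _ _ hj, getD_app _ _ _ (hij.trans hj)] at this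
  · have := h i W.length hi (by rw [List.length_append, List.length_singleton]; omega)
    rwa [getD_app_last, getD_app _ _ _ hi] at this

/-- It is enough to compare with the last element. -/
theorem SPl.lt_of_last {pos : ℕ → Fin N} {W : List ℕ} (h : SPl pos W) (k : ℕ)
    (hk : pos (W.getD (W.length - 1) 0) < pos k) : ∀ i < W.length, pos (W.getD i 0) < pos k := by
  intro i hi
  rcases Nat.lt_or_ge i (W.length - 1) with h1 | h1
  · exact (h i _ h1 (by omega)).trans hk
  · have : i = W.length - 1 := by omega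
    rw [this]; exact hk

theorem AltR.app {c : ℕ → ℝ} {r : ℝ} {W : List ℕ} (h : AltR c r W) (k : ℕ)
    (hk : 0 < (-1 : ℝ) ^ W.length * c k * r) : AltR c r (W ++ [k]) := by
  intro i hi
  rw [List.length_append, List.length_singleton] at hi
  rcases Nat.lt_succ_iff_lt_or_eq.1 hi with h1 | h1
  · rw [getD_app _ _ _ h1]; exact h i h1
  · subst h1
    rw [getD_app_last]; exact hk

theorem AltR.of_app {c : ℕ → ℝ} {r : ℝ} {W : List ℕ} {k : ℕ} (h : AltR c r (W ++ [k])) :
    AltR c r W ∧ 0 < (-1 : ℝ) ^ W.length * c k * r := by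
  refine ⟨fun i hi => ?_, ?_⟩
  · have := h i (by rw [List.length_append, List.length_singleton]; omega)
    rwa [getD_app _ _ _ hi] at this
  · have := h W.length (by rw [List.length_append, List.length_singleton]; omega)
    rwa [getD_app_last] at this

/-- The sign condition for an element of the type opposite to the last one. -/
theorem alt_next {c : ℕ → ℝ} {r : ℝ} {W : List ℕ} (h : AltR c r W) (hW : W ≠ []) (k : ℕ)
    (hk : c (W.getD (W.length - 1) 0) * c k < 0) : 0 < (-1 : ℝ) ^ W.length * c k * r := by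
  have hl : 0 < W.length := List.length_pos_iff.2 hW
  have h1 := h (W.length - 1) (by omega)
  set l := W.getD (W.length - 1) 0 with hl2
  have h2 : (-1 : ℝ) ^ W.length = - (-1) ^ (W.length - 1) := by
    conv_lhs => rw [show W.length = (W.length - 1) + 1 by omega]
    rw [pow_succ]; ring
  rw [h2]
  set s : ℝ := (-1) ^ (W.length - 1) with hs
  have h3 : 0 < c l * c l := mul_self_pos.2 (fun h0 => by rw [h0] at h1; simp at h1)
  have h4 : 0 < (s * c l * r) * (-(c l * c k)) := mul_pos h1 (by linarith)
  have h5 : (s * c l * r) * (-(c l * c k)) = (c l * c l) * (- s * c k * r) := by ring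
  rw [h5] at h4
  exact (pos_iff_pos_of_mul_pos h4).1 h3

/-- The reference sign for an element of the same type. -/
theorem alt_same {c : ℕ → ℝ} {r s : ℝ} {k l : ℕ} (h1 : 0 < s * c l * r) (h : 0 < c l * c k) :
    0 < s * c k * r := by
  have h3 : 0 < c l * c l := mul_self_pos.2 (fun h0 => by rw [h0] at h1; simp at h1)
  have h4 := mul_pos h1 h
  have h5 : (s * c l * r) * (c l * c k) = (c l * c l) * (s * c k * r) := by ring
  rw [h5] at h4
  exact (pos_iff_pos_of_mul_pos h4).1 h3

variable {a : ℕ → Fin (ν + 1) → ℝ} {V : Fin N → Fin (ν + 1) → ℝ}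
  {pos : ℕ → Fin N} {c : ℕ → ℝ} {b : ℕ → ℝ}

theorem SPl.strictMono {T : List ℕ} (h : SPl pos T) (hT : T.length = ν) :
    StrictMono (pos ∘ tf ν T) := by
  intro i j hij
  exact h i j hij (by rw [hT]; exact j.2)

/-- The number of elements of `T` before `p`. -/
theorem cnt_eq {T : List ℕ} (hT : T.length = ν) (P : ℕ → Prop) [DecidablePred P] :
    (Finset.univ.filter fun j : Fin ν => P (tf ν T j)).card =
      (T.filter fun t => decide (P t)).length := by
  induction T generalizing ν with
  | nil =>
    have h0 : ν = 0 := by simpa using hT.symm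
    subst h0
    simp
  | cons t T ih =>
    have h1 : ν = T.length + 1 := by simpa using hT.symm
    subst h1
    rw [Fin.card_filter_univ_succ]
    have h2 := ih rfl
    have h3 : (Finset.univ.filter fun j : Fin T.length => P (tf (T.length + 1) (t :: T) j.succ)).card =
        (T.filter fun t => decide (P t)).length := by
      rw [← h2]
      rfl
    have h4 : tf (T.length + 1) (t :: T) 0 = t := rfl
    rw [h3, h4, List.filter_cons]
    by_cases h5 : P t
    · rw [if_pos h5, if_pos (by simpa using h5)]; rfl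
    · rw [if_neg h5, if_neg (by simpa using h5)]

/-- No violated pairs of parallel constraints among the first `m`. -/
def NV (pos : ℕ → Fin N) (c b : ℕ → ℝ) (m : ℕ) : Prop :=
  ∀ i j, i < m → j < m → pos i = pos j → 0 < c i → c j < 0 → b i / c i ≤ b j / c j

/-- Opposite parallel constraints: if one is tight then the other one is satisfied. -/
theorem nv_sl (H : Cheb a V pos c) {m : ℕ} (hv : NV pos c b m) {i j : ℕ} (hi : i < m) (hj : j < m)
    (hp : pos i = pos j) (hc : c i * c j < 0) (x : Fin (ν + 1) → ℝ) (hx : sl a b x i = 0) :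
    0 ≤ sl a b x j := by
  have hci := H.hc i
  have hcj := H.hc j
  set v := V (pos i) ⬝ᵥ x with hvd
  have h1 : sl a b x i = c i * v - b i := by
    unfold sl
    rw [H.ha i, smul_dotProduct, smul_eq_mul]
  have h2 : sl a b x j = c j * v - b j := by
    unfold sl
    rw [H.ha j, smul_dotProduct, smul_eq_mul, hvd, hp]
  rw [h1] at hx
  rw [h2]
  have h3 : v = b i / c i := by field_simp; linarith
  rcases lt_or_gt_of_ne hci with h4 | h4
  · have h5 : 0 < c j := by
      rcases lt_or_gt_of_ne hcj with h6 | h6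
      · exact absurd hc (not_lt.2 (mul_pos_of_neg_of_neg h4 h6).le)
      · exact h6
    have h6 := hv j i hj hi hp.symm h5 h4
    rw [← h3, div_le_iff₀ h5] at h6
    linarith
  · have h5 : c j < 0 := by
      rcases lt_or_gt_of_ne hcj with h6 | h6
      · exact h6
      · exact absurd hc (not_lt.2 (mul_pos h4 h6).le)
    have h6 := hv i j hi hj hp h4 h5
    rw [← h3, le_div_iff_of_neg h5] at h6
    linarith

/-- The constraint `t` is the strongest one among the first `m` of its direction. -/
def Bst (pos : ℕ → Fin N) (c b : ℕ → ℝ) (m t : ℕ) : Prop :=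
  ∀ l < m, pos l = pos t → 0 < c l * c t → c t * (c t * b l - c l * b t) ≤ 0

theorem bst_sl (H : Cheb a V pos c) {m t l : ℕ} (hb : Bst pos c b m t) (hl : l < m)
    (hp : pos l = pos t) (hc : 0 < c l * c t) (x : Fin (ν + 1) → ℝ) (hx : sl a b x t = 0) :
    0 ≤ sl a b x l := by
  have hct := H.hc t
  set v := V (pos t) ⬝ᵥ x with hvd
  have h1 : sl a b x t = c t * v - b t := by
    unfold sl
    rw [H.ha t, smul_dotProduct, smul_eq_mul]
  have h2 : sl a b x l = c l * v - b l := by
    unfold sl
    rw [H.ha l, smul_dotProduct, smul_eq_mul, hvd, hp]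
  rw [h1] at hx
  rw [h2]
  have h3 := hb l hl hp hc
  have h4 : b t = c t * v := by linarith
  rw [h4] at h3
  have h5 : c t * (c t * b l - c l * (c t * v)) = - ((c t * c t) * (c l * v - b l)) := by ring
  rw [h5] at h3
  have h6 : 0 < c t * c t := mul_self_pos.2 hct
  by_contra h7
  push Not at h7
  have := mul_neg_of_pos_of_neg h6 h7
  linarith

/-- Infeasibility of the first `m` constraints. -/
def Inf (a : ℕ → Fin (ν + 1) → ℝ) (b : ℕ → ℝ) (m : ℕ) : Prop :=
  ¬ ∃ y : Fin (ν + 1) → ℝ, ∀ i < m, 0 ≤ sl a b y i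

/-- **Infeasibility**, for lists: an alternating chain `W ++ [k]` of length `ν + 2`, and a point
which is tight on `W` and violates `k`. -/
theorem inf_of_chain (H : Cheb a V pos c) {m : ℕ} {W : List ℕ} {k : ℕ} (hW : W.length = ν + 1)
    (hsp : SPl pos (W ++ [k])) {r : ℝ} (halt : AltR c r (W ++ [k])) (hm : ∀ t ∈ W ++ [k], t < m)
    (x : Fin (ν + 1) → ℝ) (hx : ∀ i < W.length, sl a b x (W.getD i 0) = 0)
    (hk : sl a b x k < 0) : Inf a b m := by
  rintro ⟨y, hy⟩
  have hlen : (W ++ [k]).length = ν + 2 := by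
    rw [List.length_append, List.length_singleton, hW]
  set f : Fin (ν + 2) → ℕ := fun i => (W ++ [k]).getD i 0 with hf
  have hmem : ∀ i : Fin (ν + 2), f i ∈ W ++ [k] := by
    intro i
    rw [hf]
    simp only
    rw [List.getD_eq_getElem _ _ (by rw [hlen]; exact i.2)]
    exact List.getElem_mem _
  have h0 := halt 0 (by rw [hlen]; omega)
  rw [pow_zero, one_mul] at h0
  refine H.cert b f (fun i j hij => hsp i j hij (by rw [hlen]; exact j.2)) (fun i => ?_)
    (Fin.last _) x (fun i hi => ?_) ?_ y (fun i => hy _ (hm _ (hmem i)))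
  · have h1 := halt i (by rw [hlen]; exact i.2)
    have hr : 0 < r * r := mul_self_pos.2 (fun h => by rw [h] at h0; simp at h0)
    have h2 := mul_pos h1 h0
    have h3 : (-1 : ℝ) ^ (i : ℕ) * c ((W ++ [k]).getD i 0) * r * (c ((W ++ [k]).getD 0 0) * r) =
        (r * r) * ((-1) ^ (i : ℕ) * c (f i) * c (f 0)) := by
      simp only [hf, Fin.val_zero]; ring
    rw [h3] at h2
    exact (pos_iff_pos_of_mul_pos h2).1 hr
  · have h1 : (i : ℕ) < W.length := by
      have h2 : (i : ℕ) ≠ ν + 1 := fun h => hi (Fin.ext h)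
      have h3 := i.2
      omega
    simp only [hf]
    rw [getD_app _ _ _ h1]
    exact hx i h1
  · simp only [hf, Fin.val_last]
    rw [← hW, getD_app_last]
    exact hk

end Pool.Agent.L7h61.CH
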