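import Pool.Agent.L7h61.CH.Mach

set_option autoImplicit false

/-!
# Chebyshev systems: the invariants of the exchange algorithm
-/

namespace Pool.Agent.L7h61.CH

open Matrix

variable {ν N : ℕ} {a : ℕ → Fin (ν + 1) → ℝ} {V : Fin N → Fin (ν + 1) → ℝ}
  {pos : ℕ → Fin N} {c : ℕ → ℝ} {b : ℕ → ℝ}

/-- The state of the algorithm while the chain is built. -/
structure JB (pos : ℕ → Fin N) (c b : ℕ → ℝ) (m k : ℕ) (T : List ℕ) (r : ℝ) : Prop where
  sp : SPl pos T
  alt : AltR c r T
  lt : ∀ t ∈ T, t < m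
  le : ∀ i < T.length, ∀ q, k ≤ q → q < m → pos (T.getD i 0) ≤ pos q
  bst : ∀ t ∈ T, Bst pos c b m t
  reg : ∀ q < k, (∃ i < T.length, pos (T.getD i 0) = pos q) ∨
    ∃ j < T.length, pos (T.getD j 0) < pos q ∧
      (j + 1 < T.length → pos q < pos (T.getD (j + 1) 0)) ∧ 0 < c q * c (T.getD j 0)
  hr : r ≠ 0

/-- The state before the constraint `k` is reached. -/
structure JD (a : ℕ → Fin (ν + 1) → ℝ) (pos : ℕ → Fin N) (c b : ℕ → ℝ) (m k : ℕ) (T : List ℕ)
    (r : ℝ) : Prop where
  km : k < m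
  len : T.length = ν
  sp : SPl pos (T ++ [k])
  alt : AltR c r (T ++ [k])
  lt : ∀ t ∈ T, t < m
  ex : ∃ x : Fin (ν + 1) → ℝ, (∀ i < ν, sl a b x (T.getD i 0) = 0) ∧ (∀ q < k, 0 ≤ sl a b x q) ∧
    sl a b x k < 0

/-- The state with a vertex. -/
structure JR (a : ℕ → Fin (ν + 1) → ℝ) (pos : ℕ → Fin N) (c b : ℕ → ℝ) (m k : ℕ) (T : List ℕ)
    (l : ℕ) (r : ℝ) : Prop where
  lk : l < k
  km : k ≤ m
  len : T.length = ν
  sp : SPl pos (T ++ [l])
  alt : AltR c r (T ++ [l])
  lt : ∀ t ∈ T, t < m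
  ex : ∃ x : Fin (ν + 1) → ℝ, (∀ i < ν, sl a b x (T.getD i 0) = 0) ∧ sl a b x l = 0 ∧
    ∀ q < k, 0 ≤ sl a b x q

theorem jb_zero (m : ℕ) : JB pos c b m 0 [] 1 where
  sp := by intro i j _ hj; simp at hj
  alt := by intro i hi; simp at hi
  lt := by simp
  le := by intro i hi; simp at hi
  bst := by simp
  reg := by intro q hq; omega
  hr := one_ne_zero

theorem neg_of_mul {x y : ℝ} (hx : 0 < x) (h : x * y < 0) : y < 0 := by
  by_contra hh
  push Not at hh
  exact absurd h (not_lt.2 (mul_nonneg hx.le hh))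

theorem JB.skip {m k : ℕ} {T : List ℕ} {r : ℝ} (J : JB pos c b m k T r)
    (hk : k < m) (hT : T ≠ [])
    (h : pos (T.getD (T.length - 1) 0) = pos k ∨ 0 < c (T.getD (T.length - 1) 0) * c k) :
    JB pos c b m (k + 1) T r where
  sp := J.sp
  alt := J.alt
  lt := J.lt
  le := fun i hi q hq hqm => J.le i hi q (by omega) hqm
  bst := J.bst
  reg := by
    have hl : 0 < T.length := List.length_pos_iff.2 hT
    intro q hq
    rcases Nat.lt_succ_iff_lt_or_eq.1 hq with h1 | h1
    · exact J.reg q h1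
    · subst h1
      by_cases h2 : pos (T.getD (T.length - 1) 0) = pos q
      · exact Or.inl ⟨_, by omega, h2⟩
      · refine Or.inr ⟨T.length - 1, by omega, lt_of_le_of_ne (J.le _ (by omega) q le_rfl hk) h2,
          fun h3 => absurd h3 (by omega), ?_⟩
        rcases h with h | h
        · exact absurd h h2
        · rw [mul_comm]; exact h
  hr := J.hr

theorem JB.last_lt {m k : ℕ} {T : List ℕ} {r : ℝ} (J : JB pos c b m k T r) (hk : k < m)
    (hT : T ≠ []) (h : pos (T.getD (T.length - 1) 0) ≠ pos k) :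
    ∀ i < T.length, pos (T.getD i 0) < pos k := by
  have hl : 0 < T.length := List.length_pos_iff.2 hT
  exact J.sp.lt_of_last k (lt_of_le_of_ne (J.le _ (by omega) k le_rfl hk) h)

theorem JB.app (hmono : Monotone pos) (hc : ∀ i, c i ≠ 0) {m k : ℕ} {T : List ℕ} {r : ℝ}
    (J : JB pos c b m k T r) (hk : k < m)
    (h : T = [] ∨ (T ≠ [] ∧ pos (T.getD (T.length - 1) 0) ≠ pos k ∧
      c (T.getD (T.length - 1) 0) * c k < 0))
    {t : ℕ} (ht : t < m) (hp : pos t = pos k) (hct : 0 < c t * c k) (hb : Bst pos c b m t)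
    (h0 : T = [] → k = 0) :
    ∃ r', JB pos c b m (k + 1) (T ++ [t]) r' := by
  have hlast : ∀ i < T.length, pos (T.getD i 0) < pos k := by
    rcases h with h | h
    · subst h; intro i hi; simp at hi
    · exact J.last_lt hk h.1 h.2.1
  have hr' : ∃ r', r' ≠ 0 ∧ AltR c r' (T ++ [t]) := by
    rcases h with h | ⟨hT, -, h1⟩
    · subst h
      refine ⟨c t, hc t, ?_⟩
      intro i hi
      have h0 : i = 0 := by simpa using hi
      subst h0
      simp only [List.nil_append, List.getD_cons_zero, pow_zero, one_mul]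
      exact mul_self_pos.2 (hc t)
    · refine ⟨r, J.hr, J.alt.app t ?_⟩
      refine alt_next J.alt hT t ?_
      have h2 : 0 < c k * c k := mul_self_pos.2 (hc k)
      have h3 : (c (T.getD (T.length - 1) 0) * c k) * (c t * c k) < 0 :=
        mul_neg_of_neg_of_pos h1 hct
      have h4 : (c (T.getD (T.length - 1) 0) * c k) * (c t * c k) =
          (c k * c k) * (c (T.getD (T.length - 1) 0) * c t) := by ring
      rw [h4] at h3
      exact neg_of_mul h2 h3
  obtain ⟨r', hr0, hr1⟩ := hr'
  refine ⟨r', ⟨J.sp.app t (fun i hi => by rw [hp]; exact hlast i hi), hr1, ?_, ?_, ?_, ?_, hr0⟩⟩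
  · intro s hs
    rcases List.mem_append.1 hs with h1 | h1
    · exact J.lt s h1
    · rw [List.mem_singleton.1 h1]; exact ht
  · intro i hi q hq hqm
    rw [List.length_append, List.length_singleton] at hi
    rcases Nat.lt_succ_iff_lt_or_eq.1 hi with h1 | h1
    · rw [getD_app _ _ _ h1]
      exact J.le i h1 q (by omega) hqm
    · subst h1
      rw [getD_app_last, hp]
      exact hmono (by omega)
  · intro s hs
    rcases List.mem_append.1 hs with h1 | h1
    · exact J.bst s h1
    · rw [List.mem_singleton.1 h1]; exact hb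
  · intro q hq
    rw [List.length_append, List.length_singleton]
    rcases Nat.lt_succ_iff_lt_or_eq.1 hq with h1 | h1
    · rcases J.reg q h1 with ⟨i, hi, h2⟩ | ⟨j, hj, h2, h3, h4⟩
      · exact Or.inl ⟨i, by omega, by rw [getD_app _ _ _ hi]; exact h2⟩
      · by_cases h5 : j + 1 < T.length
        · refine Or.inr ⟨j, by omega, ?_, fun _ => ?_, ?_⟩
          · rw [getD_app _ _ _ hj]; exact h2
          · rw [getD_app _ _ _ h5]; exact h3 h5
          · rw [getD_app _ _ _ hj]; exact h4
        · have h6 : j + 1 = T.length := by omega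
          by_cases h7 : pos t = pos q
          · exact Or.inl ⟨T.length, by omega, by rw [getD_app_last]; exact h7⟩
          · refine Or.inr ⟨j, by omega, ?_, fun _ => ?_, ?_⟩
            · rw [getD_app _ _ _ hj]; exact h2
            · rw [h6, getD_app_last]
              refine lt_of_le_of_ne ?_ (Ne.symm h7)
              rw [hp]; exact hmono h1.le
            · rw [getD_app _ _ _ hj]; exact h4
    · subst h1
      exact Or.inl ⟨T.length, by omega, by rw [getD_app_last]; exact hp⟩

/-- The number of elements of a chain before `p`. -/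
theorem lt_iff_cnt {T : List ℕ} (hT : T.length = ν) (hsp : SPl pos T) (p : ℕ)
    (i : ℕ) (hi : i < ν) :
    pos (T.getD i 0) < pos p ↔ i < cnt (fun j => (pos (tf ν T j) : ℕ)) (pos p) := by
  have h := lt_cnt (fun j => (pos (tf ν T j) : ℕ)) (fun x y hxy => hsp.strictMono hT hxy) (pos p)
    ⟨i, hi⟩
  exact h

theorem cnt_filter (hmono : Monotone pos) {T : List ℕ} (hT : T.length = ν)
    (p : ℕ) (hp : ∀ i < ν, pos (T.getD i 0) ≠ pos p) :
    cnt (fun j => (pos (tf ν T j) : ℕ)) (pos p) = (T.filter fun t => decide (t < p)).length := by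
  rw [← cnt_eq hT (fun t => t < p)]
  unfold cnt
  congr 1
  ext j
  simp only [Finset.mem_filter, Finset.mem_univ, true_and]
  constructor
  · intro h
    by_contra h1
    exact absurd (hmono (not_lt.1 h1)) (not_le.2 h)
  · intro h
    exact lt_of_le_of_ne (hmono h.le) (fun h' => hp j j.2 (Fin.ext h'))

theorem cnt_all {T : List ℕ} (hT : T.length = ν) (hsp : SPl pos T) (k : ℕ)
    (hk : ∀ i < ν, pos (T.getD i 0) < pos k) :
    cnt (fun j => (pos (tf ν T j) : ℕ)) (pos k) = ν := by
  by_contra h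
  have h1 := cnt_le (fun j => (pos (tf ν T j) : ℕ)) (pos k)
  have h2 : cnt (fun j => (pos (tf ν T j) : ℕ)) (pos k) < ν := lt_of_le_of_ne h1 h
  have h3 := (lt_iff_cnt hT hsp k _ h2).1 (hk _ h2)
  exact lt_irrefl _ h3

/-- The relative sign of the determinants. -/
theorem dt_rel (H : Cheb a V pos c) {T : List ℕ} {k p : ℕ} (hT : T.length = ν)
    (hsp : SPl pos (T ++ [k])) (hp : ∀ i < ν, pos (T.getD i 0) ≠ pos p) :
    0 < ((-1 : ℝ) ^ cnt (fun j => (pos (tf ν T j) : ℕ)) (pos p) * c p) * ((-1 : ℝ) ^ ν * c k) *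
      (dt a (Fin.cons p (tf ν T)) * dt a (Fin.cons k (tf ν T))) := by
  obtain ⟨h1, h2⟩ := hsp.of_app
  rw [hT] at h2
  have h3 := H.dt_mul (tf ν T) (h1.strictMono hT) p k (fun j => hp j j.2)
    (fun j => (h2 j j.2).ne)
  rwa [cnt_all hT h1 k h2] at h3

theorem dt_ne (H : Cheb a V pos c) {T : List ℕ} {k : ℕ} (hT : T.length = ν)
    (hsp : SPl pos (T ++ [k])) : dt a (Fin.cons k (tf ν T)) ≠ 0 := by
  obtain ⟨h1, h2⟩ := hsp.of_app
  rw [hT] at h2
  exact H.dt_cons_ne (tf ν T) (h1.strictMono hT) k (fun j => (h2 j j.2).ne)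

/-- **The beginning of the exchange algorithm.** -/
theorem JB.far (H : Cheb a V pos c) {m k : ℕ} {T : List ℕ} {r : ℝ} (J : JB pos c b m k T r)
    (hv : NV pos c b m) (hT : T.length = ν) (hT0 : T ≠ []) (hk : k < m)
    (h1 : pos (T.getD (T.length - 1) 0) ≠ pos k) (h2 : c (T.getD (T.length - 1) 0) * c k < 0) :
    JD a pos c b m k T r := by
  have hlast := J.last_lt hk hT0 h1
  have hsp := J.sp.app k hlast
  have halt := J.alt.app k (alt_next J.alt hT0 k h2)
  refine ⟨hk, hT, hsp, halt, J.lt, ?_⟩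
  have hD := dt_ne H hT hsp
  obtain ⟨x1, hx1⟩ := exists_vertex a b (Fin.cons k (tf ν T)) hD
  obtain ⟨d, hd0, hd⟩ := exists_dir a (tf ν T)
  set D := dt a (Fin.cons k (tf ν T)) with hDd
  set e : Fin (ν + 1) → ℝ := (- D⁻¹) • d with he
  have hek : a k ⬝ᵥ e = -1 := by
    rw [he, dotProduct_smul, hd, smul_eq_mul, ← hDd, neg_mul, inv_mul_cancel₀ hD]
  have heT : ∀ i < ν, a (T.getD i 0) ⬝ᵥ e = 0 := by
    intro i hi
    rw [he, dotProduct_smul]
    have := hd0 ⟨i, hi⟩
    unfold tf at this
    simp only at this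
    rw [this, smul_zero]
  have hx1T : ∀ i < ν, sl a b x1 (T.getD i 0) = 0 := by
    intro i hi
    have := hx1 (Fin.succ ⟨i, hi⟩)
    rw [Fin.cons_succ] at this
    exact this
  have hx1k : sl a b x1 k = 0 := hx1 0
  have halt' := halt.of_app
  rw [hT] at halt'
  -- the sign of `a q ⬝ᵥ e`
  have hpos : ∀ q < k, (a q ⬝ᵥ e = 0 ∧ 0 ≤ sl a b x1 q) ∨ 0 < a q ⬝ᵥ e := by
    intro q hq
    rcases J.reg q hq with ⟨i, hi, h3⟩ | ⟨j, hj, h3, h4, h5⟩
    · left
      have hi' : i < ν := by rw [← hT]; exact hi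
      have ht := heT i hi'
      have hti : T.getD i 0 ∈ T := by
        rw [List.getD_eq_getElem _ _ hi]; exact List.getElem_mem _
      refine ⟨?_, ?_⟩
      · rw [H.ha] at ht ⊢
        rw [smul_dotProduct, smul_eq_mul] at ht ⊢
        rcases mul_eq_zero.1 ht with h6 | h6
        · exact absurd h6 (H.hc _)
        · rw [← h3, h6, mul_zero]
      · rcases lt_or_gt_of_ne (mul_ne_zero (H.hc (T.getD i 0)) (H.hc q)) with h6 | h6
        · exact nv_sl H hv (J.lt _ hti) (hq.trans hk) h3 h6 x1 (hx1T i hi')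
        · exact bst_sl H (J.bst _ hti) (hq.trans hk) h3.symm (by rw [mul_comm]; exact h6) x1
            (hx1T i hi')
    · right
      have hne : ∀ i < ν, pos (T.getD i 0) ≠ pos q := by
        intro i hi h6
        have hi' : i < T.length := by rw [hT]; exact hi
        rcases lt_trichotomy i j with h7 | h7 | h7
        · have h8 := J.sp i j h7 hj
          rw [h6] at h8
          exact lt_asymm h8 h3
        · subst h7
          exact h3.ne h6
        · have h9 : j + 1 < T.length := by omega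
          have h8 := h4 h9
          rcases Nat.lt_or_ge (j + 1) i with h10 | h10
          · have h11 := J.sp (j + 1) i h10 hi'
            rw [h6] at h11
            exact lt_asymm h11 h8
          · have h12 : i = j + 1 := by omega
            rw [← h12, h6] at h8
            exact lt_irrefl _ h8
      have hj' : j < ν := by rw [← hT]; exact hj
      have hcnt : cnt (fun j => (pos (tf ν T j) : ℕ)) (pos q) = j + 1 := by
        have h7 := (lt_iff_cnt hT J.sp q j hj').1 h3
        by_contra h8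
        have h9 : j + 1 < cnt (fun j => (pos (tf ν T j) : ℕ)) (pos q) := by omega
        have h10 := cnt_le (fun j => (pos (tf ν T j) : ℕ)) (pos q)
        have h11 : j + 1 < ν := by omega
        have h12 := (lt_iff_cnt hT J.sp q (j + 1) h11).2 h9
        exact lt_asymm h12 (h4 (by omega))
      have h6 := dt_rel H hT hsp hne
      rw [hcnt] at h6
      have h7 := halt'.1 j hj
      have h8 := halt'.2
      have h9 : 0 < (-1 : ℝ) ^ j * c q * r := alt_same h7 (by rw [mul_comm]; exact h5)
      have h10 : 0 < r * r := mul_self_pos.2 J.hr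
      have h11 : ((-1 : ℝ) ^ (j + 1) * c q) * ((-1 : ℝ) ^ ν * c k) < 0 := by
        have h12 := mul_pos h9 h8
        have h13 : ((-1 : ℝ) ^ j * c q * r) * ((-1 : ℝ) ^ ν * c k * r) =
          (r * r) * (((-1 : ℝ) ^ j * c q) * ((-1 : ℝ) ^ ν * c k)) := by ring
        rw [h13] at h12
        have h14 := (pos_iff_pos_of_mul_pos h12).1 h10
        rw [pow_succ]
        linarith
      have h12 : dt a (Fin.cons q (tf ν T)) * D < 0 := by
        by_contra h13
        push Not at h13
        have h14 := mul_nonpos_of_nonpos_of_nonneg h11.le h13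
        rw [hDd] at h14
        linarith
      rw [he, dotProduct_smul, hd, smul_eq_mul]
      have h13 : - D⁻¹ * dt a (Fin.cons q (tf ν T)) =
          - (dt a (Fin.cons q (tf ν T)) * D) / (D * D) := by
        field_simp
      rw [h13]
      exact div_pos (by linarith) (mul_self_pos.2 hD)
  set lam : ℝ := 1 + ∑ q ∈ Finset.range k, |sl a b x1 q| / |a q ⬝ᵥ e| with hlam
  have hterm : ∀ q ∈ Finset.range k, 0 ≤ |sl a b x1 q| / |a q ⬝ᵥ e| :=
    fun q _ => div_nonneg (abs_nonneg _) (abs_nonneg _)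
  have hlam0 : 0 < lam := by
    have := Finset.sum_nonneg hterm
    linarith
  refine ⟨x1 + lam • e, fun i hi => ?_, fun q hq => ?_, ?_⟩
  · rw [sl_move, heT i hi, hx1T i hi]; ring
  · rw [sl_move]
    rcases hpos q hq with ⟨h3, h4⟩ | h3
    · rw [h3]; linarith
    · have h4 := Finset.single_le_sum hterm (Finset.mem_range.2 hq)
      have h5 : |sl a b x1 q| / |a q ⬝ᵥ e| ≤ lam := by linarith
      rw [abs_of_pos h3, div_le_iff₀ h3] at h5
      have h6 := neg_abs_le (sl a b x1 q)
      linarith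
  · rw [sl_move, hek, hx1k]
    linarith

end Pool.Agent.L7h61.CH
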