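import Pool.Agent.L7h61.CH.Mach2

set_option autoImplicit false

/-!
# Chebyshev systems: the exchange step, and the end of the algorithm
-/

namespace Pool.Agent.L7h61.CH

open Matrix

variable {ν N : ℕ} {a : ℕ → Fin (ν + 1) → ℝ} {V : Fin N → Fin (ν + 1) → ℝ}
  {pos : ℕ → Fin N} {c : ℕ → ℝ} {b : ℕ → ℝ}

theorem getD_mem {T : List ℕ} {i : ℕ} (hi : i < T.length) : T.getD i 0 ∈ T := by
  rw [List.getD_eq_getElem _ _ hi]
  exact List.getElem_mem _

/-- `p` is reached before `k` on the line of `T`. -/
def Blk (a : ℕ → Fin (ν + 1) → ℝ) (b : ℕ → ℝ) (T : List ℕ) (k p : ℕ) : Prop :=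
  dt a (Fin.cons p (tf ν T)) * dt a (Fin.cons k (tf ν T)) < 0 ∧ ∃ z : Fin (ν + 1) → ℝ,
    (∀ i < ν, sl a b z (T.getD i 0) = 0) ∧ sl a b z p = 0 ∧ (∀ q < k, 0 ≤ sl a b z q) ∧
      sl a b z k < 0

/-- The exchange step without exchange. -/
theorem JD.none (H : Cheb a V pos c) {m k : ℕ} {T : List ℕ} {r : ℝ} (J : JD a pos c b m k T r)
    (h : ∀ p < k, ¬ Blk a b T k p) : JR a pos c b m (k + 1) T k r := by
  obtain ⟨x, hx1, hx2, hx3⟩ := J.ex
  have hD := dt_ne H J.len J.sp
  rcases blocking a b (Finset.range k) (tf ν T) k hD x (fun j => hx1 j j.2)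
    (fun q hq => hx2 q (Finset.mem_range.1 hq)) hx3 with ⟨y, hy1, hy2, hy3⟩ |
      ⟨p, hp, hp1, z, hz1, hz2, hz3, hz4⟩
  · refine ⟨Nat.lt_succ_self k, J.km, J.len, J.sp, J.alt, J.lt, y, fun i hi => hy1 ⟨i, hi⟩, hy2,
      fun q hq => ?_⟩
    rcases Nat.lt_succ_iff_lt_or_eq.1 hq with h1 | h1
    · exact hy3 q (Finset.mem_range.2 h1)
    · rw [h1, hy2]
  · exact absurd ⟨hp1, z, fun i hi => hz1 ⟨i, hi⟩, hz2,
      fun q hq => hz3 q (Finset.mem_range.2 hq), hz4⟩ (h p (Finset.mem_range.1 hp))

theorem getD_set (T : List ℕ) (i0 p i : ℕ) (hi : i < T.length) :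
    (T.set i0 p).getD i 0 = if i = i0 then p else T.getD i 0 := by
  rw [List.getD_eq_getElem _ _ (by rw [List.length_set]; exact hi), List.getElem_set,
    List.getD_eq_getElem _ _ hi]
  by_cases h : i = i0
  · rw [if_pos h.symm, if_pos h]
  · rw [if_neg (Ne.symm h), if_neg h]

theorem sum_set (T : List ℕ) (i p : ℕ) (hi : i < T.length) :
    (T.set i p).sum + T.getD i 0 = T.sum + p := by
  induction T generalizing i with
  | nil => simp at hi
  | cons t T ih =>
    cases i with
    | zero => simp; omega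
    | succ i =>
      have := ih i (by simpa using hi)
      simp only [List.set_cons_succ, List.sum_cons, List.getD_cons_succ]
      omega

/-- **The exchange step.** -/
theorem JD.some (H : Cheb a V pos c) {m k p : ℕ} {T : List ℕ} {r : ℝ} (J : JD a pos c b m k T r)
    (hv : NV pos c b m) (hpk : p < k) (hB : Blk a b T k p) (hν : 0 < ν) :
    ((T.filter fun t => decide (t < p)).length = 0 → Inf a b m) ∧
    ((T.filter fun t => decide (t < p)).length ≠ 0 →
      JD a pos c b m k (T.set ((T.filter fun t => decide (t < p)).length - 1) p) r ∧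
      T.sum < (T.set ((T.filter fun t => decide (t < p)).length - 1) p).sum) := by
  obtain ⟨hdd, z, hz1, hz2, hz3, hz4⟩ := hB
  obtain ⟨hsp, hspk⟩ := J.sp.of_app
  obtain ⟨halt, haltk⟩ := J.alt.of_app
  have hlen := J.len
  have hne : ∀ i < ν, pos (T.getD i 0) ≠ pos p := by
    intro i hi h
    have := H.dt_cons_eq_zero (tf ν T) p ⟨i, hi⟩ h
    rw [this, zero_mul] at hdd
    exact lt_irrefl _ hdd
  have hrel := dt_rel H hlen J.sp hne
  set cc := cnt (fun j => (pos (tf ν T j) : ℕ)) (pos p) with hcc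
  have hfil := cnt_filter H.mono hlen p hne
  rw [← hcc] at hfil
  rw [← hfil]
  rw [hlen] at hspk haltk
  -- signs
  have huw : ((-1 : ℝ) ^ cc * c p) * ((-1 : ℝ) ^ ν * c k) < 0 := by
    by_contra h
    push Not at h
    have := mul_nonpos_of_nonneg_of_nonpos h hdd.le
    linarith
  have hr : r ≠ 0 := by
    intro h
    rw [h] at haltk
    simp at haltk
  have hcr : (-1 : ℝ) ^ cc * c p * r < 0 := by
    set w := (-1 : ℝ) ^ ν * c k with hw
    have hw0 : 0 < w * w := mul_self_pos.2 (fun h => by rw [h] at haltk; simp at haltk)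
    have h1 := mul_neg_of_neg_of_pos huw haltk
    have h2 : (-1 : ℝ) ^ cc * c p * w * (w * r) = (w * w) * ((-1 : ℝ) ^ cc * c p * r) := by ring
    rw [h2] at h1
    exact neg_of_mul hw0 h1
  -- positions
  have hppk : pos p < pos k := by
    refine lt_of_le_of_ne (H.mono hpk.le) fun h => ?_
    have h1 : cc = ν := by
      rw [hcc, h]
      exact cnt_all hlen hsp k hspk
    rw [h1] at huw
    have h2 : ((-1 : ℝ) ^ ν * c p) * ((-1 : ℝ) ^ ν * c k) = c p * c k := by
      have : ((-1 : ℝ) ^ ν * c p) * ((-1 : ℝ) ^ ν * c k) = ((-1) ^ ν * (-1) ^ ν) * (c p * c k) := by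
        ring
      rw [this, ← pow_add, ← two_mul, pow_mul, neg_one_sq, one_pow, one_mul]
    rw [h2] at huw
    have h3 := nv_sl H hv (hpk.trans J.km) J.km h huw z hz2
    linarith
  have hlow : ∀ i < ν, i < cc → pos (T.getD i 0) < pos p := fun i hi h =>
    (lt_iff_cnt hlen hsp p i hi).2 h
  have hhigh : ∀ i < ν, cc ≤ i → pos p < pos (T.getD i 0) := by
    intro i hi h
    have h1 := (not_congr (lt_iff_cnt hlen hsp p i hi)).2 (not_lt.2 h)
    exact lt_of_le_of_ne (not_lt.1 h1) (hne i hi).symm
  have hltm : ∀ t ∈ T ++ [k], t < m := by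
    intro t ht
    rcases List.mem_append.1 ht with h1 | h1
    · exact J.lt t h1
    · rw [List.mem_singleton.1 h1]; exact J.km
  constructor
  · intro h0
    refine inf_of_chain H (W := p :: T) (k := k) (by simp [hlen]) ?_ (r := -r) ?_ ?_ z ?_ hz4
    · intro i j hij hj
      rw [List.cons_append] at hj ⊢
      cases i with
      | zero =>
        obtain ⟨j', rfl⟩ : ∃ j', j = j' + 1 := ⟨j - 1, by omega⟩
        rw [List.getD_cons_zero, List.getD_cons_succ]
        simp only [List.length_cons, List.length_append, List.length_nil] at hj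
        rcases Nat.lt_or_ge j' T.length with h1 | h1
        · rw [getD_app _ _ _ h1]
          exact hhigh j' (by omega) (by omega)
        · have h2 : j' = T.length := by omega
          rw [h2, getD_app_last]
          exact hppk
      | succ i =>
        obtain ⟨j', rfl⟩ : ∃ j', j = j' + 1 := ⟨j - 1, by omega⟩
        rw [List.getD_cons_succ, List.getD_cons_succ]
        simp only [List.length_cons, List.length_append, List.length_nil] at hj
        exact J.sp i j' (by omega) (by simp only [List.length_append, List.length_singleton]; omega)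
    · intro i hi
      rw [List.cons_append] at hi ⊢
      cases i with
      | zero =>
        rw [List.getD_cons_zero]
        rw [h0] at hcr
        linarith
      | succ i =>
        rw [List.getD_cons_succ]
        simp only [List.length_cons, List.length_append, List.length_nil] at hi
        have h1 := J.alt i (by simp only [List.length_append, List.length_singleton]; omega)
        rw [pow_succ]
        linarith
    · intro t ht
      rw [List.cons_append] at ht
      rcases List.mem_cons.1 ht with h1 | h1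
      · rw [h1]; exact hpk.trans J.km
      · exact hltm t h1
    · intro i hi
      cases i with
      | zero => rw [List.getD_cons_zero]; exact hz2
      | succ i =>
        rw [List.getD_cons_succ]
        simp only [List.length_cons] at hi
        exact hz1 i (by omega)
  · intro h0
    have hcν : cc ≤ ν := cnt_le _ _
    have hi0 : cc - 1 < T.length := by omega
    have hset : ∀ i < ν, (T.set (cc - 1) p).getD i 0 = if i = cc - 1 then p else T.getD i 0 :=
      fun i hi => getD_set T _ p i (by omega)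
    have hl' : (T.set (cc - 1) p).length = ν := by rw [List.length_set]; exact hlen
    have hsp' : SPl pos (T.set (cc - 1) p) := by
      intro i j hij hj
      rw [hl'] at hj
      rw [hset i (hij.trans hj), hset j hj]
      by_cases h1 : i = cc - 1
      · have h2 : j ≠ cc - 1 := by omega
        rw [if_pos h1, if_neg h2]
        exact hhigh j hj (by omega)
      · rw [if_neg h1]
        by_cases h2 : j = cc - 1
        · rw [if_pos h2]
          exact hlow i (hij.trans hj) (by omega)
        · rw [if_neg h2]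
          exact hsp i j hij (by omega)
    have halt' : AltR c r (T.set (cc - 1) p) := by
      intro i hi
      rw [hl'] at hi
      rw [hset i hi]
      by_cases h1 : i = cc - 1
      · rw [if_pos h1, h1]
        have h2 : (-1 : ℝ) ^ cc = - (-1) ^ (cc - 1) := by
          conv_lhs => rw [show cc = (cc - 1) + 1 by omega]
          rw [pow_succ]; ring
        rw [h2] at hcr
        linarith
      · rw [if_neg h1]
        exact halt i (by omega)
    refine ⟨⟨J.km, hl', hsp'.app k ?_, halt'.app k (by rw [hl']; exact haltk), ?_, z, ?_, hz3, hz4⟩,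
      ?_⟩
    · intro i hi
      rw [hl'] at hi
      rw [hset i hi]
      by_cases h1 : i = cc - 1
      · rw [if_pos h1]; exact hppk
      · rw [if_neg h1]; exact hspk i hi
    · intro t ht
      rcases List.mem_or_eq_of_mem_set ht with h1 | h1
      · exact J.lt t h1
      · rw [h1]; exact hpk.trans J.km
    · intro i hi
      rw [hset i hi]
      by_cases h1 : i = cc - 1
      · rw [if_pos h1]; exact hz2
      · rw [if_neg h1]; exact hz1 i hi
    · have h1 := sum_set T (cc - 1) p hi0
      have h2 := hlow (cc - 1) (by omega) (by omega)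
      have h3 : T.getD (cc - 1) 0 < p := by
        by_contra h4
        exact absurd (H.mono (not_lt.1 h4)) (not_le.2 h2)
      omega

/-- The next constraint has the opposite type. -/
theorem JD.opp {m k : ℕ} {T : List ℕ} {r : ℝ} (J : JD a pos c b m k T r) (hT : T ≠ []) :
    pos (T.getD (T.length - 1) 0) ≠ pos k ∧ c (T.getD (T.length - 1) 0) * c k < 0 := by
  have hl : 0 < T.length := List.length_pos_iff.2 hT
  obtain ⟨hsp, hspk⟩ := J.sp.of_app
  obtain ⟨halt, haltk⟩ := J.alt.of_app
  refine ⟨(hspk _ (by omega)).ne, ?_⟩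
  have h1 := halt (T.length - 1) (by omega)
  set l := T.getD (T.length - 1) 0 with hl2
  have h2 : (-1 : ℝ) ^ T.length = - (-1) ^ (T.length - 1) := by
    conv_lhs => rw [show T.length = (T.length - 1) + 1 by omega]
    rw [pow_succ]; ring
  rw [h2] at haltk
  set s : ℝ := (-1) ^ (T.length - 1) with hs
  have h3 := mul_pos h1 haltk
  have h4 : (s * c l * r) * (- s * c k * r) = (s * r * (s * r)) * (- (c l * c k)) := by ring
  rw [h4] at h3
  have h5 : 0 < s * r * (s * r) := mul_self_pos.2 (fun h => by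
    have h6 : s * c l * r = c l * (s * r) := by ring
    rw [h6, h] at h1
    simp at h1)
  have h7 := (pos_iff_pos_of_mul_pos h3).1 h5
  linarith

/-- The check of the next constraint: violated, same type. -/
theorem JR.viol_same {m k l : ℕ} {T : List ℕ} {r : ℝ} (H : Cheb a V pos c)
    (J : JR a pos c b m k T l r) (hk : k < m) (hc : 0 < c l * c k)
    (hx : ∀ x : Fin (ν + 1) → ℝ, (∀ i < ν, sl a b x (T.getD i 0) = 0) → sl a b x l = 0 →
      sl a b x k < 0) : JD a pos c b m k T r := by
  obtain ⟨hsp, hspl⟩ := J.sp.of_app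
  obtain ⟨halt, haltl⟩ := J.alt.of_app
  obtain ⟨x, hx1, hx2, hx3⟩ := J.ex
  refine ⟨hk, J.len, hsp.app k fun i hi => lt_of_lt_of_le (hspl i hi) (H.mono J.lk.le),
    halt.app k (alt_same haltl hc), J.lt, x, hx1, hx3, hx x hx1 hx2⟩

/-- The check of the next constraint: violated, opposite type. -/
theorem JR.viol_opp {m k l : ℕ} {T : List ℕ} {r : ℝ} (H : Cheb a V pos c)
    (J : JR a pos c b m k T l r) (hv : NV pos c b m) (hk : k < m) (hc : c l * c k < 0)
    (hx : ∀ x : Fin (ν + 1) → ℝ, (∀ i < ν, sl a b x (T.getD i 0) = 0) → sl a b x l = 0 →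
      sl a b x k < 0) : Inf a b m := by
  obtain ⟨x, hx1, hx2, hx3⟩ := J.ex
  have hxk := hx x hx1 hx2
  have hne : pos l ≠ pos k := by
    intro h
    have := nv_sl H hv (J.lk.trans hk) hk h hc x hx2
    linarith
  have hlt : pos l < pos k := lt_of_le_of_ne (H.mono J.lk.le) hne
  have hW : (T ++ [l]).length = ν + 1 := by simp [J.len]
  refine inf_of_chain H (W := T ++ [l]) (k := k) hW (J.sp.app k ?_) (r := r)
    (J.alt.app k (alt_next J.alt (by simp) k ?_)) ?_ x ?_ hxk
  · refine J.sp.lt_of_last k ?_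
    have h1 : (T ++ [l]).length - 1 = T.length := by simp
    rw [h1, getD_app_last]
    exact hlt
  · have h1 : (T ++ [l]).length - 1 = T.length := by simp
    rw [h1, getD_app_last]
    exact hc
  · intro t ht
    rcases List.mem_append.1 ht with h1 | h1
    · rcases List.mem_append.1 h1 with h2 | h2
      · exact J.lt t h2
      · rw [List.mem_singleton.1 h2]; exact J.lk.trans hk
    · rw [List.mem_singleton.1 h1]; exact hk
  · intro i hi
    rw [hW] at hi
    rcases Nat.lt_succ_iff_lt_or_eq.1 hi with h1 | h1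
    · rw [getD_app _ _ _ (by rw [J.len]; exact h1)]
      exact hx1 i h1
    · have h2 : i = T.length := by rw [J.len]; exact h1
      rw [h2, getD_app_last]
      exact hx2

/-- The check of the next constraint: satisfied. -/
theorem JR.ok {m k l : ℕ} {T : List ℕ} {r : ℝ} (J : JR a pos c b m k T l r) (hk : k < m)
    (hx : ∀ x : Fin (ν + 1) → ℝ, (∀ i < ν, sl a b x (T.getD i 0) = 0) → sl a b x l = 0 →
      0 ≤ sl a b x k) : JR a pos c b m (k + 1) T l r := by
  obtain ⟨x, hx1, hx2, hx3⟩ := J.ex
  refine ⟨Nat.lt_succ_of_lt J.lk, hk, J.len, J.sp, J.alt, J.lt, x, hx1, hx2, fun q hq => ?_⟩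
  rcases Nat.lt_succ_iff_lt_or_eq.1 hq with h1 | h1
  · exact hx3 q h1
  · rw [h1]; exact hx x hx1 hx2

/-! ### The end -/

/-- The data of the first `m` constraints. -/
theorem Cheb.fin (H : Cheb a V pos c) (m : ℕ) :
    Cheb (fun i : Fin m => a i) V (fun i : Fin m => pos i) (fun i : Fin m => c i) :=
  ⟨H.hN, H.hV, fun _ _ h => H.mono h, fun i => H.hc i, fun i => H.ha i⟩

theorem inf_chain (H : Cheb a V pos c) {m : ℕ} (hv : NV pos c b m) (hinf : Inf a b m) :
    ∃ f : Fin (ν + 2) → ℕ, (∀ i, f i < m) ∧ StrictMono (pos ∘ f) ∧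
      ∀ i : Fin (ν + 2), 0 < (-1) ^ (i : ℕ) * c (f i) * c (f 0) := by
  obtain ⟨f, hf1, hf2⟩ := (H.fin m).infeasible (fun i => b i) (by
    rintro ⟨x, hx⟩
    exact hinf ⟨x, fun i hi => hx ⟨i, hi⟩⟩) (fun i j => hv i j i.2 j.2)
  exact ⟨fun i => f i, fun i => (f i).2, hf1, hf2⟩

/-- The rank of a constraint with respect to the chain `T`. -/
def Rk (pos : ℕ → Fin N) (c : ℕ → ℝ) (T : List ℕ) (r : ℝ) (q h : ℕ) : Prop :=
  h ≤ T.length ∧ (∀ j < h, pos (T.getD j 0) ≤ pos q) ∧
    (∀ j, h ≤ j → j < T.length → pos q ≤ pos (T.getD j 0)) ∧ 0 < (-1 : ℝ) ^ (h + 1) * c q * r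

theorem JB.rank (hc : ∀ i, c i ≠ 0) {m : ℕ} {T : List ℕ} {r : ℝ} (J : JB pos c b m m T r)
    (q : ℕ) (hq : q < m) : ∃ h, Rk pos c T r q h := by
  have hmono : ∀ i j, i ≤ j → j < T.length → pos (T.getD i 0) ≤ pos (T.getD j 0) := by
    intro i j hij hj
    rcases Nat.lt_or_eq_of_le hij with h1 | h1
    · exact (J.sp i j h1 hj).le
    · rw [h1]
  rcases J.reg q hq with ⟨i, hi, h3⟩ | ⟨j, hj, h3, h4, h5⟩
  · rcases lt_or_gt_of_ne (mul_ne_zero (hc (T.getD i 0)) (hc q)) with h6 | h6
    · refine ⟨i, hi.le, fun j hj => ?_, fun j hj hj' => ?_, ?_⟩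
      · rw [← h3]; exact hmono j i hj.le hi
      · rw [← h3]; exact hmono i j hj hj'
      · have h7 := J.alt i hi
        have h8 : 0 < c (T.getD i 0) * c (T.getD i 0) := mul_self_pos.2 (hc _)
        have h9 := mul_pos h7 (neg_pos.2 h6)
        have h10 : (-1 : ℝ) ^ i * c (T.getD i 0) * r * -(c (T.getD i 0) * c q) =
          (c (T.getD i 0) * c (T.getD i 0)) * ((-1) ^ (i + 1) * c q * r) := by
          rw [pow_succ]; ring
        rw [h10] at h9
        exact (pos_iff_pos_of_mul_pos h9).1 h8
    · refine ⟨i + 1, hi, fun j hj => ?_, fun j hj hj' => ?_, ?_⟩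
      · rw [← h3]; exact hmono j i (by omega) hi
      · rw [← h3]; exact hmono i j (by omega) hj'
      · have h7 := alt_same (J.alt i hi) h6
        rw [pow_succ, pow_succ]
        linarith
  · refine ⟨j + 1, hj, fun i hi => ?_, fun i hi hi' => ?_, ?_⟩
    · exact (hmono i j (by omega) hj).trans h3.le
    · exact (h4 (by omega)).le.trans (hmono (j + 1) i hi hi')
    · have h7 := alt_same (J.alt j hj) (by rw [mul_comm]; exact h5 : 0 < c (T.getD j 0) * c q)
      rw [pow_succ, pow_succ]
      linarith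

/-- If the chain is not completed then the system is feasible. -/
theorem JB.feas (H : Cheb a V pos c) {m : ℕ} {T : List ℕ} {r : ℝ} (J : JB pos c b m m T r)
    (hv : NV pos c b m) (hT : T.length ≤ ν) : ¬ Inf a b m := by
  intro hinf
  obtain ⟨f, hf0, hf1, hf2⟩ := inf_chain H hv hinf
  have hrk : ∀ i : ℕ, ∀ hi : i < ν + 2, ∃ h, i ≤ h ∧ Rk pos c T r (f ⟨i, hi⟩) h := by
    intro i
    induction i with
    | zero =>
      intro hi
      obtain ⟨h, hh⟩ := J.rank H.hc (f ⟨0, hi⟩) (hf0 _)
      exact ⟨h, Nat.zero_le _, hh⟩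
    | succ i ih =>
      intro hi
      obtain ⟨h, hih, hh1, hh2, hh3, hh4⟩ := ih (by omega)
      obtain ⟨h', hh'⟩ := J.rank H.hc (f ⟨i + 1, hi⟩) (hf0 _)
      refine ⟨h', ?_, hh'⟩
      obtain ⟨g1, g2, g3, g4⟩ := hh'
      have hlt : pos (f ⟨i, by omega⟩) < pos (f ⟨i + 1, hi⟩) :=
        hf1 (by rw [Fin.lt_def]; exact Nat.lt_succ_self i)
      have hle : h ≤ h' := by
        by_contra hc'
        push Not at hc'
        have e1 := hh2 h' hc'
        have e2 := g3 h' le_rfl (by omega)
        exact absurd hlt (not_lt.2 (e2.trans e1))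
      have hne : h ≠ h' := by
        intro e
        subst e
        have s1 := hf2 ⟨i, by omega⟩
        have s2 := hf2 ⟨i + 1, hi⟩
        simp only at s1 s2
        have s3 := mul_pos s1 s2
        have s4 := mul_pos hh4 g4
        set u := c (f ⟨i, by omega⟩) with hu
        set w := c (f ⟨i + 1, hi⟩) with hw
        set z := c (f 0) with hz
        have e3 : ((-1 : ℝ) ^ i * u * z) * ((-1 : ℝ) ^ (i + 1) * w * z) =
            (((-1 : ℝ) ^ i * z) * ((-1 : ℝ) ^ i * z)) * (- (u * w)) := by rw [pow_succ]; ring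
        have e4 : ((-1 : ℝ) ^ (h + 1) * u * r) * ((-1 : ℝ) ^ (h + 1) * w * r) =
            (((-1 : ℝ) ^ (h + 1) * r) * ((-1 : ℝ) ^ (h + 1) * r)) * (u * w) := by ring
        rw [e3] at s3
        rw [e4] at s4
        have s5 : 0 ≤ ((-1 : ℝ) ^ i * z) * ((-1 : ℝ) ^ i * z) := mul_self_nonneg _
        have s6 : 0 ≤ ((-1 : ℝ) ^ (h + 1) * r) * ((-1 : ℝ) ^ (h + 1) * r) := mul_self_nonneg _
        have s7 : 0 < u * w := by
          by_contra s8
          push Not at s8
          have := mul_nonpos_of_nonneg_of_nonpos s6 s8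
          linarith
        have s9 := mul_nonneg s5 s7.le
        have e5 : (((-1 : ℝ) ^ i * z) * ((-1 : ℝ) ^ i * z)) * (- (u * w)) =
          - ((((-1 : ℝ) ^ i * z) * ((-1 : ℝ) ^ i * z)) * (u * w)) := by ring
        rw [e5] at s3
        linarith
      omega
  obtain ⟨h, h1, h2, -⟩ := hrk (ν + 1) (by omega)
  omega

end Pool.Agent.L7h61.CH
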