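import Pool.Agent.L7h61.CH.Val2
import Pool.Agent.W920.FC.T_TT
import Pool.Agent.W920.FC.T_RUN
import Pool.Agent.H622R3.SM.T_ORD
import Pool.Agent.H622R3.SM.T_SMALL
import Pool.Agent.H622R3.SM.T_LEN

set_option autoImplicit false

/-!
# Chebyshev systems: the run of the algorithm
-/

namespace Pool.Agent.L7h61.CH

open Pool.Agent.NPC Pool.Agent.H558R2 Pool.Agent.H622R3.SM Pool.Agent.W920.FC

variable {m n : ℕ}

/-- The number is small for rational inputs. -/
def Sml (A : Fin m → Fin n → ℝ) (b : Fin m → ℝ) (v : ℝ) : Prop :=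
  ∀ (A' : Matrix (Fin m) (Fin n) ℚ) (b' : Fin m → ℚ), (∀ i j, ((A' i j : ℚ) : ℝ) = A i j) →
    (∀ i, ((b' i : ℚ) : ℝ) = b i) → ∃ q : ℚ, (q : ℝ) = v ∧ bitLength q ≤ 30 * inputLength A' b' ^ 2

theorem hasVal (hEQ : S_EQ) (hORD : S_ORD) (hSM : S_SMALL) (hm : 1 ≤ m)
    (A : Fin m → Fin n → ℝ) (b : Fin m → ℝ) (R : Key) :
    HasVal (start A b) (Sml A b) (mq m n R) (val A b R) := by
  refine ⟨hORD m n _ 0 hm, vreg m n (enc m n R) 0 (A, b), ?_, ?_, ?_, rfl⟩
  · exact (hEQ m n (enc m n R) 0 (A, b) hm).1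
  · intro I hI
    have h1 := (hEQ m n (enc m n R) 0 (A, b) hm).2 I hI
    refine ⟨h1.1, h1.2, ?_⟩
    intro A' b' hA hb
    have e1 : (fun i j => ((A' i j : ℚ) : ℝ)) = A := by funext i j; exact hA i j
    have e2 : (fun i => ((b' i : ℚ) : ℝ)) = b := by funext i; exact hb i
    obtain ⟨q, hq, hq2⟩ := hSM m n (enc m n R) 0 A' b' hm I hI
    rw [e1, e2] at hq
    exact ⟨q, hq, hq2⟩
  · right
    refine ⟨⟨Op.sub, [11], [3], [10, m - 1]⟩, ?_, rfl⟩
    unfold mq minorProg
    simp

theorem ask_run (hBND : S_BND) (hBATCH : S_BATCH) (hMONO : S_MONO) (hEQ : S_EQ) (hORD : S_ORD)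
    (hSM : S_SMALL) (hLEN : S_LEN) (hm : 1 ≤ m) (A : Fin m → Fin n → ℝ) (b : Fin m → ℝ)
    (ks : List Key) :
    Runs (start A b) (Sml A b) (ask m n ks) (tt A b ks) (ks.length * (12 * m ^ 4 + 1)) := by
  have h1 : List.Forall₂ (HasVal (start A b) (Sml A b)) (ks.map (mq m n)) (ks.map (val A b)) := by
    induction ks with
    | nil => exact List.Forall₂.nil
    | cons K ks ih => exact List.Forall₂.cons (hasVal hEQ hORD hSM hm A b K) ih
  have h2 := hBATCH _ _ _ _ h1
  have h3 : ((ks.map (mq m n)).map fun q => q.1.length + 1).sum ≤ ks.length * (12 * m ^ 4 + 1) := by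
    clear h1 h2
    induction ks with
    | nil => simp
    | cons K ks ih =>
      simp only [List.map_cons, List.sum_cons, List.length_cons]
      have h4 : (mq m n K).1.length ≤ 12 * m ^ 4 := hLEN m n (enc m n K) 0 hm
      have h5 : (ks.length + 1) * (12 * m ^ 4 + 1) = ks.length * (12 * m ^ 4 + 1) +
        (12 * m ^ 4 + 1) := by ring
      omega
  have h4 := hBND _ Tab (start A b) (Sml A b) (batch (ks.map (mq m n)))
    (fun o => ret (ks.zipIdx.map fun p => (p.1, o.getD p.2 none))) _ (tt A b ks) _ 0 h2 (by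
      have e : (ks.zipIdx.map fun p => (p.1, ((ks.map (val A b)).map signOut).getD p.2 none)) =
          tt A b ks := by
        unfold tt
        apply List.ext_getElem
        · simp
        · intro i h5 h6
          have hi : i < ks.length := by simpa using h6
          simp [hi]
      rw [e]
      exact Runs.done _ _ 0 fun _ => rfl)
  exact hMONO _ _ _ _ _ _ _ _ (fun v hv => hv) (by omega) h4

/-- The states, with the true signs. -/
noncomputable def sts (A : Fin m → Fin n → ℝ) (b : Fin m → ℝ) (L L' : Tab) : ℕ → St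
  | 0 => s0
  | i + 1 => upd m n L L' (tt A b (K2 m n (sts A b L L' i).2.1)) (sts A b L L' i)

theorem length_K0 (m n : ℕ) : (K0 m n).length = m * (n * (m * (n + 1) + 1)) := by
  unfold K0
  simp [List.length_flatMap]

theorem length_K1 (m n : ℕ) (L : Tab) : (K1 m n L).length = m * 2 := by
  unfold K1
  simp [List.length_flatMap]

theorem length_K2 (m n : ℕ) (T : List ℕ) : (K2 m n T).length = m * (m + 1) := by
  unfold K2
  simp [List.length_flatMap]

/-- The cost. -/
def cost (m n : ℕ) : ℕ :=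
  (m * (n * (m * (n + 1) + 1)) + m * 2 + itN m n * (m * (m + 1))) * (12 * m ^ 4 + 1)

theorem ta_run (hBND : S_BND) (hBATCH : S_BATCH) (hITER : S_ITER) (hMONO : S_MONO) (hEQ : S_EQ)
    (hORD : S_ORD) (hSM : S_SMALL) (hLEN : S_LEN) (hm : 1 ≤ m) (A : Fin m → Fin n → ℝ)
    (b : Fin m → ℝ) :
    Runs (start A b) (Sml A b) (TA m n)
      (fin m n (tt A b (K0 m n)) (sts A b (tt A b (K0 m n))
        (tt A b (K1 m n (tt A b (K0 m n)))) (itN m n))) (cost m n) := by
  have hask := fun ks => ask_run hBND hBATCH hMONO hEQ hORD hSM hLEN hm A b ks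
  set L := tt A b (K0 m n) with hL
  set L' := tt A b (K1 m n L) with hL'
  have h1 := hask (K0 m n)
  have h2 := hask (K1 m n L)
  rw [length_K0] at h1
  rw [length_K1] at h2
  have h3 := hITER St (start A b) (Sml A b) (stp m n L L') (sts A b L L') (itN m n)
    (m * (m + 1) * (12 * m ^ 4 + 1)) (fun i _ => by
      have h4 := hask (K2 m n (sts A b L L' i).2.1)
      rw [length_K2] at h4
      have h5 := hBND _ St (start A b) (Sml A b) _ (fun M => ret (upd m n L L' M (sts A b L L' i)))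
        _ (sts A b L L' (i + 1)) _ 0 h4 (Runs.done _ _ 0 fun _ => rfl)
      exact h5)
  have h6 := hBND _ Bool (start A b) (Sml A b) _ (fun s => ret (fin m n L s)) _
    (fin m n L (sts A b L L' (itN m n))) _ 0 h3 (Runs.done _ _ 0 fun _ => rfl)
  have h7 := hBND _ Bool (start A b) (Sml A b) (ask m n (K1 m n L))
    (fun L' => bnd (iter (stp m n L L') (itN m n) s0) fun s => ret (fin m n L s)) _ _ _ _ h2 h6
  have h8 := hBND _ Bool (start A b) (Sml A b) (ask m n (K0 m n))
    (fun L => bnd (ask m n (K1 m n L)) fun L' =>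
      bnd (iter (stp m n L L') (itN m n) s0) fun s => ret (fin m n L s)) _ _ _ _ h1 h7
  refine hMONO _ _ _ _ _ _ _ _ (fun v hv => hv) ?_ h8
  unfold cost
  apply le_of_eq
  ring

end Pool.Agent.L7h61.CH
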