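import Pool.Agent.L7h61.CH.Lin

set_option autoImplicit false

/-!
# Chebyshev systems: signs of the determinants
-/

namespace Pool.Agent.L7h61.CH

open Matrix

variable {ν N : ℕ} {ι : Type}

/-- All maximal minors are nonzero and have the same sign. -/
def Pos (V : Fin N → Fin (ν + 1) → ℝ) : Prop :=
  ∃ s : ℝ, ∀ f : Fin (ν + 1) → Fin N, StrictMono f → 0 < s * dt V f

theorem dt_smul (c : ι → ℝ) (v : ι → Fin (ν + 1) → ℝ) (s : Fin (ν + 1) → ι) :
    dt (fun i => c i • v i) s = (∏ i, c (s i)) * dt v s := by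
  unfold dt
  exact Matrix.det_mul_column (fun i => c (s i)) (Matrix.of fun i j => v (s i) j)

theorem dt_comp (V : Fin N → Fin (ν + 1) → ℝ) (pos : ι → Fin N) (s : Fin (ν + 1) → ι) :
    dt (fun i => V (pos i)) s = dt V (pos ∘ s) := rfl

/-- The number of elements of `T` before `P`. -/
def cnt (T : Fin ν → ℕ) (P : ℕ) : ℕ := (Finset.univ.filter fun j => T j < P).card

theorem cnt_le (T : Fin ν → ℕ) (P : ℕ) : cnt T P ≤ ν := by
  unfold cnt
  exact (Finset.card_le_univ _).trans (by simp)

theorem lt_cnt (T : Fin ν → ℕ) (hT : StrictMono T) (P : ℕ) (j : Fin ν) :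
    T j < P ↔ (j : ℕ) < cnt T P := by
  unfold cnt
  constructor
  · intro h
    have h1 : Finset.univ.filter (fun i : Fin ν => i ≤ j) ⊆
        Finset.univ.filter fun i => T i < P := by
      intro i hi
      simp only [Finset.mem_filter, Finset.mem_univ, true_and] at hi ⊢
      exact lt_of_le_of_lt (hT.monotone hi) h
    have h2 := Finset.card_le_card h1
    have h3 : (Finset.univ.filter (fun i : Fin ν => i ≤ j)).card = j + 1 := by
      rw [show (Finset.univ.filter (fun i : Fin ν => i ≤ j)) = Finset.Iic j by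
        ext i; simp]
      exact Fin.card_Iic j
    omega
  · intro h
    by_contra hc
    have h1 : (Finset.univ.filter fun i => T i < P) ⊆ Finset.univ.filter (fun i : Fin ν => i < j) := by
      intro i hi
      simp only [Finset.mem_filter, Finset.mem_univ, true_and] at hi ⊢
      by_contra hij
      exact hc (lt_of_le_of_lt (hT.monotone (not_lt.1 hij)) hi)
    have h2 := Finset.card_le_card h1
    have h3 : (Finset.univ.filter (fun i : Fin ν => i < j)).card = j := by
      rw [show (Finset.univ.filter (fun i : Fin ν => i < j)) = Finset.Iio j by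
        ext i; simp]
      exact Fin.card_Iio j
    omega

/-- The sign of the determinant of the rows `P`, `T`. -/
theorem sign_cons (V : Fin N → Fin (ν + 1) → ℝ) (s : ℝ)
    (hV : ∀ f : Fin (ν + 1) → Fin N, StrictMono f → 0 < s * dt V f) (T : Fin ν → Fin N)
    (hT : StrictMono T) (P : Fin N) (hP : ∀ j, T j ≠ P) :
    0 < (-1 : ℝ) ^ cnt (fun j => (T j : ℕ)) P * (s * dt V (Fin.cons P T)) := by
  set c := cnt (fun j => (T j : ℕ)) P with hc
  have hcν : c < ν + 1 := Nat.lt_succ_of_le (cnt_le _ _)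
  have hTn : StrictMono fun j => (T j : ℕ) := fun _ _ h => hT h
  set i : Fin (ν + 1) := ⟨c, hcν⟩ with hi
  set f : Fin (ν + 1) → Fin N := i.insertNth P T with hf
  have hmono : StrictMono f := by
    intro a b hab
    rcases Fin.eq_self_or_eq_succAbove i a with ha | ⟨a', ha⟩ <;>
      rcases Fin.eq_self_or_eq_succAbove i b with hb | ⟨b', hb⟩
    · subst ha; subst hb; exact absurd hab (lt_irrefl _)
    · rw [ha, hb, hf, Fin.insertNth_apply_same, Fin.insertNth_apply_succAbove]
      rw [ha, hb] at hab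
      have h1 : ¬ (b' : ℕ) < c := by
        intro h2
        have h3 : b'.castSucc < i := by
          rw [Fin.lt_def]; exact h2
        rw [Fin.succAbove_of_castSucc_lt _ _ h3] at hab
        exact absurd (hab.trans h3) (lt_irrefl _)
      have h2 := (not_congr (lt_cnt _ hTn P b')).2 h1
      have h3 : P ≤ T b' := by
        rw [Fin.le_def]; exact not_lt.1 h2
      exact lt_of_le_of_ne h3 (fun h => hP b' h.symm)
    · rw [ha, hb, hf, Fin.insertNth_apply_same, Fin.insertNth_apply_succAbove]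
      rw [ha, hb] at hab
      have h1 : (a' : ℕ) < c := by
        by_contra h2
        have h3 : i ≤ a'.castSucc := by
          rw [Fin.le_def]; exact not_lt.1 h2
        rw [Fin.succAbove_of_le_castSucc _ _ h3] at hab
        have h4 : i < a'.succ := lt_of_le_of_lt h3 (Fin.castSucc_lt_succ)
        exact absurd (hab.trans h4) (lt_irrefl _)
      have h2 := (lt_cnt _ hTn P a').2 h1
      rw [Fin.lt_def]; exact h2
    · rw [ha, hb, hf, Fin.insertNth_apply_succAbove, Fin.insertNth_apply_succAbove]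
      rw [ha, hb] at hab
      exact hT ((Fin.strictMono_succAbove i).lt_iff_lt.1 hab)
  have e1 : (Fin.cons P T : Fin (ν + 1) → Fin N) = f ∘ (i.cycleRange.symm) := by
    funext a
    refine Fin.cases ?_ (fun j => ?_) a
    · simp [hf]
    · simp [hf]
  have e2 : dt V (Fin.cons P T) = (-1 : ℝ) ^ c * dt V f := by
    rw [e1]
    unfold dt
    have h := Matrix.det_permute (i.cycleRange.symm) (Matrix.of fun a b => V (f a) b)
    have h2 : (Matrix.of fun a b => V ((f ∘ (i.cycleRange.symm)) a) b) =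
        (Matrix.of fun a b => V (f a) b).submatrix (i.cycleRange.symm) id := rfl
    rw [h2, h, Equiv.Perm.sign_symm, Fin.sign_cycleRange]
    simp [hi]
  rw [e2]
  have e3 : (-1 : ℝ) ^ c * (s * ((-1 : ℝ) ^ c * dt V f)) = ((-1) ^ c * (-1) ^ c) * (s * dt V f) := by
    ring
  rw [e3, ← pow_add, ← two_mul, pow_mul, neg_one_sq, one_pow, one_mul]
  exact hV f hmono

/-- The structure of the class: the rows are multiples of vectors of a Chebyshev system, in weakly
increasing order. -/
structure Cheb {κ : Type} [Preorder κ] (a : κ → Fin (ν + 1) → ℝ) (V : Fin N → Fin (ν + 1) → ℝ)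
    (pos : κ → Fin N) (c : κ → ℝ) : Prop where
  hN : ν + 1 ≤ N
  hV : Pos V
  mono : Monotone pos
  hc : ∀ i, c i ≠ 0
  ha : ∀ i, a i = c i • V (pos i)

variable {κ : Type} [Preorder κ] {a : κ → Fin (ν + 1) → ℝ} {V : Fin N → Fin (ν + 1) → ℝ}
  {pos : κ → Fin N} {c : κ → ℝ}

theorem Cheb.dt_eq (H : Cheb a V pos c) (s : Fin (ν + 1) → κ) :
    dt a s = (∏ i, c (s i)) * dt V (pos ∘ s) := by
  have h : a = fun i => c i • V (pos i) := funext H.ha
  rw [h, dt_smul]
  rfl

theorem Cheb.dt_cons (H : Cheb a V pos c) (T : Fin ν → κ) (p : κ) :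
    dt a (Fin.cons p T) = (c p * ∏ i, c (T i)) * dt V (Fin.cons (pos p) (pos ∘ T)) := by
  rw [H.dt_eq, Fin.prod_univ_succ]
  have : (pos ∘ (Fin.cons p T : Fin (ν + 1) → κ)) = Fin.cons (pos p) (pos ∘ T) := by
    funext i
    refine Fin.cases ?_ (fun j => ?_) i <;> simp
  rw [this]
  simp

/-- The relative sign of two determinants with `ν` common rows. -/
theorem Cheb.dt_mul (H : Cheb a V pos c) (T : Fin ν → κ) (hT : StrictMono (pos ∘ T))
    (p k : κ) (hp : ∀ j, pos (T j) ≠ pos p) (hk : ∀ j, pos (T j) ≠ pos k) :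
    0 < ((-1 : ℝ) ^ cnt (fun j => (pos (T j) : ℕ)) (pos p) * c p) *
      ((-1 : ℝ) ^ cnt (fun j => (pos (T j) : ℕ)) (pos k) * c k) *
        (dt a (Fin.cons p T) * dt a (Fin.cons k T)) := by
  obtain ⟨s, hs⟩ := H.hV
  have h1 := sign_cons V s hs (pos ∘ T) hT (pos p) hp
  have h2 := sign_cons V s hs (pos ∘ T) hT (pos k) hk
  rw [H.dt_cons, H.dt_cons]
  have h3 : (∏ i, c (T i)) ≠ 0 := Finset.prod_ne_zero_iff.2 fun i _ => H.hc _
  have h4 : 0 < (c p * c p) * (c k * c k) * ((∏ i, c (T i)) * ∏ i, c (T i)) :=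
    mul_pos (mul_pos (mul_self_pos.2 (H.hc p)) (mul_self_pos.2 (H.hc k))) (mul_self_pos.2 h3)
  have h5 := mul_pos h4 (mul_pos h1 h2)
  have hs0 : 0 < s * s := mul_self_pos.2 (fun h => by rw [h] at h1; simp at h1)
  refine (pos_iff_pos_of_mul_pos (a := s * s) ?_).1 hs0
  refine lt_of_lt_of_eq h5 ?_
  simp only [Function.comp_def]
  ring

theorem Cheb.dt_cons_ne (H : Cheb a V pos c) (T : Fin ν → κ) (hT : StrictMono (pos ∘ T))
    (p : κ) (hp : ∀ j, pos (T j) ≠ pos p) : dt a (Fin.cons p T) ≠ 0 := by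
  intro h
  have := H.dt_mul T hT p p hp hp
  rw [h] at this
  simp at this

/-- Two rows of `T` or `p` and a row of `T` are parallel. -/
theorem Cheb.dt_cons_eq_zero (H : Cheb a V pos c) (T : Fin ν → κ)
    (p : κ) (j : Fin ν) (hp : pos (T j) = pos p) : dt a (Fin.cons p T) = 0 := by
  rw [H.dt_cons]
  have : dt V (Fin.cons (pos p) (pos ∘ T)) = 0 := by
    unfold dt
    refine Matrix.det_zero_of_row_eq (i := 0) (j := j.succ) (Fin.succ_ne_zero j).symm ?_
    funext l
    simp [hp]
  rw [this, mul_zero]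

end Pool.Agent.L7h61.CH
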