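import Pool.Agent.L7h61.CH.Val
import Pool.Agent.L7h61.CH.Mach

set_option autoImplicit false

/-!
# Chebyshev systems: the values of the queries, continued
-/

namespace Pool.Agent.L7h61.CH

open Matrix
open Pool.Agent.NPC Pool.Agent.H558R2 Pool.Agent.H622R3.SM Pool.Agent.W920.FC

/-! ### Signs -/

theorem signOut_pos {v : ℝ} (h : 0 < v) : signOut v = some true := by
  unfold signOut
  rw [if_pos h]

theorem signOut_neg {v : ℝ} (h : v < 0) : signOut v = some false := by
  unfold signOut
  rw [if_neg (not_lt.2 h.le), if_pos h]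

theorem signOut_zero : signOut 0 = none := by
  unfold signOut
  simp

theorem signOut_eq_none {v : ℝ} : signOut v = none ↔ v = 0 := by
  rcases lt_trichotomy v 0 with h | h | h
  · rw [signOut_neg h]; simp [h.ne]
  · rw [h, signOut_zero]; simp
  · rw [signOut_pos h]; simp [h.ne']

theorem ng_iff {u v : ℝ} : ng (signOut u) (signOut v) = true ↔ u * v < 0 := by
  unfold ng
  rcases lt_trichotomy u 0 with h | h | h <;> rcases lt_trichotomy v 0 with h' | h' | h'
  · rw [signOut_neg h, signOut_neg h']; simp [(mul_pos_of_neg_of_neg h h').le]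
  · rw [h', signOut_zero]; simp
  · rw [signOut_neg h, signOut_pos h']; simp [mul_neg_of_neg_of_pos h h']
  · rw [h, signOut_zero]; simp
  · rw [h, signOut_zero]; simp
  · rw [h, signOut_zero]; simp
  · rw [signOut_pos h, signOut_neg h']; simp [mul_neg_of_pos_of_neg h h']
  · rw [h', signOut_zero]; simp
  · rw [signOut_pos h, signOut_pos h']; simp [(mul_pos h h').le]

theorem ps_iff {u v : ℝ} : ps (signOut u) (signOut v) = true ↔ 0 < u * v := by
  unfold ps
  rcases lt_trichotomy u 0 with h | h | h <;> rcases lt_trichotomy v 0 with h' | h' | h'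
  · rw [signOut_neg h, signOut_neg h']; simp [mul_pos_of_neg_of_neg h h']
  · rw [h', signOut_zero, signOut_neg h]; simp
  · rw [signOut_neg h, signOut_pos h']; simp [(mul_neg_of_neg_of_pos h h').le]
  · rw [h, signOut_zero]; simp
  · rw [h, signOut_zero]; simp
  · rw [h, signOut_zero]; simp
  · rw [signOut_pos h, signOut_neg h']; simp [(mul_neg_of_pos_of_neg h h').le]
  · rw [h', signOut_zero, signOut_pos h]; simp
  · rw [signOut_pos h, signOut_pos h']; simp [mul_pos h h']

/-! ### Tables -/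

/-- The table contains the true signs of the keys. -/
def Tr {m n : ℕ} (A : Fin m → Fin n → ℝ) (b : Fin m → ℝ) (L : Tab) (ks : List Key) : Prop :=
  ∀ R ∈ ks, sg L R = signOut (val A b R)

/-- The true table. -/
noncomputable def tt {m n : ℕ} (A : Fin m → Fin n → ℝ) (b : Fin m → ℝ) (ks : List Key) : Tab :=
  ks.map fun R => (R, signOut (val A b R))

theorem tr_tt {m n : ℕ} (A : Fin m → Fin n → ℝ) (b : Fin m → ℝ) (ks : List Key) :
    Tr A b (tt A b ks) ks := by
  intro R hR
  unfold sg tt
  induction ks with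
  | nil => simp at hR
  | cons K ks ih =>
    rw [List.map_cons, List.filter_cons]
    by_cases h : K = R
    · subst h
      simp
    · have h2 : R ∈ ks := by
        rcases List.mem_cons.1 hR with h3 | h3
        · exact absurd h3.symm h
        · exact h3
      simp only [decide_eq_true_eq, h, if_false]
      exact ih h2

/-! ### Extension of the index set -/

/-- Cutting off. -/
def ex (m : ℕ) (hm : 0 < m) (i : ℕ) : Fin m := ⟨min i (m - 1), by omega⟩

theorem ex_of_lt {m : ℕ} (hm : 0 < m) {i : ℕ} (hi : i < m) : ex m hm i = ⟨i, hi⟩ :=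
  Fin.ext (by show min i (m - 1) = i; omega)

theorem ex_mono {m : ℕ} (hm : 0 < m) : Monotone (ex m hm) := by
  intro i j hij
  show min i (m - 1) ≤ min j (m - 1)
  omega

variable {m ν : ℕ} (hm : 0 < m) (A : Fin m → Fin (ν + 1) → ℝ) (b : Fin m → ℝ)

theorem cons_tf (T : List ℕ) (p : ℕ) (i : Fin (ν + 1)) :
    (Fin.cons p (tf ν T) : Fin (ν + 1) → ℕ) i = (p :: T).getD i 0 := by
  refine Fin.cases ?_ (fun j => ?_) i
  · simp
  · simp [tf]

theorem dK_eq (p : ℕ) (T : List ℕ) (hT : T.length = ν) (hlt : ∀ t ∈ p :: T, t < m) :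
    dK p T = List.ofFn fun i : Fin (ν + 1) =>
      (((ex m hm ((Fin.cons p (tf ν T) : Fin (ν + 1) → ℕ) i) : Fin m) : ℕ), (i : ℕ)) := by
  unfold dK
  apply List.ext_getElem
  · simp [hT]
  · intro i h1 h2
    have hi : i < ν + 1 := by simpa using h2
    rw [List.getElem_zipIdx, List.getElem_ofFn, cons_tf]
    have h3 : (p :: T).getD i 0 = (p :: T)[i]'(by simp [hT]; omega) :=
      List.getD_eq_getElem _ _ _
    simp only [zero_add]
    rw [h3, ex_of_lt hm (hlt _ (List.getElem_mem _))]

theorem val_dK (p : ℕ) (T : List ℕ) (hT : T.length = ν) (hlt : ∀ t ∈ p :: T, t < m)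
    (hnd : (p :: T).Nodup) :
    val A b (dK p T) = dt (fun i => A (ex m hm i)) (Fin.cons p (tf ν T)) := by
  rw [dK_eq hm p T hT hlt]
  have hinj : Function.Injective fun i : Fin (ν + 1) =>
      ex m hm ((Fin.cons p (tf ν T) : Fin (ν + 1) → ℕ) i) := by
    intro i j hij
    simp only [cons_tf] at hij
    have hi : (i : ℕ) < (p :: T).length := by simp only [List.length_cons, hT]; omega
    have hj : (j : ℕ) < (p :: T).length := by simp only [List.length_cons, hT]; omega
    rw [List.getD_eq_getElem _ _ hi, List.getD_eq_getElem _ _ hj,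
      ex_of_lt hm (hlt _ (List.getElem_mem _)), ex_of_lt hm (hlt _ (List.getElem_mem _))] at hij
    have h2 := Fin.mk.inj hij
    exact Fin.ext ((List.Nodup.getElem_inj_iff hnd).1 h2)
  rw [val_eq A b _ hinj (fun i => (i : ℕ)) (fun i => i.2.le)]
  unfold dt
  congr 1
  ext i j
  simp only [Matrix.of_apply]
  unfold ext
  rw [dif_pos j.2]

theorem vK_eq (q p : ℕ) (T : List ℕ) (hT : T.length = ν) (hlt : ∀ t ∈ q :: p :: T, t < m) :
    vK (ν + 1) q p T = List.ofFn fun i : Fin (ν + 2) =>
      (((ex m hm ((Fin.cons q (Fin.cons p (tf ν T)) : Fin (ν + 2) → ℕ) i) : Fin m) : ℕ),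
        (Fin.cons (ν + 1) (fun i : Fin (ν + 1) => (i : ℕ)) : Fin (ν + 2) → ℕ) i) := by
  unfold vK
  rw [dK_eq hm p T hT (fun t ht => hlt t (List.mem_cons_of_mem _ ht))]
  conv_rhs => rw [List.ofFn_succ]
  congr 1
  simp only [Fin.cons_zero]
  rw [ex_of_lt hm (hlt _ List.mem_cons_self)]

theorem val_vK (q p : ℕ) (T : List ℕ) (hT : T.length = ν) (hlt : ∀ t ∈ q :: p :: T, t < m)
    (hnd : (q :: p :: T).Nodup) :
    val A b (vK (ν + 1) q p T) =
      - bd (fun i => A (ex m hm i)) (fun i => b (ex m hm i)) (Fin.cons q (Fin.cons p (tf ν T))) := by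
  rw [vK_eq hm q p T hT hlt]
  have hget : ∀ i : Fin (ν + 2), (Fin.cons q (Fin.cons p (tf ν T)) : Fin (ν + 2) → ℕ) i =
      (q :: p :: T).getD i 0 := by
    intro i
    refine Fin.cases ?_ (fun j => ?_) i
    · simp
    · rw [Fin.cons_succ, cons_tf]; simp
  have hinj : Function.Injective fun i : Fin (ν + 2) =>
      ex m hm ((Fin.cons q (Fin.cons p (tf ν T)) : Fin (ν + 2) → ℕ) i) := by
    intro i j hij
    simp only [hget] at hij
    have hi : (i : ℕ) < (q :: p :: T).length := by simp only [List.length_cons, hT]; omega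
    have hj : (j : ℕ) < (q :: p :: T).length := by simp only [List.length_cons, hT]; omega
    rw [List.getD_eq_getElem _ _ hi, List.getD_eq_getElem _ _ hj,
      ex_of_lt hm (hlt _ (List.getElem_mem _)), ex_of_lt hm (hlt _ (List.getElem_mem _))] at hij
    have h2 := Fin.mk.inj hij
    exact Fin.ext ((List.Nodup.getElem_inj_iff hnd).1 h2)
  rw [val_eq A b _ hinj _ (fun i => by
    refine Fin.cases ?_ (fun j => ?_) i
    · simp
    · simp only [Fin.cons_succ]; omega)]
  have h1 : (Matrix.of fun i j : Fin (ν + 2) => ext A b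
      (ex m hm ((Fin.cons q (Fin.cons p (tf ν T)) : Fin (ν + 2) → ℕ) i))
      ((Fin.cons (ν + 1) (fun i : Fin (ν + 1) => (i : ℕ)) : Fin (ν + 2) → ℕ) j)).det =
      bd (fun i => A (ex m hm i)) (fun i => - b (ex m hm i)) (Fin.cons q (Fin.cons p (tf ν T))) := by
    unfold bd
    congr 1
    ext i j
    simp only [Matrix.of_apply]
    refine Fin.cases ?_ (fun j => ?_) j
    · simp only [Fin.cons_zero]
      unfold ext
      rw [dif_neg (lt_irrefl _)]
    · simp only [Fin.cons_succ]
      unfold ext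
      rw [dif_pos j.2]
  rw [h1, bd_eq, bd_eq, ← Finset.sum_neg_distrib]
  refine Finset.sum_congr rfl fun i _ => ?_
  ring

theorem val_one (i : Fin m) (c : Fin (ν + 1)) : val A b [((i : ℕ), (c : ℕ))] = A i c := by
  have h := val_eq A b (fun _ : Fin 1 => i) (Function.injective_of_subsingleton _)
    (fun _ => (c : ℕ)) (fun _ => c.2.le)
  have e : (List.ofFn fun _ : Fin 1 => ((i : ℕ), (c : ℕ))) = [((i : ℕ), (c : ℕ))] := by
    simp
  rw [e] at h
  rw [h, Matrix.det_fin_one]
  simp only [Matrix.of_apply]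
  unfold ext
  rw [dif_pos c.2]

theorem val_two (i j : Fin m) (hij : i ≠ j) (c c' : ℕ) (hc : c ≤ ν + 1) (hc' : c' ≤ ν + 1) :
    val A b [((i : ℕ), c), ((j : ℕ), c')] =
      ext A b i c * ext A b j c' - ext A b i c' * ext A b j c := by
  have h := val_eq A b (![i, j] : Fin 2 → Fin m) (by
    intro x y hxy
    fin_cases x <;> fin_cases y <;> simp_all) (![c, c'] : Fin 2 → ℕ) (by
      intro x; fin_cases x <;> simp [hc, hc'])
  have e : (List.ofFn fun x : Fin 2 => (((![i, j] : Fin 2 → Fin m) x : ℕ), (![c, c'] : Fin 2 → ℕ) x)) =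
      [((i : ℕ), c), ((j : ℕ), c')] := by
    simp
  rw [e] at h
  rw [h, Matrix.det_fin_two]
  simp [Matrix.of_apply]

end Pool.Agent.L7h61.CH
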