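import Pool.Agent.L7h61.CH.Mach3
import Pool.Agent.L7h61.CH.Val2

set_option autoImplicit false

/-!
# Chebyshev systems: what the tables say
-/

namespace Pool.Agent.L7h61.CH

open Matrix
open Pool.Agent.NPC Pool.Agent.H558R2 Pool.Agent.H622R3.SM Pool.Agent.W920.FC

/-! ### Lists -/

theorem head_filter_spec {m : ℕ} {p : ℕ → Bool} {x : ℕ}
    (h : ((List.range m).filter p).head? = some x) : x < m ∧ p x = true := by
  have h1 := List.mem_of_mem_head? h
  have h2 := List.mem_filter.1 h1
  exact ⟨List.mem_range.1 h2.1, h2.2⟩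

theorem head_filter_none {m : ℕ} {p : ℕ → Bool} (h : ((List.range m).filter p).head? = none) :
    ∀ x < m, p x = false := by
  intro x hx
  rw [List.head?_eq_none_iff, List.filter_eq_nil_iff] at h
  have := h x (List.mem_range.2 hx)
  simpa using this

theorem zipIdx_take {α : Type} (l : List α) (n s : ℕ) :
    (((l.zipIdx s).filter fun x => decide (x.2 + 1 < n)).map fun x => x.1) =
      l.take (n - 1 - s) := by
  induction l generalizing s with
  | nil => simp
  | cons t l ih =>
    rw [List.zipIdx_cons, List.filter_cons]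
    by_cases h : s + 1 < n
    · rw [if_pos (by simpa using h), List.map_cons, ih]
      have e : n - 1 - s = (n - 1 - (s + 1)) + 1 := by omega
      rw [e, List.take_succ_cons]
    · rw [if_neg (by simpa using h), ih]
      have e : n - 1 - s = 0 := by omega
      have e' : n - 1 - (s + 1) = 0 := by omega
      rw [e, e', List.take_zero, List.take_zero]

theorem repl_eq_set (T : List ℕ) (p : ℕ)
    (h : (T.filter fun t => decide (t < p)).length ≠ 0) :
    repl T p = T.set ((T.filter fun t => decide (t < p)).length - 1) p := by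
  unfold repl
  set k := (T.filter fun t => decide (t < p)).length with hk
  apply List.ext_getElem
  · simp
  · intro i h1 h2
    rw [List.getElem_map, List.getElem_zipIdx, List.getElem_set]
    simp only [zero_add]
    by_cases h3 : i + 1 = k
    · rw [if_pos h3, if_pos (by omega)]
    · rw [if_neg h3, if_neg (by omega)]

variable {m ν N : ℕ} (hm : 0 < m) {A : Fin m → Fin (ν + 1) → ℝ} {b : Fin m → ℝ}
  {V : Fin N → Fin (ν + 1) → ℝ} {pos : ℕ → Fin N} {c : ℕ → ℝ}

/-! ### Vectors of a Chebyshev system -/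

theorem exists_ext (hN : ν + 1 ≤ N) (F : Finset (Fin N)) (hF : F.card ≤ ν + 1) :
    ∃ g : Fin (ν + 1) → Fin N, StrictMono g ∧ ∀ p ∈ F, ∃ i, g i = p := by
  obtain ⟨P, hPF, hPc⟩ := Finset.exists_superset_card_eq hF (by rw [Fintype.card_fin]; exact hN)
  refine ⟨P.orderEmbOfFin hPc, (P.orderEmbOfFin hPc).strictMono, fun p hp => ?_⟩
  have h2 : p ∈ Set.range (P.orderEmbOfFin hPc) := by
    rw [Finset.range_orderEmbOfFin]; exact hPF hp
  exact h2

theorem V_ne (hN : ν + 1 ≤ N) (hV : Pos V) (P : Fin N) : ∃ e, V P e ≠ 0 := by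
  obtain ⟨g, hg, hg2⟩ := exists_ext hN {P} (by simp)
  obtain ⟨i, hi⟩ := hg2 P (by simp)
  by_contra h
  push Not at h
  obtain ⟨s, hs⟩ := hV
  have h1 := hs g hg
  have h2 : dt V g = 0 := by
    unfold dt
    refine Matrix.det_eq_zero_of_row_eq_zero i fun e => ?_
    simp [hi, h]
  rw [h2, mul_zero] at h1
  exact lt_irrefl _ h1

theorem V_indep (hN : ν + 1 ≤ N) (hV : Pos V) (hν : 0 < ν) (P Q : Fin N) (hPQ : P ≠ Q) :
    ∃ e e', V P e * V Q e' - V P e' * V Q e ≠ 0 := by
  obtain ⟨g, hg, hg2⟩ := exists_ext hN {P, Q} (Finset.card_le_two.trans (by omega))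
  obtain ⟨i, hi⟩ := hg2 P (by simp)
  obtain ⟨j, hj⟩ := hg2 Q (by simp)
  have hij : i ≠ j := by
    rintro rfl
    exact hPQ (hi.symm.trans hj)
  by_contra h
  push Not at h
  obtain ⟨e0, he0⟩ := V_ne hN hV P
  obtain ⟨s, hs⟩ := hV
  have h1 := hs g hg
  have h2 : dt V g = 0 := by
    unfold dt
    rw [← Matrix.exists_vecMul_eq_zero_iff]
    refine ⟨fun l => (if l = j then V P e0 else 0) - (if l = i then V Q e0 else 0), ?_, ?_⟩
    · intro h3
      have h4 := congrFun h3 j
      simp [hij.symm] at h4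
      exact he0 h4
    · funext e
      show ∑ l, ((if l = j then V P e0 else 0) - (if l = i then V Q e0 else 0)) * V (g l) e = 0
      simp only [sub_mul, Finset.sum_sub_distrib, ite_mul, zero_mul, Finset.sum_ite_eq',
        Finset.mem_univ, if_true, hi, hj]
      have := h e0 e
      linarith
  rw [h2, mul_zero] at h1
  exact lt_irrefl _ h1

/-! ### Phase 1 -/

theorem mem_K0_one {m n i e : ℕ} (hi : i < m) (he : e < n) : [(i, e)] ∈ K0 m n := by
  unfold K0
  refine List.mem_flatMap.2 ⟨i, List.mem_range.2 hi, List.mem_flatMap.2 ⟨e, List.mem_range.2 he, ?_⟩⟩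
  exact List.mem_cons_self

theorem mem_K0_two {m n i e j e' : ℕ} (hi : i < m) (he : e < n) (hj : j < m) (he' : e' ≤ n) :
    [(i, e), (j, e')] ∈ K0 m n := by
  unfold K0
  refine List.mem_flatMap.2 ⟨i, List.mem_range.2 hi, List.mem_flatMap.2 ⟨e, List.mem_range.2 he, ?_⟩⟩
  refine List.mem_cons_of_mem _ (List.mem_flatMap.2 ⟨j, List.mem_range.2 hj, ?_⟩)
  exact List.mem_map.2 ⟨e', List.mem_range.2 (by omega), rfl⟩

/-- The rows as a function on all numbers. -/
def aN (A : Fin m → Fin (ν + 1) → ℝ) (i : ℕ) : Fin (ν + 1) → ℝ := A (ex m hm i)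

/-- The right-hand side as a function on all numbers. -/
def bN (b : Fin m → ℝ) (i : ℕ) : ℝ := b (ex m hm i)

variable {L : Tab}

theorem sg_one (hL : Tr A b L (K0 m (ν + 1))) {i : ℕ} (hi : i < m) (e : Fin (ν + 1)) :
    sg L [(i, (e : ℕ))] = signOut (aN hm A i e) := by
  rw [hL _ (mem_K0_one hi e.2)]
  have := val_one A b ⟨i, hi⟩ e
  simp only at this
  rw [this]
  unfold aN
  rw [ex_of_lt hm hi]

theorem ext_fin (A : Fin m → Fin (ν + 1) → ℝ) (b : Fin m → ℝ) (i : Fin m) (e : Fin (ν + 1)) :
    ext A b i e = A i e := by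
  unfold ext
  rw [dif_pos e.2]

theorem ext_rhs (A : Fin m → Fin (ν + 1) → ℝ) (b : Fin m → ℝ) (i : Fin m) :
    ext A b i (ν + 1) = - b i := by
  unfold ext
  rw [dif_neg (lt_irrefl _)]

theorem sg_two (hL : Tr A b L (K0 m (ν + 1))) {i j : ℕ} (hi : i < m) (hj : j < m) (hij : i ≠ j)
    (e e' : Fin (ν + 1)) :
    sg L [(i, (e : ℕ)), (j, (e' : ℕ))] =
      signOut (aN hm A i e * aN hm A j e' - aN hm A i e' * aN hm A j e) := by
  rw [hL _ (mem_K0_two hi e.2 hj e'.2.le)]
  have := val_two A b ⟨i, hi⟩ ⟨j, hj⟩ (fun h => hij (Fin.mk.inj h)) e e' e.2.le e'.2.le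
  simp only at this
  rw [this, ext_fin, ext_fin, ext_fin, ext_fin]
  unfold aN
  rw [ex_of_lt hm hi, ex_of_lt hm hj]

theorem sg_rhs (hL : Tr A b L (K0 m (ν + 1))) {i j : ℕ} (hi : i < m) (hj : j < m) (hij : i ≠ j)
    (e : Fin (ν + 1)) :
    sg L [(i, (e : ℕ)), (j, ν + 1)] =
      signOut (- (aN hm A i e * bN hm b j - bN hm b i * aN hm A j e)) := by
  rw [hL _ (mem_K0_two hi e.2 hj le_rfl)]
  have := val_two A b ⟨i, hi⟩ ⟨j, hj⟩ (fun h => hij (Fin.mk.inj h)) e (ν + 1) e.2.le le_rfl
  simp only at this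
  rw [this, ext_fin, ext_fin, ext_rhs, ext_rhs]
  unfold aN bN
  rw [ex_of_lt hm hi, ex_of_lt hm hj]
  congr 1
  ring

theorem col_spec (H : Cheb (aN hm A) V pos c) (hL : Tr A b L (K0 m (ν + 1))) {i : ℕ}
    (hi : i < m) : ∃ e : Fin (ν + 1), col (ν + 1) L i = e ∧ V (pos i) e ≠ 0 := by
  unfold col
  cases h : ((List.range (ν + 1)).filter fun e => decide (sg L [(i, e)] ≠ none)).head? with
  | none =>
    exfalso
    obtain ⟨e, he⟩ := V_ne H.hN H.hV (pos i)
    have h1 := head_filter_none h e e.2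
    rw [sg_one hm hL hi] at h1
    simp only [ne_eq, signOut_eq_none, decide_eq_false_iff_not, not_not] at h1
    rw [H.ha] at h1
    simp only [Pi.smul_apply, smul_eq_mul, mul_eq_zero] at h1
    rcases h1 with h1 | h1
    · exact H.hc i h1
    · exact he h1
  | some e =>
    obtain ⟨he, h1⟩ := head_filter_spec h
    refine ⟨⟨e, he⟩, rfl, ?_⟩
    have h2 := sg_one hm hL hi ⟨e, he⟩
    simp only at h2
    rw [h2] at h1
    simp only [ne_eq, signOut_eq_none, decide_eq_true_eq] at h1
    intro h3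
    apply h1
    rw [H.ha]
    simp [h3]

/-- The table of the parallel rows. -/
def ParOK (pos : ℕ → Fin N) (m n : ℕ) (L : Tab) : Prop :=
  ∀ i < m, ∀ j < m, par n L i j = true ↔ pos i = pos j

theorem par_of_eq (H : Cheb (aN hm A) V pos c) (hL : Tr A b L (K0 m (ν + 1))) {i j : ℕ}
    (hi : i < m) (hj : j < m) (hp : pos i = pos j) : par (ν + 1) L i j = true := by
  unfold par
  by_cases hij : i = j
  · simp [hij]
  · simp only [hij, decide_false, Bool.false_or, List.all_eq_true, decide_eq_true_eq]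
    intro e he e' he'
    have h := sg_two hm hL hi hj hij ⟨e, List.mem_range.1 he⟩ ⟨e', List.mem_range.1 he'⟩
    simp only at h
    rw [h, signOut_eq_none, H.ha i, H.ha j, hp]
    simp
    ring

theorem parOK (H : Cheb (aN hm A) V pos c) (hL : Tr A b L (K0 m (ν + 1))) (hν : 0 < ν) :
    ParOK pos m (ν + 1) L := by
  intro i hi j hj
  refine ⟨fun h => ?_, fun h => par_of_eq hm H hL hi hj h⟩
  by_contra hp
  have hij : i ≠ j := fun h => hp (h ▸ rfl)
  unfold par at h
  simp only [hij, decide_false, Bool.false_or, List.all_eq_true, decide_eq_true_eq] at h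
  obtain ⟨e, e', he⟩ := V_indep H.hN H.hV hν _ _ hp
  have h1 := h e (List.mem_range.2 e.2) e' (List.mem_range.2 e'.2)
  rw [sg_two hm hL hi hj hij, signOut_eq_none, H.ha i, H.ha j] at h1
  simp only [Pi.smul_apply, smul_eq_mul] at h1
  have h2 : c i * V (pos i) e * (c j * V (pos j) e') - c i * V (pos i) e' * (c j * V (pos j) e) =
      (c i * c j) * (V (pos i) e * V (pos j) e' - V (pos i) e' * V (pos j) e) := by ring
  rw [h2] at h1
  exact mul_ne_zero (mul_ne_zero (H.hc i) (H.hc j)) he h1

theorem opd_iff (H : Cheb (aN hm A) V pos c) (hL : Tr A b L (K0 m (ν + 1))) {i j : ℕ}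
    (hi : i < m) (hj : j < m) (hp : pos i = pos j) : opd (ν + 1) L i j = true ↔ c i * c j < 0 := by
  obtain ⟨e, he, hv⟩ := col_spec hm H hL hi
  unfold opd
  rw [he, sg_one hm hL hi, sg_one hm hL hj, ng_iff, H.ha i, H.ha j, ← hp]
  simp only [Pi.smul_apply, smul_eq_mul]
  have h1 : c i * V (pos i) e * (c j * V (pos i) e) = (V (pos i) e * V (pos i) e) * (c i * c j) := by
    ring
  rw [h1]
  have h2 : 0 < V (pos i) e * V (pos i) e := mul_self_pos.2 hv
  exact ⟨fun h => neg_of_mul h2 h, fun h => mul_neg_of_pos_of_neg h2 h⟩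

theorem smd_iff (H : Cheb (aN hm A) V pos c) (hL : Tr A b L (K0 m (ν + 1))) {i j : ℕ}
    (hi : i < m) (hj : j < m) (hp : pos i = pos j) : smd (ν + 1) L i j = true ↔ 0 < c i * c j := by
  obtain ⟨e, he, hv⟩ := col_spec hm H hL hi
  unfold smd
  rw [he, sg_one hm hL hi, sg_one hm hL hj, ps_iff, H.ha i, H.ha j, ← hp]
  simp only [Pi.smul_apply, smul_eq_mul]
  have h1 : c i * V (pos i) e * (c j * V (pos i) e) = (V (pos i) e * V (pos i) e) * (c i * c j) := by
    ring
  rw [h1]
  have h2 : 0 < V (pos i) e * V (pos i) e := mul_self_pos.2 hv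
  exact ⟨fun h => (pos_iff_pos_of_mul_pos h).1 h2, fun h => mul_pos h2 h⟩

theorem cmp_iff (H : Cheb (aN hm A) V pos c) (hL : Tr A b L (K0 m (ν + 1))) {i j : ℕ}
    (hi : i < m) (hj : j < m) (hij : i ≠ j) (hp : pos i = pos j) :
    cmp (ν + 1) L i j = true ↔ 0 < c i * (c i * bN hm b j - c j * bN hm b i) := by
  obtain ⟨e, he, hv⟩ := col_spec hm H hL hi
  unfold cmp
  rw [he, sg_one hm hL hi, sg_rhs hm hL hi hj hij, ng_iff, H.ha i, H.ha j, ← hp]
  simp only [Pi.smul_apply, smul_eq_mul]
  have h1 : c i * V (pos i) e * -(c i * V (pos i) e * bN hm b j - bN hm b i * (c j * V (pos i) e)) =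
      (V (pos i) e * V (pos i) e) * (-(c i * (c i * bN hm b j - c j * bN hm b i))) := by
    ring
  rw [h1]
  have h2 : 0 < V (pos i) e * V (pos i) e := mul_self_pos.2 hv
  constructor
  · intro h
    have := neg_of_mul h2 h
    linarith
  · intro h
    exact mul_neg_of_pos_of_neg h2 (by linarith)

theorem nv_of_viol (H : Cheb (aN hm A) V pos c) (hL : Tr A b L (K0 m (ν + 1)))
    (hpar : ParOK pos m (ν + 1) L) (h : viol m (ν + 1) L = false) : NV pos c (bN hm b) m := by
  intro i j hi hj hp hci hcj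
  by_contra hcon
  push Not at hcon
  have hij : i ≠ j := by
    rintro rfl
    exact lt_asymm hci hcj
  unfold viol at h
  rw [List.any_eq_false] at h
  have h1 := h i (List.mem_range.2 hi)
  rw [Bool.not_eq_true, List.any_eq_false] at h1
  have h2 := h1 j (List.mem_range.2 hj)
  apply h2
  simp only [Bool.and_eq_true, decide_eq_true_eq]
  refine ⟨hij, (hpar i hi j hj).2 hp, (opd_iff hm H hL hi hj hp).2 (mul_neg_of_pos_of_neg hci hcj),
    (cmp_iff hm H hL hi hj hij hp).2 ?_⟩
  have h3 : c i * bN hm b j - c j * bN hm b i =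
      (-(c i * c j)) * (bN hm b i / c i - bN hm b j / c j) := by
    have e1 : c i ≠ 0 := hci.ne'
    have e2 : c j ≠ 0 := hcj.ne
    field_simp
    ring
  rw [h3]
  have h4 : 0 < -(c i * c j) := by
    have := mul_neg_of_pos_of_neg hci hcj
    linarith
  exact mul_pos hci (mul_pos h4 (by linarith))

theorem inf_of_viol (H : Cheb (aN hm A) V pos c) (hL : Tr A b L (K0 m (ν + 1)))
    (hpar : ParOK pos m (ν + 1) L) (h : viol m (ν + 1) L = true) : Inf (aN hm A) (bN hm b) m := by
  unfold viol at h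
  rw [List.any_eq_true] at h
  obtain ⟨i, hi, h1⟩ := h
  rw [List.any_eq_true] at h1
  obtain ⟨j, hj, h2⟩ := h1
  rw [List.mem_range] at hi hj
  simp only [Bool.and_eq_true, decide_eq_true_eq] at h2
  obtain ⟨hij, h3, h4, h5⟩ := h2
  have hp := (hpar i hi j hj).1 h3
  rw [opd_iff hm H hL hi hj hp] at h4
  rw [cmp_iff hm H hL hi hj hij hp] at h5
  rintro ⟨y, hy⟩
  have s1 := hy i hi
  have s2 := hy j hj
  set v := V (pos i) ⬝ᵥ y with hvd
  have e1 : sl (aN hm A) (bN hm b) y i = c i * v - bN hm b i := by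
    unfold sl
    rw [H.ha i, smul_dotProduct, smul_eq_mul]
  have e2 : sl (aN hm A) (bN hm b) y j = c j * v - bN hm b j := by
    unfold sl
    rw [H.ha j, smul_dotProduct, smul_eq_mul, hvd, hp]
  rw [e1] at s1
  rw [e2] at s2
  have h6 : 0 < c i * c i := mul_self_pos.2 (H.hc i)
  have h7 : c i * (c i * bN hm b j - c j * bN hm b i) =
      -((c i * c i) * (c j * v - bN hm b j)) + (c i * c j) * (c i * v - bN hm b i) := by ring
  rw [h7] at h5
  have h8 := mul_nonneg h6.le s2
  have h9 := mul_nonpos_of_nonpos_of_nonneg h4.le s1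
  linarith

theorem best_spec (H : Cheb (aN hm A) V pos c) (hL : Tr A b L (K0 m (ν + 1)))
    (hpar : ParOK pos m (ν + 1) L) {k : ℕ} (hk : k < m) :
    best m (ν + 1) L k < m ∧ pos (best m (ν + 1) L k) = pos k ∧
      0 < c (best m (ν + 1) L k) * c k ∧ Bst pos c (bN hm b) m (best m (ν + 1) L k) := by
  classical
  have key : ∀ j < m, (decide (j = k ∨ (par (ν + 1) L k j = true ∧ smd (ν + 1) L k j = true)) &&
      (List.range m).all fun l => !(decide (l ≠ j) && (par (ν + 1) L j l &&
        (smd (ν + 1) L j l && cmp (ν + 1) L j l)))) = true ↔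
      (pos j = pos k ∧ 0 < c j * c k) ∧ Bst pos c (bN hm b) m j := by
    intro j hj
    rw [Bool.and_eq_true, decide_eq_true_eq, List.all_eq_true]
    refine and_congr ?_ ?_
    · constructor
      · rintro (h | ⟨h1, h2⟩)
        · subst h
          exact ⟨rfl, mul_self_pos.2 (H.hc _)⟩
        · have hp := (hpar k hk j hj).1 h1
          rw [smd_iff hm H hL hk hj hp] at h2
          exact ⟨hp.symm, by rw [mul_comm]; exact h2⟩
      · rintro ⟨h1, h2⟩
        right
        exact ⟨(hpar k hk j hj).2 h1.symm, (smd_iff hm H hL hk hj h1.symm).2 (by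
          rw [mul_comm]; exact h2)⟩
    · constructor
      · intro h l hl hp hc
        by_cases hlj : l = j
        · subst hlj
          have : c l * (c l * bN hm b l - c l * bN hm b l) = 0 := by ring
          exact this.le
        · have h1 := h l (List.mem_range.2 hl)
          simp only [Bool.not_eq_true', Bool.and_eq_false_iff, decide_eq_false_iff_not] at h1
          rcases h1 with h1 | h1 | h1 | h1
          · exact absurd hlj h1
          · rw [(hpar j hj l hl).2 hp.symm] at h1
            exact absurd h1 (by simp)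
          · rw [(smd_iff hm H hL hj hl hp.symm).2 (by rw [mul_comm]; exact hc)] at h1
            exact absurd h1 (by simp)
          · by_contra h2
            push Not at h2
            rw [(cmp_iff hm H hL hj hl (Ne.symm hlj) hp.symm).2 h2] at h1
            exact absurd h1 (by simp)
      · intro h l hl
        rw [List.mem_range] at hl
        by_contra h1
        simp only [Bool.not_eq_true, Bool.not_eq_false', Bool.and_eq_true, decide_eq_true_eq] at h1
        obtain ⟨h2, h3, h4, h5⟩ := h1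
        have hp := (hpar j hj l hl).1 h3
        rw [smd_iff hm H hL hj hl hp] at h4
        rw [cmp_iff hm H hL hj hl (Ne.symm h2) hp] at h5
        exact absurd h5 (not_lt.2 (h l hl hp.symm (by rw [mul_comm]; exact h4)))
  unfold best
  cases h : ((List.range m).filter fun j =>
    decide (j = k ∨ (par (ν + 1) L k j = true ∧ smd (ν + 1) L k j = true)) &&
    (List.range m).all fun l => !(decide (l ≠ j) && (par (ν + 1) L j l &&
      (smd (ν + 1) L j l && cmp (ν + 1) L j l)))).head? with
  | some x =>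
    obtain ⟨hx, h1⟩ := head_filter_spec h
    have h2 := (key x hx).1 h1
    exact ⟨hx, h2.1.1, h2.1.2, h2.2⟩
  | none =>
    exfalso
    have h0 := head_filter_none h
    set F := (Finset.range m).filter fun j => pos j = pos k ∧ 0 < c j * c k with hF
    have hkF : k ∈ F := by
      rw [hF, Finset.mem_filter, Finset.mem_range]
      exact ⟨hk, rfl, mul_self_pos.2 (H.hc _)⟩
    obtain ⟨j, hjF, hjmax⟩ := Finset.exists_max_image F (fun j => bN hm b j / |c j|) ⟨k, hkF⟩
    rw [hF, Finset.mem_filter, Finset.mem_range] at hjF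
    have h1 := h0 j hjF.1
    have h2 : Bst pos c (bN hm b) m j := by
      intro l hl hp hc
      have hlF : l ∈ F := by
        rw [hF, Finset.mem_filter, Finset.mem_range]
        refine ⟨hl, hp.trans hjF.2.1, ?_⟩
        have h3 := mul_pos hc hjF.2.2
        have h4 : c l * c j * (c j * c k) = (c j * c j) * (c l * c k) := by ring
        rw [h4] at h3
        exact (pos_iff_pos_of_mul_pos h3).1 (mul_self_pos.2 (H.hc _))
      have h5 : bN hm b l / |c l| ≤ bN hm b j / |c j| := hjmax l hlF
      have h6 : 0 < |c l| := abs_pos.2 (H.hc l)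
      have h7 : 0 < |c j| := abs_pos.2 (H.hc j)
      have h8 : c l * c j = |c l| * |c j| := by rw [← abs_mul, abs_of_pos hc]
      have h9 : c j * c j = |c j| * |c j| := (abs_mul_abs_self _).symm
      have h10 : c j * (c j * bN hm b l - c l * bN hm b j) =
          |c j| * (|c j| * |c l|) * (bN hm b l / |c l| - bN hm b j / |c j|) := by
        have e1 : c j * (c j * bN hm b l - c l * bN hm b j) =
          (c j * c j) * bN hm b l - (c l * c j) * bN hm b j := by ring
        rw [e1, h8, h9]
        field_simp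
      rw [h10]
      exact mul_nonpos_of_nonneg_of_nonpos (mul_pos h7 (mul_pos h7 h6)).le (by linarith)
    have h3 := (key j hjF.1).2 ⟨hjF.2, h2⟩
    rw [h1] at h3
    exact Bool.noConfusion h3

end Pool.Agent.L7h61.CH
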