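import Pool.Agent.L7h61.CH.Spec

set_option autoImplicit false

/-!
# Chebyshev systems: what the tables say, continued
-/

namespace Pool.Agent.L7h61.CH

open Matrix
open Pool.Agent.NPC Pool.Agent.H558R2 Pool.Agent.H622R3.SM Pool.Agent.W920.FC

variable {m ν N : ℕ} (hm : 0 < m) {A : Fin m → Fin (ν + 1) → ℝ} {b : Fin m → ℝ}
  {V : Fin N → Fin (ν + 1) → ℝ} {pos : ℕ → Fin N} {c : ℕ → ℝ} {L L' M : Tab}

/-! ### Classes -/

theorem mem_Qs {n : ℕ} (hpar : ParOK pos m n L) (i : ℕ) :
    i ∈ Qs m n L ↔ i < m ∧ ∀ j < i, pos j ≠ pos i := by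
  unfold Qs
  rw [List.mem_filter, List.mem_range, List.all_eq_true]
  refine and_congr_right fun hi => ?_
  constructor
  · intro h j hj hp
    have h1 := h j (List.mem_range.2 (hj.trans hi))
    rw [(hpar j (hj.trans hi) i hi).2 hp] at h1
    simp at h1
    omega
  · intro h j hj
    rw [List.mem_range] at hj
    rcases Nat.lt_or_ge j i with h1 | h1
    · have h2 : par n L j i = false := by
        rw [← Bool.not_eq_true, hpar j hj i hi]
        exact h j h1
      rw [h2]; simp
    · simp [h1]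

theorem Qs_sorted (m n : ℕ) (L : Tab) : (Qs m n L).Pairwise (· < ·) := by
  unfold Qs
  exact List.pairwise_lt_range.filter _

theorem Qs_nodup (m n : ℕ) (L : Tab) : (Qs m n L).Nodup :=
  (Qs_sorted m n L).imp fun h => h.ne

theorem Qs_inj {n : ℕ} (hpar : ParOK pos m n L) {i j : ℕ} (hi : i ∈ Qs m n L) (hj : j ∈ Qs m n L)
    (hp : pos i = pos j) : i = j := by
  rw [mem_Qs hpar] at hi hj
  rcases lt_trichotomy i j with h | h | h
  · exact absurd hp (hj.2 i h)
  · exact h
  · exact absurd hp.symm (hi.2 j h)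

theorem exists_rep {n : ℕ} (hpar : ParOK pos m n L) {i : ℕ} (hi : i < m) :
    ∃ j ∈ Qs m n L, pos j = pos i := by
  classical
  have hex : ∃ j, pos j = pos i := ⟨i, rfl⟩
  refine ⟨Nat.find hex, (mem_Qs hpar _).2 ⟨lt_of_le_of_lt (Nat.find_min' hex rfl) hi,
    fun j hj h => ?_⟩, Nat.find_spec hex⟩
  exact Nat.find_min hex hj (h.trans (Nat.find_spec hex))

/-- With few classes there is no alternating chain of length `ν + 2`. -/
theorem feas_of_few (H : Cheb (aN hm A) V pos c) (hpar : ParOK pos m (ν + 1) L)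
    (hv : NV pos c (bN hm b) m) (hQ : (Qs m (ν + 1) L).length ≤ ν + 1) :
    ¬ Inf (aN hm A) (bN hm b) m := by
  intro hinf
  obtain ⟨f, hf0, hf1, -⟩ := inf_chain H hv hinf
  choose g hg1 hg2 using fun i => exists_rep hpar (hf0 i)
  have hinj : Function.Injective g := by
    intro i j hij
    apply hf1.injective
    show pos (f i) = pos (f j)
    rw [← hg2, ← hg2, hij]
  have h1 : Finset.univ.image g ⊆ (Qs m (ν + 1) L).toFinset := by
    intro x hx
    obtain ⟨i, -, rfl⟩ := Finset.mem_image.1 hx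
    exact List.mem_toFinset.2 (hg1 i)
  have h2 := Finset.card_le_card h1
  rw [Finset.card_image_of_injective _ hinj, Finset.card_fin,
    List.toFinset_card_of_nodup (Qs_nodup _ _ _)] at h2
  omega

/-! ### Phase 2 -/

/-- The properties of the list `Rs`. -/
theorem Rs_spec {n : ℕ} (hmono : Monotone pos) (hpar : ParOK pos m n L) (hn : 0 < n)
    (hQ : n < (Qs m n L).length) {i : ℕ} (hi : i < m) :
    (Rs m n L i).length = n - 1 ∧ SPl pos (Rs m n L i) ∧
      ∀ t ∈ Rs m n L i, t < m ∧ pos t ≠ pos i ∧ pos t ≠ pos 0 := by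
  set R' := (Qs m n L).filter fun r => decide (r ≠ 0) && !(par n L r i) with hR'
  have hRs : Rs m n L i = R'.take (n - 1) := by
    unfold Rs
    exact zipIdx_take R' n 0
  have hmem : ∀ t ∈ R', t ∈ Qs m n L ∧ t ≠ 0 ∧ pos t ≠ pos i := by
    intro t ht
    rw [hR', List.mem_filter] at ht
    obtain ⟨h1, h2⟩ := ht
    simp only [Bool.and_eq_true, decide_eq_true_eq, Bool.not_eq_true'] at h2
    refine ⟨h1, h2.1, fun h3 => ?_⟩
    rw [(hpar t ((mem_Qs hpar t).1 h1).1 i hi).2 h3] at h2
    exact absurd h2.2 (by simp)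
  have hlen : n - 1 ≤ R'.length := by
    set B := (Qs m n L).filter fun r => !(decide (r ≠ 0) && !(par n L r i)) with hB
    have h1 : R'.length + B.length = (Qs m n L).length := by
      rw [hR', hB]
      exact (List.length_eq_length_filter_add _).symm
    have h2 : B.length ≤ 2 := by
      have hBn : B.Nodup := (Qs_nodup m n L).filter _
      obtain ⟨ρ, hρ1, hρ2⟩ := exists_rep hpar hi
      have hsub : B.toFinset ⊆ {0, ρ} := by
        intro x hx
        rw [List.mem_toFinset, hB, List.mem_filter] at hx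
        obtain ⟨hx1, hx2⟩ := hx
        rw [Finset.mem_insert, Finset.mem_singleton]
        by_cases hx0 : x = 0
        · exact Or.inl hx0
        · right
          simp only [ne_eq, hx0, not_false_eq_true, decide_true, Bool.true_and, Bool.not_not] at hx2
          have h3 := (hpar x ((mem_Qs hpar x).1 hx1).1 i hi).1 hx2
          exact Qs_inj hpar hx1 hρ1 (h3.trans hρ2.symm)
      have h3 := Finset.card_le_card hsub
      rw [List.toFinset_card_of_nodup hBn] at h3
      exact h3.trans Finset.card_le_two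
    omega
  rw [hRs]
  refine ⟨by rw [List.length_take]; omega, ?_, ?_⟩
  · have hs : (R'.take (n - 1)).Pairwise (· < ·) :=
      ((Qs_sorted m n L).filter _).take
    intro x y hxy hy
    have hx : x < (R'.take (n - 1)).length := hxy.trans hy
    rw [List.getD_eq_getElem _ _ hx, List.getD_eq_getElem _ _ hy]
    have h1 := List.pairwise_iff_getElem.1 hs x y hx hy hxy
    have m1 := hmem _ (List.mem_of_mem_take (List.getElem_mem hx))
    have m2 := hmem _ (List.mem_of_mem_take (List.getElem_mem hy))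
    refine lt_of_le_of_ne (hmono h1.le) fun h2 => ?_
    exact h1.ne (Qs_inj hpar m1.1 m2.1 h2)
  · intro t ht
    have h1 := hmem t (List.mem_of_mem_take ht)
    have h2 := (mem_Qs hpar t).1 h1.1
    exact ⟨h2.1, h1.2.2, fun h3 => h2.2 0 (Nat.pos_of_ne_zero h1.2.1) h3.symm⟩

theorem SPl.nodup {T : List ℕ} (h : SPl pos T) : T.Nodup := by
  rw [List.nodup_iff_injective_getElem]
  intro x y hxy
  rcases lt_trichotomy x y with h1 | h1 | h1
  · have h2 := h x y h1 y.2
    rw [List.getD_eq_getElem _ _ x.2, List.getD_eq_getElem _ _ y.2] at h2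
    simp only at hxy
    rw [hxy] at h2
    exact absurd h2 (lt_irrefl _)
  · exact h1
  · have h2 := h y x h1 x.2
    rw [List.getD_eq_getElem _ _ x.2, List.getD_eq_getElem _ _ y.2] at h2
    simp only at hxy
    rw [hxy] at h2
    exact absurd h2 (lt_irrefl _)

theorem ne_of_mem {T : List ℕ} {p : ℕ} (h : ∀ t ∈ T, pos t ≠ pos p) : p ∉ T :=
  fun hp => h p hp rfl

theorem mem_K1 {m n : ℕ} {L : Tab} {i : ℕ} (hi : i < m) :
    dK i (Rs m n L i) ∈ K1 m n L ∧ dK 0 (Rs m n L i) ∈ K1 m n L := by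
  unfold K1
  constructor
  · exact List.mem_flatMap.2 ⟨i, List.mem_range.2 hi, by simp⟩
  · exact List.mem_flatMap.2 ⟨i, List.mem_range.2 hi, by simp⟩

/-- **The relative signs of the factors.** -/
theorem rls_iff (H : Cheb (aN hm A) V pos c) (hpar : ParOK pos m (ν + 1) L)
    (hL' : Tr A b L' (K1 m (ν + 1) L)) (hQ : ν + 1 < (Qs m (ν + 1) L).length) {i : ℕ}
    (hi : i < m) : rls m (ν + 1) L L' i = true ↔ 0 < c i * c 0 := by
  obtain ⟨hlen, hsp, hmem⟩ := Rs_spec H.mono hpar (Nat.succ_pos ν) hQ hi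
  have hlen' : (Rs m (ν + 1) L i).length = ν := by rw [hlen]; rfl
  unfold rls
  set T := Rs m (ν + 1) L i with hT
  have hm1 := mem_K1 (n := ν + 1) (L := L) hi
  rw [← hT] at hm1
  have hlt : ∀ t ∈ i :: T, t < m := by
    intro t ht
    rcases List.mem_cons.1 ht with h | h
    · rw [h]; exact hi
    · exact (hmem t h).1
  have hlt0 : ∀ t ∈ 0 :: T, t < m := by
    intro t ht
    rcases List.mem_cons.1 ht with h | h
    · rw [h]; exact hm
    · exact (hmem t h).1
  have hnd : (i :: T).Nodup :=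
    List.nodup_cons.2 ⟨ne_of_mem fun t ht => (hmem t ht).2.1, hsp.nodup⟩
  have hnd0 : (0 :: T).Nodup :=
    List.nodup_cons.2 ⟨ne_of_mem fun t ht => (hmem t ht).2.2, hsp.nodup⟩
  have hTd : ∀ j < ν, T.getD j 0 ∈ T := fun j hj => getD_mem (by rw [hlen']; exact hj)
  rw [hL' _ hm1.1, hL' _ hm1.2, val_dK hm A b i T hlen' hlt hnd, val_dK hm A b 0 T hlen' hlt0 hnd0]
  have hrel := H.dt_mul (tf ν T) (hsp.strictMono hlen') i 0
    (fun j => (hmem _ (hTd j j.2)).2.1) (fun j => (hmem _ (hTd j j.2)).2.2)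
  have hc0 : cnt (fun j => (pos (tf ν T j) : ℕ)) (pos 0) = 0 := by
    unfold cnt
    rw [Finset.card_eq_zero, Finset.filter_eq_empty_iff]
    intro j _ hj
    exact absurd (H.mono (Nat.zero_le (tf ν T j))) (not_le.2 hj)
  rw [hc0, cnt_filter H.mono hlen' i (fun j hj => (hmem _ (hTd j hj)).2.1), pow_zero, one_mul] at hrel
  set k := (T.filter fun r => decide (r < i)).length with hk
  have hiff := ps_iff (u := dt (fun i => A (ex m hm i)) (Fin.cons i (tf ν T)))
    (v := dt (fun i => A (ex m hm i)) (Fin.cons 0 (tf ν T)))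
  have e1 : dt (fun i => A (ex m hm i)) (Fin.cons i (tf ν T)) =
    dt (aN hm A) (Fin.cons i (tf ν T)) := rfl
  have e2 : dt (fun i => A (ex m hm i)) (Fin.cons 0 (tf ν T)) =
    dt (aN hm A) (Fin.cons 0 (tf ν T)) := rfl
  rw [e1, e2] at hiff ⊢
  set D := dt (aN hm A) (Fin.cons i (tf ν T)) * dt (aN hm A) (Fin.cons 0 (tf ν T)) with hD
  rw [decide_eq_true_eq]
  rcases Nat.even_or_odd k with he | ho
  · have h1 : k % 2 = 0 := Nat.even_iff.1 he
    rw [he.neg_one_pow, one_mul] at hrel
    simp only [h1, decide_true]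
    rw [hiff]
    constructor
    · intro h; exact (pos_iff_pos_of_mul_pos hrel).2 h
    · intro h; exact (pos_iff_pos_of_mul_pos hrel).1 h
  · have h1 : ¬ k % 2 = 0 := by
      have := Nat.odd_iff.1 ho
      omega
    rw [ho.neg_one_pow] at hrel
    simp only [h1, decide_false]
    rw [← Bool.not_eq_true, hiff]
    have h2 : 0 < (c i * c 0) * (-D) := by linarith
    constructor
    · intro h
      by_contra h3
      push Not at h3
      have h4 : D ≤ 0 := not_lt.1 h
      have := mul_nonpos_of_nonpos_of_nonneg h3 (by linarith : 0 ≤ -D)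
      linarith
    · intro h h3
      have := mul_neg_of_pos_of_neg h (by linarith : -D < 0)
      linarith

theorem rls_eq_iff (H : Cheb (aN hm A) V pos c) (hpar : ParOK pos m (ν + 1) L)
    (hL' : Tr A b L' (K1 m (ν + 1) L)) (hQ : ν + 1 < (Qs m (ν + 1) L).length) {i j : ℕ}
    (hi : i < m) (hj : j < m) :
    (rls m (ν + 1) L L' i = rls m (ν + 1) L L' j ↔ 0 < c i * c j) ∧
    (rls m (ν + 1) L L' i ≠ rls m (ν + 1) L L' j ↔ c i * c j < 0) := by
  have h1 := rls_iff hm H hpar hL' hQ hi
  have h2 := rls_iff hm H hpar hL' hQ hj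
  have hci := H.hc i
  have hcj := H.hc j
  have hc0 := H.hc 0
  have key : rls m (ν + 1) L L' i = rls m (ν + 1) L L' j ↔ 0 < c i * c j := by
    rw [Bool.eq_iff_iff, h1, h2]
    have e1 : (c i * c 0) * (c j * c 0) = (c 0 * c 0) * (c i * c j) := by ring
    have e0 : 0 < c 0 * c 0 := mul_self_pos.2 hc0
    constructor
    · intro h
      rcases lt_or_gt_of_ne (mul_ne_zero hci hc0) with h3 | h3
      · have h4 : c j * c 0 < 0 := by
          rcases lt_or_gt_of_ne (mul_ne_zero hcj hc0) with h5 | h5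
          · exact h5
          · exact absurd (h.2 h5) (not_lt.2 h3.le)
        have h5 := mul_pos_of_neg_of_neg h3 h4
        rw [e1] at h5
        exact (pos_iff_pos_of_mul_pos h5).1 e0
      · have h5 := mul_pos h3 (h.1 h3)
        rw [e1] at h5
        exact (pos_iff_pos_of_mul_pos h5).1 e0
    · intro h
      have h5 := mul_pos e0 h
      rw [← e1] at h5
      exact pos_iff_pos_of_mul_pos h5
  refine ⟨key, ?_⟩
  rw [ne_eq, key, not_lt]
  exact ⟨fun h => lt_of_le_of_ne h (mul_ne_zero hci hcj), fun h => h.le⟩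

theorem opq_iff (H : Cheb (aN hm A) V pos c) (hpar : ParOK pos m (ν + 1) L)
    (hL' : Tr A b L' (K1 m (ν + 1) L)) (hQ : ν + 1 < (Qs m (ν + 1) L).length) {T : List ℕ} {k : ℕ}
    (hT : T ≠ []) (hlt : ∀ t ∈ T, t < m) (hk : k < m) :
    opq m (ν + 1) L L' T k = true ↔
      (pos (T.getD (T.length - 1) 0) ≠ pos k ∧ c (T.getD (T.length - 1) 0) * c k < 0) := by
  have hl : 0 < T.length := List.length_pos_iff.2 hT
  have hlm : lastT T < m := hlt _ (getD_mem (by omega))
  unfold opq
  rw [Bool.and_eq_true, Bool.not_eq_true', decide_eq_true_eq, ← Bool.not_eq_true,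
    hpar _ hlm _ hk, (rls_eq_iff hm H hpar hL' hQ hlm hk).2]
  rfl

/-! ### Phase 3 -/

theorem mem_K2_d {m n p : ℕ} {T : List ℕ} (hp : p < m) : dK p T ∈ K2 m n T := by
  unfold K2
  exact List.mem_flatMap.2 ⟨p, List.mem_range.2 hp, List.mem_cons_self⟩

theorem mem_K2_v {m n p q : ℕ} {T : List ℕ} (hp : p < m) (hq : q < m) :
    vK n q p T ∈ K2 m n T := by
  unfold K2
  exact List.mem_flatMap.2 ⟨p, List.mem_range.2 hp, List.mem_cons_of_mem _
    (List.mem_map.2 ⟨q, List.mem_range.2 hq, rfl⟩)⟩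

theorem sg_dK {T : List ℕ} (hM : Tr A b M (K2 m (ν + 1) T)) (hT : T.length = ν)
    (hlt : ∀ t ∈ T, t < m) {p : ℕ} (hp : p < m) (hnd : (p :: T).Nodup) :
    sg M (dK p T) = signOut (dt (aN hm A) (Fin.cons p (tf ν T))) := by
  rw [hM _ (mem_K2_d hp), val_dK hm A b p T hT (fun t ht => by
    rcases List.mem_cons.1 ht with h | h
    · rw [h]; exact hp
    · exact hlt t h) hnd]
  rfl

/-- The sign of the slack. -/
theorem neg_iff {T : List ℕ} (hM : Tr A b M (K2 m (ν + 1) T)) (hT : T.length = ν)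
    (hlt : ∀ t ∈ T, t < m) {p q : ℕ} (hp : p < m) (hq : q < m) (hnd : (q :: p :: T).Nodup)
    (hD : dt (aN hm A) (Fin.cons p (tf ν T)) ≠ 0) (x : Fin (ν + 1) → ℝ)
    (hx : ∀ i < ν, sl (aN hm A) (bN hm b) x (T.getD i 0) = 0)
    (hxp : sl (aN hm A) (bN hm b) x p = 0) :
    neg (ν + 1) M T p q = true ↔ sl (aN hm A) (bN hm b) x q < 0 := by
  unfold neg
  rw [sg_dK hm hM hT hlt hp (List.nodup_cons.1 hnd).2, hM _ (mem_K2_v hp hq),
    val_vK hm A b q p T hT (fun t ht => by
      rcases List.mem_cons.1 ht with h | h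
      · rw [h]; exact hq
      · rcases List.mem_cons.1 h with h | h
        · rw [h]; exact hp
        · exact hlt t h) hnd, ng_iff]
  have h1 := sl_cons (aN hm A) (bN hm b) q (Fin.cons p (tf ν T)) x (fun j => by
    refine Fin.cases ?_ (fun i => ?_) j
    · rw [Fin.cons_zero]; exact hxp
    · rw [Fin.cons_succ]; exact hx i i.2)
  have h2 : - bd (fun i => A (ex m hm i)) (fun i => b (ex m hm i))
      (Fin.cons q (Fin.cons p (tf ν T))) =
      sl (aN hm A) (bN hm b) x q * dt (aN hm A) (Fin.cons p (tf ν T)) := h1.symm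
  rw [h2]
  set D := dt (aN hm A) (Fin.cons p (tf ν T)) with hDd
  have h3 : 0 < D * D := mul_self_pos.2 hD
  have h4 : sl (aN hm A) (bN hm b) x q * D * D = (D * D) * sl (aN hm A) (bN hm b) x q := by ring
  rw [h4]
  exact ⟨fun h => neg_of_mul h3 h, fun h => mul_neg_of_pos_of_neg h3 h⟩

/-- The first constraint on the line. -/
theorem blk_iff (H : Cheb (aN hm A) V pos c) {T : List ℕ} {k : ℕ} {r : ℝ}
    (J : JD (aN hm A) pos c (bN hm b) m k T r)
    (hM : Tr A b M (K2 m (ν + 1) T)) {p : ℕ} (hp : p < m) :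
    blk m (ν + 1) M T k p = true ↔ p < k ∧ Blk (aN hm A) (bN hm b) T k p := by
  have hT := J.len
  have hlt := J.lt
  obtain ⟨hsp, hspk⟩ := J.sp.of_app
  have hTnd := hsp.nodup
  have hTk : ∀ t ∈ T, pos t < pos k := by
    intro t ht
    obtain ⟨i, hi, rfl⟩ := List.getElem_of_mem ht
    have := hspk i hi
    rwa [List.getD_eq_getElem _ _ hi] at this
  have hkT : k ∉ T := ne_of_mem fun t ht => (hTk t ht).ne
  have hsk : sg M (dK k T) = signOut (dt (aN hm A) (Fin.cons k (tf ν T))) :=
    sg_dK hm hM hT hlt J.km (List.nodup_cons.2 ⟨hkT, hTnd⟩)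
  -- facts for `p` not in `T`
  have hmain : p < k → p ∉ T → dt (aN hm A) (Fin.cons p (tf ν T)) ≠ 0 →
      ∀ z : Fin (ν + 1) → ℝ, (∀ i < ν, sl (aN hm A) (bN hm b) z (T.getD i 0) = 0) →
      sl (aN hm A) (bN hm b) z p = 0 →
      ((neg (ν + 1) M T p k && (List.range m).all fun q =>
        decide (k ≤ q) || (decide (q ∈ p :: T) || !(neg (ν + 1) M T p q))) = true ↔
        ((∀ q < k, 0 ≤ sl (aN hm A) (bN hm b) z q) ∧ sl (aN hm A) (bN hm b) z k < 0)) := by
    intro hpk hpT hD z hz hzp
    have hneg : ∀ q < m, q ∉ p :: T → (neg (ν + 1) M T p q = true ↔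
        sl (aN hm A) (bN hm b) z q < 0) := fun q hq hqT =>
      neg_iff hm hM hT hlt hp hq (List.nodup_cons.2 ⟨hqT, List.nodup_cons.2 ⟨hpT, hTnd⟩⟩) hD z hz hzp
    have hk' : k ∉ p :: T := by
      intro h
      rcases List.mem_cons.1 h with h | h
      · exact hpk.ne h.symm
      · exact hkT h
    rw [Bool.and_eq_true, hneg k J.km hk', and_comm, List.all_eq_true]
    refine and_congr_left fun _ => ?_
    constructor
    · intro h q hq
      have hqm := hq.trans J.km
      have h1 := h q (List.mem_range.2 hqm)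
      simp only [Bool.or_eq_true, decide_eq_true_eq, Bool.not_eq_true'] at h1
      rcases h1 with h1 | h1 | h1
      · omega
      · rcases List.mem_cons.1 h1 with h2 | h2
        · rw [h2, hzp]
        · obtain ⟨i, hi, rfl⟩ := List.getElem_of_mem h2
          have h3 := hz i (by rw [← hT]; exact hi)
          rw [List.getD_eq_getElem _ _ hi] at h3
          rw [h3]
      · by_cases h2 : q ∈ p :: T
        · rcases List.mem_cons.1 h2 with h2 | h2
          · rw [h2, hzp]
          · obtain ⟨i, hi, rfl⟩ := List.getElem_of_mem h2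
            have h3 := hz i (by rw [← hT]; exact hi)
            rw [List.getD_eq_getElem _ _ hi] at h3
            rw [h3]
        · by_contra h3
          push Not at h3
          rw [(hneg q hqm h2).2 h3] at h1
          exact Bool.noConfusion h1
    · intro h q hq
      rw [List.mem_range] at hq
      simp only [Bool.or_eq_true, decide_eq_true_eq, Bool.not_eq_true']
      by_cases h1 : k ≤ q
      · exact Or.inl h1
      · right
        by_cases h2 : q ∈ p :: T
        · exact Or.inl h2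
        · right
          rw [← Bool.not_eq_true, hneg q hq h2, not_lt]
          exact h q (not_le.1 h1)
  unfold blk
  rw [Bool.and_eq_true, decide_eq_true_eq]
  refine and_congr_right fun hpk => ?_
  by_cases hpT : p ∈ T
  · simp only [hpT, decide_true, Bool.not_true, Bool.false_and]
    constructor
    · intro h; exact absurd h (by simp)
    · rintro ⟨h1, -⟩
      obtain ⟨i, hi, hip⟩ := List.getElem_of_mem hpT
      have h2 := H.dt_cons_eq_zero (tf ν T) p ⟨i, by rw [← hT]; exact hi⟩ (by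
        unfold tf
        rw [List.getD_eq_getElem _ _ hi, hip])
      rw [h2, zero_mul] at h1
      exact absurd h1 (lt_irrefl _)
  · simp only [hpT, decide_false, Bool.not_false, Bool.true_and]
    rw [Bool.and_eq_true, sg_dK hm hM hT hlt hp (List.nodup_cons.2 ⟨hpT, hTnd⟩), hsk, ng_iff]
    constructor
    · rintro ⟨h1, h2⟩
      have hD : dt (aN hm A) (Fin.cons p (tf ν T)) ≠ 0 := by
        intro h
        rw [h, zero_mul] at h1
        exact lt_irrefl _ h1
      obtain ⟨z, hz⟩ := exists_vertex (aN hm A) (bN hm b) (Fin.cons p (tf ν T)) hD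
      have hzT : ∀ i < ν, sl (aN hm A) (bN hm b) z (T.getD i 0) = 0 := by
        intro i hi
        have := hz (Fin.succ ⟨i, hi⟩)
        rw [Fin.cons_succ] at this
        exact this
      have hzp : sl (aN hm A) (bN hm b) z p = 0 := hz 0
      have h3 := (hmain hpk hpT hD z hzT hzp).1 h2
      exact ⟨h1, z, hzT, hzp, h3.1, h3.2⟩
    · rintro ⟨h1, z, hzT, hzp, h3, h4⟩
      have hD : dt (aN hm A) (Fin.cons p (tf ν T)) ≠ 0 := by
        intro h
        rw [h, zero_mul] at h1
        exact lt_irrefl _ h1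
      exact ⟨h1, (hmain hpk hpT hD z hzT hzp).2 ⟨h3, h4⟩⟩

end Pool.Agent.L7h61.CH
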