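import Pool.Agent.L7h61.CH.Spec2
import Pool.Agent.L7h61.CH.Run

set_option autoImplicit false

/-!
# Chebyshev systems: the steps of the exchange algorithm
-/

namespace Pool.Agent.L7h61.CH

open Matrix
open Pool.Agent.NPC Pool.Agent.H558R2 Pool.Agent.H622R3.SM Pool.Agent.W920.FC

variable {m ν N : ℕ} (hm : 0 < m) {A : Fin m → Fin (ν + 1) → ℝ} {b : Fin m → ℝ}
  {V : Fin N → Fin (ν + 1) → ℝ} {pos : ℕ → Fin N} {c : ℕ → ℝ} {L L' M : Tab}

/-- The invariant of the exchange algorithm. -/
def Inv (a : ℕ → Fin (ν + 1) → ℝ) (pos : ℕ → Fin N) (c b : ℕ → ℝ) (m : ℕ) (s : St) : Prop :=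
  (s.2.2.2 = true ∧ Inf a b m) ∨ (s.2.2.2 = false ∧
    ((s.2.2.1 = [] ∧ s.1 ≤ m ∧ s.2.1.length ≤ ν ∧ (s.2.1 = [] → s.1 = 0) ∧
        ∃ r, JB pos c b m s.1 s.2.1 r) ∨
     (s.2.2.1 = [] ∧ ∃ r, JD a pos c b m s.1 s.2.1 r) ∨
     (∃ l, s.2.2.1 = [l] ∧ ∃ r, JR a pos c b m s.1 s.2.1 l r)))

/-- The potential. -/
def pot (s : St) : ℕ := s.1 + s.1 + (if s.2.2.1 = [] then 1 else 0) + s.2.1.sum

theorem inv_zero (a : ℕ → Fin (ν + 1) → ℝ) (b : ℕ → ℝ) : Inv a pos c b m s0 := by
  right
  refine ⟨rfl, Or.inl ⟨rfl, Nat.zero_le _, Nat.zero_le _, fun _ => rfl, 1, jb_zero m⟩⟩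

theorem down_step (H : Cheb (aN hm A) V pos c) (hv : NV pos c (bN hm b) m) (hν : 0 < ν)
    {k : ℕ} {T : List ℕ} {r : ℝ} (hM : Tr A b M (K2 m (ν + 1) T))
    (J : JD (aN hm A) pos c (bN hm b) m k T r) :
    Inv (aN hm A) pos c (bN hm b) m (down m (ν + 1) M k T) ∧
      ((down m (ν + 1) M k T).2.2.2 = true ∨
        k + k + 1 + T.sum < pot (down m (ν + 1) M k T)) := by
  unfold down
  cases h : ((List.range m).filter fun p => blk m (ν + 1) M T k p).head? with
  | none =>
    have h1 := head_filter_none h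
    have h2 : JR (aN hm A) pos c (bN hm b) m (k + 1) T k r := by
      refine J.none H fun p hp hB => ?_
      have h3 := h1 p (hp.trans J.km)
      rw [(blk_iff hm H J hM (hp.trans J.km)).2 ⟨hp, hB⟩] at h3
      exact Bool.noConfusion h3
    simp only [Option.map_none, Option.getD_none]
    refine ⟨Or.inr ⟨rfl, Or.inr (Or.inr ⟨k, rfl, r, h2⟩)⟩, Or.inr ?_⟩
    unfold pot
    simp only [List.cons_ne_nil, if_false]
    omega
  | some p =>
    obtain ⟨hp, h1⟩ := head_filter_spec h
    obtain ⟨hpk, hB⟩ := (blk_iff hm H J hM hp).1 h1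
    obtain ⟨h2, h3⟩ := J.some H hv hpk hB hν
    simp only [Option.map_some, Option.getD_some]
    by_cases h4 : (T.filter fun t => decide (t < p)).length = 0
    · rw [if_pos h4]
      exact ⟨Or.inl ⟨rfl, h2 h4⟩, Or.inl rfl⟩
    · rw [if_neg h4]
      obtain ⟨h5, h6⟩ := h3 h4
      rw [repl_eq_set T p h4]
      refine ⟨Or.inr ⟨rfl, Or.inr (Or.inl ⟨rfl, r, h5⟩)⟩, Or.inr ?_⟩
      unfold pot
      simp only [if_true]
      omega

theorem upd_step (H : Cheb (aN hm A) V pos c) (hpar : ParOK pos m (ν + 1) L)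
    (hL : Tr A b L (K0 m (ν + 1))) (hL' : Tr A b L' (K1 m (ν + 1) L))
    (hQ : ν + 1 < (Qs m (ν + 1) L).length) (hv : NV pos c (bN hm b) m) (hν : 0 < ν)
    (s : St) (hM : Tr A b M (K2 m (ν + 1) s.2.1))
    (hI : Inv (aN hm A) pos c (bN hm b) m s) (hb : s.2.2.2 = false) (hk : s.1 < m) :
    Inv (aN hm A) pos c (bN hm b) m (upd m (ν + 1) L L' M s) ∧
      ((upd m (ν + 1) L L' M s).2.2.2 = true ∨ pot s < pot (upd m (ν + 1) L L' M s)) := by
  obtain ⟨k, T, last, bad⟩ := s
  simp only at hb hk hM
  subst hb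
  unfold Inv at hI
  simp only [Bool.false_eq_true, false_and, false_or, true_and] at hI
  unfold upd
  simp only [Bool.false_eq_true, false_or]
  rw [if_neg (not_le.2 hk)]
  by_cases hT : T.length + 1 < ν + 1
  · rw [if_pos hT]
    rcases hI with ⟨hl, -, hTν, h0, r, J⟩ | ⟨-, r, J⟩ | ⟨l, -, r, J⟩
    · subst hl
      by_cases h1 : T = [] ∨ opq m (ν + 1) L L' T k = true
      · rw [if_pos h1]
        obtain ⟨b1, b2, b3, b4⟩ := best_spec hm H hL hpar hk
        have h2 : T = [] ∨ (T ≠ [] ∧ pos (T.getD (T.length - 1) 0) ≠ pos k ∧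
            c (T.getD (T.length - 1) 0) * c k < 0) := by
          by_cases h3 : T = []
          · exact Or.inl h3
          · right
            rcases h1 with h1 | h1
            · exact absurd h1 h3
            · exact ⟨h3, (opq_iff hm H hpar hL' hQ h3 J.lt hk).1 h1⟩
        obtain ⟨r', J'⟩ := J.app H.mono H.hc hk h2 b1 b2 b3 b4 h0
        refine ⟨Or.inr ⟨rfl, Or.inl ⟨rfl, hk, ?_, ?_, r', J'⟩⟩, Or.inr ?_⟩
        · simp only [List.length_append, List.length_singleton]
          omega
        · intro h3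
          simp at h3
        · unfold pot
          simp only [if_true, List.sum_append, List.sum_singleton]
          omega
      · rw [if_neg h1]
        push Not at h1
        obtain ⟨h2, h3⟩ := h1
        have h4 : pos (T.getD (T.length - 1) 0) = pos k ∨
            0 < c (T.getD (T.length - 1) 0) * c k := by
          by_contra h5
          push Not at h5
          apply h3
          rw [opq_iff hm H hpar hL' hQ h2 J.lt hk]
          exact ⟨h5.1, lt_of_le_of_ne h5.2 (mul_ne_zero (H.hc _) (H.hc _))⟩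
        refine ⟨Or.inr ⟨rfl, Or.inl ⟨rfl, hk, hTν, fun h => absurd h h2, r, J.skip hk h2 h4⟩⟩,
          Or.inr ?_⟩
        unfold pot
        simp only [if_true]
        omega
    · have := J.len
      omega
    · have := J.len
      omega
  · rw [if_neg hT]
    rcases hI with ⟨hl, -, hTν, h0, r, J⟩ | ⟨hl, r, J⟩ | ⟨l, hl, r, J⟩
    · subst hl
      rw [if_pos rfl]
      have hlen : T.length = ν := by omega
      have hT0 : T ≠ [] := by
        intro h
        rw [h] at hlen
        simp at hlen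
        omega
      by_cases h1 : opq m (ν + 1) L L' T k = true
      · rw [if_pos h1]
        obtain ⟨h2, h3⟩ := (opq_iff hm H hpar hL' hQ hT0 J.lt hk).1 h1
        have h4 := down_step hm H hv hν hM (J.far H hv hlen hT0 hk h2 h3)
        refine ⟨h4.1, ?_⟩
        rcases h4.2 with h5 | h5
        · exact Or.inl h5
        · right
          unfold pot at h5 ⊢
          simp only [if_true] at h5 ⊢
          exact h5
      · rw [if_neg h1]
        have h4 : pos (T.getD (T.length - 1) 0) = pos k ∨
            0 < c (T.getD (T.length - 1) 0) * c k := by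
          by_contra h5
          push Not at h5
          apply h1
          rw [opq_iff hm H hpar hL' hQ hT0 J.lt hk]
          exact ⟨h5.1, lt_of_le_of_ne h5.2 (mul_ne_zero (H.hc _) (H.hc _))⟩
        refine ⟨Or.inr ⟨rfl, Or.inl ⟨rfl, hk, hTν, fun h => absurd h hT0, r,
          J.skip hk hT0 h4⟩⟩, Or.inr ?_⟩
        unfold pot
        simp only [if_true]
        omega
    · subst hl
      rw [if_pos rfl]
      have hlen : T.length = ν := J.len
      have hT0 : T ≠ [] := by
        intro h
        rw [h] at hlen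
        simp at hlen
        omega
      have h1 : opq m (ν + 1) L L' T k = true :=
        (opq_iff hm H hpar hL' hQ hT0 J.lt hk).2 (J.opp hT0)
      rw [if_pos h1]
      have h4 := down_step hm H hv hν hM J
      refine ⟨h4.1, ?_⟩
      rcases h4.2 with h5 | h5
      · exact Or.inl h5
      · right
        unfold pot at h5 ⊢
        simp only [if_true] at h5 ⊢
        exact h5
    · subst hl
      rw [if_neg (List.cons_ne_nil _ _)]
      simp only [List.getD_cons_zero]
      obtain ⟨hsp, hspl⟩ := J.sp.of_app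
      have hlm : l < m := J.lk.trans hk
      have hTl : ∀ t ∈ T, t < l := by
        intro t ht
        obtain ⟨i, hi, rfl⟩ := List.getElem_of_mem ht
        have h1 := hspl i hi
        rw [List.getD_eq_getElem _ _ hi] at h1
        by_contra h2
        exact absurd (H.mono (not_lt.1 h2)) (not_le.2 h1)
      have hnd : (k :: l :: T).Nodup := by
        refine List.nodup_cons.2 ⟨?_, List.nodup_cons.2 ⟨?_, hsp.nodup⟩⟩
        · intro h
          rcases List.mem_cons.1 h with h | h
          · exact J.lk.ne h.symm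
          · exact absurd ((hTl k h).trans J.lk) (lt_irrefl _)
        · intro h
          exact absurd (hTl l h) (lt_irrefl _)
      have hneg := fun x hx hxl => neg_iff hm hM J.len J.lt hlm hk hnd (dt_ne H J.len J.sp) x hx hxl
      by_cases h1 : neg (ν + 1) M T l k = true
      · rw [if_pos h1]
        have hx : ∀ x : Fin (ν + 1) → ℝ, (∀ i < ν, sl (aN hm A) (bN hm b) x (T.getD i 0) = 0) →
            sl (aN hm A) (bN hm b) x l = 0 → sl (aN hm A) (bN hm b) x k < 0 :=
          fun x hx hxl => (hneg x hx hxl).1 h1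
        by_cases h2 : rls m (ν + 1) L L' l = rls m (ν + 1) L L' k
        · rw [if_pos h2]
          have h3 := (rls_eq_iff hm H hpar hL' hQ hlm hk).1.1 h2
          refine ⟨Or.inr ⟨rfl, Or.inr (Or.inl ⟨rfl, r, J.viol_same H hk h3 hx⟩)⟩, Or.inr ?_⟩
          unfold pot
          simp only [List.cons_ne_nil, if_false, if_true]
          omega
        · rw [if_neg h2]
          have h3 := (rls_eq_iff hm H hpar hL' hQ hlm hk).2.1 h2
          exact ⟨Or.inl ⟨rfl, J.viol_opp H hv hk h3 hx⟩, Or.inl rfl⟩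
      · rw [if_neg h1]
        have hx : ∀ x : Fin (ν + 1) → ℝ, (∀ i < ν, sl (aN hm A) (bN hm b) x (T.getD i 0) = 0) →
            sl (aN hm A) (bN hm b) x l = 0 → 0 ≤ sl (aN hm A) (bN hm b) x k :=
          fun x hx hxl => not_lt.1 (fun h => h1 ((hneg x hx hxl).2 h))
        refine ⟨Or.inr ⟨rfl, Or.inr (Or.inr ⟨l, rfl, r, J.ok hk hx⟩)⟩, Or.inr ?_⟩
        unfold pot
        simp only [List.cons_ne_nil, if_false]
        omega

theorem sum_le_of_lt {T : List ℕ} (h : ∀ t ∈ T, t < m) : T.sum ≤ T.length * m := by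
  induction T with
  | nil => simp
  | cons t T ih =>
    have h1 := ih (fun x hx => h x (List.mem_cons_of_mem _ hx))
    have h2 := h t List.mem_cons_self
    simp only [List.sum_cons, List.length_cons]
    have : (T.length + 1) * m = T.length * m + m := by ring
    omega

theorem pot_le {a : ℕ → Fin (ν + 1) → ℝ} {b : ℕ → ℝ} {s : St} (hI : Inv a pos c b m s)
    (hb : s.2.2.2 = false) : pot s ≤ m + m + 1 + ν * m := by
  rcases hI with ⟨h1, -⟩ | ⟨-, h⟩
  · rw [hb] at h1
    exact Bool.noConfusion h1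
  · unfold pot
    rcases h with ⟨h1, h2, h3, -, r, J⟩ | ⟨h1, r, J⟩ | ⟨l, h1, r, J⟩
    · have h4 := sum_le_of_lt J.lt
      have h5 : s.2.1.length * m ≤ ν * m := Nat.mul_le_mul_right _ h3
      rw [if_pos h1]
      omega
    · have h4 := sum_le_of_lt J.lt
      rw [J.len] at h4
      have := J.km
      rw [if_pos h1]
      omega
    · have h4 := sum_le_of_lt J.lt
      rw [J.len] at h4
      have := J.km
      have h5 : (if s.2.2.1 = [] then 1 else 0) ≤ 1 := by split_ifs <;> simp
      omega

/-- **The exchange algorithm is correct.** -/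
theorem sts_end (H : Cheb (aN hm A) V pos c) (hpar : ParOK pos m (ν + 1) L)
    (hL : Tr A b L (K0 m (ν + 1))) (hL' : Tr A b L' (K1 m (ν + 1) L))
    (hQ : ν + 1 < (Qs m (ν + 1) L).length) (hv : NV pos c (bN hm b) m) (hν : 0 < ν) :
    (sts A b L L' (itN m (ν + 1))).2.2.2 = true ↔ Inf (aN hm A) (bN hm b) m := by
  have key : ∀ i, Inv (aN hm A) pos c (bN hm b) m (sts A b L L' i) ∧
      ((sts A b L L' i).2.2.2 = true ∨ m ≤ (sts A b L L' i).1 ∨ i < pot (sts A b L L' i)) := by
    intro i
    induction i with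
    | zero =>
      refine ⟨inv_zero _ _, Or.inr (Or.inr ?_)⟩
      show 0 < pot s0
      unfold pot s0
      simp
    | succ i ih =>
      obtain ⟨h1, h2⟩ := ih
      show Inv _ _ _ _ _ (upd m (ν + 1) L L' (tt A b (K2 m (ν + 1) (sts A b L L' i).2.1))
        (sts A b L L' i)) ∧ ((upd m (ν + 1) L L' (tt A b (K2 m (ν + 1) (sts A b L L' i).2.1))
        (sts A b L L' i)).2.2.2 = true ∨ m ≤ (upd m (ν + 1) L L'
          (tt A b (K2 m (ν + 1) (sts A b L L' i).2.1)) (sts A b L L' i)).1 ∨
          i + 1 < pot (upd m (ν + 1) L L' (tt A b (K2 m (ν + 1) (sts A b L L' i).2.1))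
            (sts A b L L' i)))
      set s := sts A b L L' i with hs
      by_cases h3 : s.2.2.2 = true ∨ m ≤ s.1
      · have h4 : upd m (ν + 1) L L' (tt A b (K2 m (ν + 1) s.2.1)) s = s := by
          unfold upd
          rw [if_pos h3]
        rw [h4]
        refine ⟨h1, ?_⟩
        rcases h3 with h3 | h3
        · exact Or.inl h3
        · exact Or.inr (Or.inl h3)
      · push Not at h3
        obtain ⟨h4, h5⟩ := h3
        have h4' : s.2.2.2 = false := by simpa using h4
        have h6 := upd_step hm H hpar hL hL' hQ hv hν s (tr_tt A b _) h1 h4' h5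
        refine ⟨h6.1, ?_⟩
        rcases h6.2 with h7 | h7
        · exact Or.inl h7
        · right; right
          rcases h2 with h2 | h2 | h2
          · exact absurd h2 h4
          · omega
          · omega
  obtain ⟨hI, h⟩ := key (itN m (ν + 1))
  set s := sts A b L L' (itN m (ν + 1)) with hs
  by_cases hb : s.2.2.2 = true
  · refine ⟨fun _ => ?_, fun _ => hb⟩
    rcases hI with ⟨-, h1⟩ | ⟨h1, -⟩
    · exact h1
    · rw [hb] at h1
      exact Bool.noConfusion h1
  · have hb' : s.2.2.2 = false := by simpa using hb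
    have hkm : m ≤ s.1 := by
      rcases h with h | h | h
      · exact absurd h hb
      · exact h
      · exfalso
        have h1 := pot_le hI hb'
        unfold itN at h
        have h2 : m * (ν + 1) = ν * m + m := by ring
        omega
    refine ⟨fun h1 => absurd h1 hb, fun h1 => ?_⟩
    exfalso
    rcases hI with ⟨h2, -⟩ | ⟨-, h2⟩
    · exact hb h2
    · rcases h2 with ⟨-, h3, h4, -, r, J⟩ | ⟨-, r, J⟩ | ⟨l, -, r, J⟩
      · have h5 : s.1 = m := le_antisymm h3 hkm
        rw [h5] at J
        exact J.feas H hv h4 h1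
      · exact absurd J.km (not_lt.2 hkm)
      · obtain ⟨x, -, -, hx⟩ := J.ex
        exact h1 ⟨x, fun i hi => hx i (lt_of_lt_of_le hi hkm)⟩

end Pool.Agent.L7h61.CH
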