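import Pool.Agent.L7h61.CH.Defs
import Pool.Agent.L7h61.CH.Lin
import Pool.Agent.H622R3.SM.T_EQ

set_option autoImplicit false

/-!
# Chebyshev systems: the values of the queries
-/

namespace Pool.Agent.L7h61.CH

open Matrix
open Pool.Agent.NPC Pool.Agent.H558R2 Pool.Agent.H622R3.SM Pool.Agent.W920.FC

/-! ### Lists -/

theorem getD_flatMap_range {α : Type} (f : ℕ → ℕ → α) (a b i j : ℕ) (hi : i < a) (hj : j < b)
    (d : α) : ((List.range a).flatMap fun i => (List.range b).map (f i)).getD (i * b + j) d =
      f i j := by
  induction a with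
  | zero => omega
  | succ a ih =>
    rw [List.range_succ, List.flatMap_append]
    have hlen : ((List.range a).flatMap fun i => (List.range b).map (f i)).length = a * b := by
      rw [List.length_flatMap]
      simp
    rcases Nat.lt_succ_iff_lt_or_eq.1 hi with h | h
    · rw [List.getD_append _ _ _ _ (by
        rw [hlen]
        calc i * b + j < i * b + b := by omega
          _ = (i + 1) * b := by ring
          _ ≤ a * b := Nat.mul_le_mul_right _ h)]
      exact ih h
    · subst h
      rw [List.getD_append_right _ _ _ _ (by rw [hlen]; omega), hlen]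
      have e : i * b + j - i * b = j := by omega
      rw [e]
      simp [List.getD_eq_getElem?_getD, hj]

theorem filter_range_single (N k0 : ℕ) (h : k0 < N) (p : ℕ → Bool)
    (hp : ∀ k < N, p k = true ↔ k = k0) : (List.range N).filter p = [k0] := by
  have h1 : (List.range N).filter p = (List.range N).filter (fun k => k == k0) := by
    refine List.filter_congr fun k hk => ?_
    have h2 := hp k (List.mem_range.1 hk)
    rcases Bool.eq_false_or_eq_true (p k) with h3 | h3
    · rw [h3, h2.1 h3]; simp
    · rw [h3]
      have : k ≠ k0 := fun h4 => by rw [h2.2 h4] at h3; exact Bool.noConfusion h3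
      simp [this]
  rw [h1, List.filter_beq]
  have h2 : List.count k0 (List.range N) = 1 :=
    List.count_eq_one_of_mem List.nodup_range (List.mem_range.2 h)
  rw [h2]
  rfl

/-! ### The columns -/

theorem enc_getD (m n : ℕ) (R : Key) (r k : ℕ) (hr : r < m) (hk : k < m + (n + n)) :
    (enc m n R).getD (r * (m + (n + n)) + k) none =
      some (if k < m then decide (k = r) && R.all (fun x => decide (x.1 ≠ r))
        else R.any (fun x => decide (x.1 = r) && decide (m + n + x.2 = k))) := by
  unfold enc
  exact getD_flatMap_range _ _ _ _ _ hr hk _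

theorem colOf_out (m n : ℕ) (R : Key) (r : ℕ) (hr : r < m) (h : ∀ x ∈ R, x.1 ≠ r) :
    colOf m n (enc m n R) 0 r = r := by
  unfold colOf
  rw [filter_range_single (m + (n + n)) r (by omega)]
  · rfl
  · intro k hk
    rw [zero_mul, zero_add, enc_getD m n R r k hr hk]
    simp only [Option.some.injEq, decide_eq_true_eq]
    split_ifs with h1
    · simp only [Bool.and_eq_true, decide_eq_true_eq, List.all_eq_true]
      exact ⟨fun h2 => h2.1, fun h2 => ⟨h2, fun x hx => h x hx⟩⟩
    · simp only [List.any_eq_true, Bool.and_eq_true, decide_eq_true_eq]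
      constructor
      · rintro ⟨x, hx, h2, -⟩
        exact absurd h2 (h x hx)
      · intro h2; omega

theorem colOf_in (m n : ℕ) (R : Key) (hR : (R.map Prod.fst).Nodup) (x : ℕ × ℕ) (hx : x ∈ R)
    (hr : x.1 < m) (hc : x.2 ≤ n) :
    colOf m n (enc m n R) 0 x.1 = m + n + x.2 := by
  have huniq : ∀ y ∈ R, y.1 = x.1 → y = x := by
    intro y hy h
    exact List.inj_on_of_nodup_map hR hy hx h
  have key : ∀ k < m + (n + n),
      (decide ((enc m n R).getD (0 * (ell m n + 1) + x.1 * (m + (n + n)) + k) none = some true)) =
        true ↔ m + n + x.2 = k := by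
    intro k hk
    rw [zero_mul, zero_add, enc_getD m n R x.1 k hr hk]
    simp only [Option.some.injEq, decide_eq_true_eq]
    split_ifs with h1
    · simp only [Bool.and_eq_true, decide_eq_true_eq, List.all_eq_true]
      constructor
      · rintro ⟨-, h2⟩
        exact absurd rfl (h2 x hx)
      · intro h2; omega
    · simp only [List.any_eq_true, Bool.and_eq_true, decide_eq_true_eq]
      constructor
      · rintro ⟨y, hy, h2, h3⟩
        rw [huniq y hy h2] at h3
        exact h3
      · intro h2
        exact ⟨x, hx, rfl, h2⟩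
  unfold colOf
  rcases Nat.lt_or_ge x.2 n with h | h
  · rw [filter_range_single (m + (n + n)) (m + n + x.2) (by omega)]
    · rfl
    · intro k hk
      rw [key k hk]
      exact eq_comm
  · have h2 : x.2 = n := le_antisymm hc h
    have h3 : (List.range (m + (n + n))).filter (fun k =>
        decide ((enc m n R).getD (0 * (ell m n + 1) + x.1 * (m + (n + n)) + k) none = some true)) =
          [] := by
      rw [List.filter_eq_nil_iff]
      intro k hk h4
      have h5 := (key k (List.mem_range.1 hk)).1 h4
      have h6 := List.mem_range.1 hk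
      omega
    rw [h3, h2]
    show m + (n + n) = m + n + n
    omega

/-! ### The minors -/

theorem det_block {m r : ℕ} (M : Matrix (Fin m) (Fin m) ℝ) (s : Fin r → Fin m)
    (hs : Function.Injective s)
    (h : ∀ i, i ∉ Set.range s → ∀ j, M j i = if j = i then 1 else 0) :
    M.det = (M.submatrix s s).det := by
  classical
  rw [Matrix.twoBlockTriangular_det' M (fun i => i ∈ Set.range s) (fun i hi j hj => by
    have hne : i ≠ j := by
      rintro rfl
      exact hj hi
    rw [h j hj i, if_neg hne])]
  have h1 : (toSquareBlockProp M fun i => ¬ (i ∈ Set.range s)) = 1 := by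
    ext i j
    rw [toSquareBlockProp_def]
    simp only [Matrix.of_apply]
    rw [h j.1 j.2 i.1, Matrix.one_apply]
    by_cases e : i = j
    · rw [if_pos (congrArg _ e), if_pos e]
    · rw [if_neg (fun e2 => e (Subtype.ext e2)), if_neg e]
  rw [h1, Matrix.det_one, mul_one]
  have e : ∀ e : Fin r ≃ {i // i ∈ Set.range s}, (∀ i, (e i : Fin m) = s i) →
      (M.toSquareBlockProp fun i => i ∈ Set.range s).det = (M.submatrix s s).det := by
    intro e he
    rw [← Matrix.det_submatrix_equiv_self e]
    congr 1
    ext i j
    show M (e i : Fin m) (e j : Fin m) = M (s i) (s j)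
    rw [he, he]
  have hF : (Subtype.fintype fun i => i ∈ Set.range s) = Set.fintypeRange s :=
    Subsingleton.elim _ _
  rw [hF]
  exact e (Equiv.ofInjective s hs) fun i => rfl

/-- The entry of `[A | -b]`. -/
def ext {m n : ℕ} (A : Fin m → Fin n → ℝ) (b : Fin m → ℝ) (i : Fin m) (c : ℕ) : ℝ :=
  if h : c < n then A i ⟨c, h⟩ else - b i

/-- The value of the query with the key `R`. -/
noncomputable def val {m n : ℕ} (A : Fin m → Fin n → ℝ) (b : Fin m → ℝ) (R : Key) : ℝ :=
  dd (wmat A b) (beta m n (enc m n R) 0)

theorem val_eq {m n r : ℕ} (A : Fin m → Fin n → ℝ) (b : Fin m → ℝ) (s : Fin r → Fin m)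
    (hs : Function.Injective s) (γ : Fin r → ℕ) (hγ : ∀ i, γ i ≤ n) :
    val A b (List.ofFn fun i => ((s i : ℕ), γ i)) =
      (Matrix.of fun i j : Fin r => ext A b (s i) (γ j)).det := by
  set R : Key := List.ofFn fun i => ((s i : ℕ), γ i) with hR
  have hnd : (R.map Prod.fst).Nodup := by
    rw [hR, List.map_ofFn, List.nodup_ofFn]
    intro i j hij
    exact hs (Fin.ext hij)
  have hmem : ∀ i, ((s i : ℕ), γ i) ∈ R := fun i => by
    rw [hR]; exact (List.mem_ofFn' _ _).2 ⟨i, rfl⟩
  unfold val dd
  rw [det_block _ s hs]
  · congr 1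
    ext i j
    simp only [Matrix.submatrix_apply, Matrix.of_apply]
    have hcol := colOf_in m n R hnd _ (hmem j) (s j).2 (hγ j)
    simp only at hcol
    unfold beta ext
    rcases Nat.lt_or_ge (γ j) n with h | h
    · have h1 : colOf m n (enc m n R) 0 (s j) < m + (n + n) := by rw [hcol]; omega
      rw [dif_pos h1, dif_pos h]
      unfold wmat
      simp only
      have h2 : (⟨colOf m n (enc m n R) 0 (s j), h1⟩ : Fin (m + (n + n))) =
          ⟨m + n + γ j, by omega⟩ := Fin.ext hcol
      rw [h2, TEQ.symm_hi (m + n + γ j) (by omega) (by omega) (by omega)]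
      have h3 : (⟨m + n + γ j - m - n, by omega⟩ : Fin n) = ⟨γ j, h⟩ := by
        apply Fin.ext
        show m + n + γ j - m - n = γ j
        omega
      show A (s i) ⟨m + n + γ j - m - n, _⟩ = _
      rw [h3]
    · have h1 : ¬ colOf m n (enc m n R) 0 (s j) < m + (n + n) := by rw [hcol]; omega
      rw [dif_neg h1, dif_neg (by omega)]
      rfl
  · intro i hi j
    simp only [Matrix.of_apply]
    have hcol := colOf_out m n R i i.2 (fun x hx h => by
      rw [hR] at hx
      obtain ⟨l, hl⟩ := (List.mem_ofFn' _ _).1 hx
      apply hi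
      refine ⟨l, Fin.ext ?_⟩
      rw [← h, ← hl])
    unfold beta
    have h1 : colOf m n (enc m n R) 0 i < m + (n + n) := by rw [hcol]; omega
    rw [dif_pos h1]
    unfold wmat
    simp only
    have h2 : (⟨colOf m n (enc m n R) 0 i, h1⟩ : Fin (m + (n + n))) = ⟨i, by omega⟩ := Fin.ext hcol
    rw [h2, TEQ.symm_lo (i : ℕ) i.2 (by omega)]
    rfl

end Pool.Agent.L7h61.CH
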