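import Pool.Agent.L7h61.CH.Final

set_option autoImplicit false

/-!
# Chebyshev systems: the example of the powers
-/

namespace Pool.Agent.L7h61.CH

open Matrix

/-- Rows which are multiples of `(1, t, t ^ 2, …)`. -/
theorem chebClass_pow (m n : ℕ) (t c : Fin m → ℝ) (ht : Monotone t) (hc : ∀ i, c i ≠ 0) :
    ChebClass m n (Matrix.of fun i j => c i * t i ^ (j : ℕ)) := by
  classical
  obtain ⟨B, hB⟩ : ∃ B : ℝ, ∀ i, t i ≤ B := by
    obtain ⟨B, hB⟩ := (Set.finite_range t).bddAbove
    exact ⟨B, fun i => hB ⟨i, rfl⟩⟩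
  set E : Finset ℝ := Finset.univ.image fun k : Fin n => B + 1 + (k : ℝ) with hE
  set S : Finset ℝ := Finset.univ.image t ∪ E with hS
  have hcardE : E.card = n := by
    rw [hE, Finset.card_image_of_injective _ (fun x y h => by
      have h1 : (x : ℝ) = (y : ℝ) := by simpa using h
      exact Fin.ext (by exact_mod_cast h1)), Finset.card_fin]
  have hcard : n ≤ S.card := by
    have h1 : E.card ≤ S.card := Finset.card_le_card Finset.subset_union_right
    omega
  set τ := S.orderEmbOfFin rfl with hτ
  have hmem : ∀ i, ∃ k, τ k = t i := by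
    intro i
    have h1 : t i ∈ S := Finset.mem_union_left _ (Finset.mem_image_of_mem _ (Finset.mem_univ i))
    have h2 : t i ∈ Set.range τ := by
      rw [hτ, Finset.range_orderEmbOfFin]
      exact h1
    exact h2
  choose pos hpos using hmem
  refine ⟨S.card, Matrix.of fun k j => τ k ^ (j : ℕ), 1, pos, c, hcard, fun f hf => ?_, ?_, hc,
    fun i j => ?_⟩
  · rw [one_mul]
    have h1 : (Matrix.of fun (k : Fin S.card) (j : Fin n) => τ k ^ (j : ℕ)).submatrix f id =
        Matrix.vandermonde fun i => τ (f i) := by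
      ext i j
      rfl
    rw [h1, Matrix.det_vandermonde]
    refine Finset.prod_pos fun i _ => Finset.prod_pos fun j hj => ?_
    rw [Finset.mem_Ioi] at hj
    exact sub_pos.2 (τ.strictMono (hf hj))
  · intro i j hij
    rw [← τ.le_iff_le, hpos, hpos]
    exact ht hij
  · show c i * t i ^ (j : ℕ) = c i * τ (pos i) ^ (j : ℕ)
    rw [hpos]

end Pool.Agent.L7h61.CH
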